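import Pool.Agent.Work.MP_7d1693_pr.Base

namespace Pool.Agent.Work.MP_7d1693_pr

open Finset

/-! ### PAT: words and comparison tables of sorted sets -/

theorem sort_eq_of {l : List ℕ} {S : Finset ℕ} (h : l.Pairwise (· < ·)) (hS : ∀ x, x ∈ l ↔ x ∈ S) :
    S.sort (· ≤ ·) = l := by
  have hn : l.Nodup := h.imp (fun hab => ne_of_lt hab)
  have hS' : l.toFinset = S := by
    ext x; simp [hS]
  rw [← hS']
  exact (List.toFinset_sort (r := (· ≤ ·)) hn).2 (h.imp (fun hab => le_of_lt hab))

theorem sort_pairwise_lt (S : Finset ℕ) : (S.sort (· ≤ ·)).Pairwise (· < ·) :=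
  (S.sortedLT_sort).pairwise

theorem el_mem (e : Finset ℕ) (i : ℕ) (hi : i < e.card) : el e i ∈ e := by
  have h : i < (e.sort (· ≤ ·)).length := by simpa using hi
  unfold el
  rw [List.getD_eq_getElem _ _ h]
  exact (Finset.mem_sort (· ≤ ·)).1 (List.getElem_mem h)

theorem el_lt (e : Finset ℕ) (i j : ℕ) (hij : i < j) (hj : j < e.card) : el e i < el e j := by
  have h2 : j < (e.sort (· ≤ ·)).length := by simpa using hj
  have h1 : i < (e.sort (· ≤ ·)).length := hij.trans h2
  unfold el
  rw [List.getD_eq_getElem _ _ h1, List.getD_eq_getElem _ _ h2]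
  exact List.pairwise_iff_getElem.1 (sort_pairwise_lt e) i j h1 h2 hij

theorem exists_el (e : Finset ℕ) (x : ℕ) (hx : x ∈ e) : ∃ i < e.card, el e i = x := by
  obtain ⟨i, hi, h⟩ := List.mem_iff_getElem.1 ((Finset.mem_sort (· ≤ ·)).2 hx)
  refine ⟨i, by simpa using hi, ?_⟩
  unfold el
  rw [List.getD_eq_getElem _ _ hi, h]

theorem mn_mem (e : Finset ℕ) (he : e.Nonempty) : mn e ∈ e := by
  have := Nat.sInf_mem (s := (e : Set ℕ)) (by exact_mod_cast he)
  exact_mod_cast this

theorem mn_le (e : Finset ℕ) (x : ℕ) (hx : x ∈ e) : mn e ≤ x :=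
  Nat.sInf_le (by exact_mod_cast hx)

theorem el_mono (e : Finset ℕ) (i j : ℕ) (hij : i ≤ j) (hj : j < e.card) : el e i ≤ el e j := by
  rcases hij.eq_or_lt with rfl | h
  · exact le_rfl
  · exact (el_lt e i j h hj).le

theorem el_lt_iff (e : Finset ℕ) (i j : ℕ) (hi : i < e.card) (hj : j < e.card) :
    el e i < el e j ↔ i < j := by
  constructor
  · intro h
    by_contra hc
    exact absurd h (not_lt.2 (el_mono e j i (not_lt.1 hc) hi))
  · intro h; exact el_lt e i j h hj

theorem el_inj (e : Finset ℕ) (i j : ℕ) (hi : i < e.card) (hj : j < e.card)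
    (h : el e i = el e j) : i = j := by
  rcases lt_trichotomy i j with h1 | h1 | h1
  · exact absurd h (el_lt e i j h1 hj).ne
  · exact h1
  · exact absurd h (el_lt e j i h1 hi).ne'

theorem mn_eq (e : Finset ℕ) (he : e.Nonempty) : mn e = el e 0 ∧ e.min = ((mn e : ℕ) : WithTop ℕ) := by
  constructor
  · apply le_antisymm
    · exact mn_le e _ (el_mem e 0 (Finset.card_pos.2 he))
    · obtain ⟨i, hi, h⟩ := exists_el e _ (mn_mem e he)
      rw [← h]
      exact el_mono e 0 i (Nat.zero_le _) hi
  · rw [← Finset.coe_min' he]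
    congr 1
    apply le_antisymm
    · exact Finset.min'_le _ _ (mn_mem e he)
    · exact mn_le e _ (Finset.min'_mem _ _)

theorem sort_image (φ : ℕ → ℕ) (S : Finset ℕ) (h : StrictMonoOn φ (S : Set ℕ)) :
    (S.image φ).sort (· ≤ ·) = (S.sort (· ≤ ·)).map φ := by
  apply sort_eq_of
  · rw [List.pairwise_map]
    refine (sort_pairwise_lt S).imp_of_mem ?_
    intro a b ha hb hab
    exact h (by simpa using ha) (by simpa using hb) hab
  · intro x
    simp

theorem el_image (φ : ℕ → ℕ) (S : Finset ℕ) (h : StrictMonoOn φ (S : Set ℕ)) (i : ℕ)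
    (hi : i < S.card) : el (S.image φ) i = φ (el S i) := by
  have h1 : i < (S.sort (· ≤ ·)).length := by simpa using hi
  unfold el
  rw [sort_image φ S h, List.getD_eq_getElem _ _ (by simpa using hi), List.getD_eq_getElem _ _ h1]
  simp

theorem pat_image (φ : ℕ → ℕ) (e f : Finset ℕ) (h : StrictMonoOn φ ((e ∪ f : Finset ℕ) : Set ℕ)) :
    pat (e.image φ) (f.image φ) = pat e f := by
  unfold pat
  rw [← Finset.image_union, sort_image φ _ h, List.map_map]
  apply List.map_congr_left
  intro v hv
  have hv' : v ∈ e ∪ f := by simpa using hv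
  simp only [Function.comp]
  congr 1
  apply propext
  constructor
  · intro hm
    obtain ⟨u, hu, huv⟩ := Finset.mem_image.1 hm
    have : u = v := h.injOn (by exact_mod_cast Finset.mem_union_left _ hu) (by exact_mod_cast hv') huv
    rw [← this]; exact hu
  · intro hm
    exact Finset.mem_image_of_mem _ hm

theorem sort_union_lt (A B : Finset ℕ) (h : ∀ x ∈ A, ∀ y ∈ B, x < y) :
    (A ∪ B).sort (· ≤ ·) = A.sort (· ≤ ·) ++ B.sort (· ≤ ·) := by
  apply sort_eq_of
  · rw [List.pairwise_append]
    refine ⟨sort_pairwise_lt A, sort_pairwise_lt B, ?_⟩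
    intro a ha b hb
    exact h a (by simpa using ha) b (by simpa using hb)
  · intro x; simp

theorem el_union_left (A B : Finset ℕ) (h : ∀ x ∈ A, ∀ y ∈ B, x < y) (i : ℕ) (hi : i < A.card) :
    el (A ∪ B) i = el A i := by
  unfold el
  rw [sort_union_lt A B h, List.getD_append _ _ _ _ (by simpa using hi)]

theorem el_union_right (A B : Finset ℕ) (h : ∀ x ∈ A, ∀ y ∈ B, x < y) (i : ℕ) (hi : A.card ≤ i) :
    el (A ∪ B) i = el B (i - A.card) := by
  unfold el
  rw [sort_union_lt A B h, List.getD_append_right _ _ _ _ (by simpa using hi)]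
  simp

theorem pat_union (e1 e2 f1 f2 : Finset ℕ) (h : ∀ x ∈ e1 ∪ f1, ∀ y ∈ e2 ∪ f2, x < y) :
    pat (e1 ∪ e2) (f1 ∪ f2) = pat e1 f1 ++ pat e2 f2 := by
  unfold pat
  have h1 : e1 ∪ e2 ∪ (f1 ∪ f2) = (e1 ∪ f1) ∪ (e2 ∪ f2) := by
    ext x; simp only [Finset.mem_union]; tauto
  rw [h1, sort_union_lt _ _ h, List.map_append]
  congr 1
  · apply List.map_congr_left
    intro v hv
    have hv' : v ∈ e1 ∪ f1 := by simpa using hv
    congr 1
    apply propext
    constructor
    · intro hm
      rcases Finset.mem_union.1 hm with hm | hm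
      · exact hm
      · exact absurd (h v hv' v (Finset.mem_union_left _ hm)) (lt_irrefl _)
    · intro hm; exact Finset.mem_union_left _ hm
  · apply List.map_congr_left
    intro v hv
    have hv' : v ∈ e2 ∪ f2 := by simpa using hv
    congr 1
    apply propext
    constructor
    · intro hm
      rcases Finset.mem_union.1 hm with hm | hm
      · exact absurd (h v (Finset.mem_union_left _ hm) v hv') (lt_irrefl _)
      · exact hm
    · intro hm; exact Finset.mem_union_right _ hm

theorem pat_empty_right (e : Finset ℕ) : pat e ∅ = List.replicate e.card true := by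
  unfold pat
  rw [Finset.union_empty, List.eq_replicate_iff]
  constructor
  · simp
  · intro b hb
    obtain ⟨v, hv, rfl⟩ := List.mem_map.1 hb
    simpa using hv

theorem pat_empty_left (f : Finset ℕ) : pat ∅ f = List.replicate f.card false := by
  unfold pat
  rw [Finset.empty_union, List.eq_replicate_iff]
  constructor
  · simp
  · intro b hb
    obtain ⟨v, hv, rfl⟩ := List.mem_map.1 hb
    simp

theorem pat_lt (e f : Finset ℕ) (h : ∀ x ∈ e, ∀ y ∈ f, x < y) :
    pat e f = List.replicate e.card true ++ List.replicate f.card false := by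
  have := pat_union e ∅ ∅ f (by simpa using h)
  rw [Finset.union_empty, Finset.empty_union] at this
  rw [this, pat_empty_right, pat_empty_left]

theorem pat_gt (e f : Finset ℕ) (h : ∀ x ∈ f, ∀ y ∈ e, x < y) :
    pat e f = List.replicate f.card false ++ List.replicate e.card true := by
  have := pat_union ∅ e f ∅ (by simpa using h)
  rw [Finset.union_empty, Finset.empty_union] at this
  rw [this, pat_empty_right, pat_empty_left]

/-- a strictly increasing map carrying one pair of sets to the other -/
theorem pat_eq_of_table (r : ℕ) (e f e' f' : Finset ℕ) (he : e.card = r) (hf : f.card = r)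
    (he' : e'.card = r) (hf' : f'.card = r) (hd : Disjoint e f) (hd' : Disjoint e' f')
    (h : ∀ i < r, ∀ j < r, (el e i < el f j ↔ el e' i < el f' j)) : pat e f = pat e' f' := by
  classical
  have hie : ∀ x, ∃ i, x ∈ e → i < r ∧ el e i = x := by
    intro x
    by_cases hx : x ∈ e
    · obtain ⟨i, hi, h⟩ := exists_el e x hx
      exact ⟨i, fun _ => ⟨he ▸ hi, h⟩⟩
    · exact ⟨0, fun h => absurd h hx⟩
  have hif : ∀ x, ∃ i, x ∈ f → i < r ∧ el f i = x := by
    intro x
    by_cases hx : x ∈ f
    · obtain ⟨i, hi, h⟩ := exists_el f x hx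
      exact ⟨i, fun _ => ⟨hf ▸ hi, h⟩⟩
    · exact ⟨0, fun h => absurd h hx⟩
  choose ie hie using hie
  choose jf hjf using hif
  let φ : ℕ → ℕ := fun x => if x ∈ e then el e' (ie x) else el f' (jf x)
  have hφe : ∀ i < r, φ (el e i) = el e' i := by
    intro i hi
    have hm : el e i ∈ e := el_mem e i (he ▸ hi)
    simp only [φ, if_pos hm]
    obtain ⟨h1, h2⟩ := hie _ hm
    rw [el_inj e _ _ (he ▸ h1) (he ▸ hi) h2]
  have hφf : ∀ j < r, φ (el f j) = el f' j := by
    intro j hj
    have hm : el f j ∈ f := el_mem f j (hf ▸ hj)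
    have hm' : el f j ∉ e := fun hc => Finset.disjoint_left.1 hd hc hm
    simp only [φ, if_neg hm']
    obtain ⟨h1, h2⟩ := hjf _ hm
    rw [el_inj f _ _ (hf ▸ h1) (hf ▸ hj) h2]
  have hmono : StrictMonoOn φ ((e ∪ f : Finset ℕ) : Set ℕ) := by
    intro x hx y hy hxy
    have hx' : x ∈ e ∪ f := by exact_mod_cast hx
    have hy' : y ∈ e ∪ f := by exact_mod_cast hy
    rcases Finset.mem_union.1 hx' with hxe | hxf
    · obtain ⟨i, hi, rfl⟩ := exists_el e x hxe
      rw [he] at hi
      rcases Finset.mem_union.1 hy' with hye | hyf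
      · obtain ⟨j, hj, rfl⟩ := exists_el e y hye
        rw [he] at hj
        rw [hφe i hi, hφe j hj]
        exact (el_lt_iff e' i j (he' ▸ hi) (he' ▸ hj)).2
          ((el_lt_iff e i j (he ▸ hi) (he ▸ hj)).1 hxy)
      · obtain ⟨j, hj, rfl⟩ := exists_el f y hyf
        rw [hf] at hj
        rw [hφe i hi, hφf j hj]
        exact (h i hi j hj).1 hxy
    · obtain ⟨j, hj, rfl⟩ := exists_el f x hxf
      rw [hf] at hj
      rcases Finset.mem_union.1 hy' with hye | hyf
      · obtain ⟨i, hi, rfl⟩ := exists_el e y hye
        rw [he] at hi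
        rw [hφe i hi, hφf j hj]
        have h1 : ¬ el e' i < el f' j := fun hc => absurd ((h i hi j hj).2 hc) (not_lt.2 hxy.le)
        have h2 : el e' i ≠ el f' j := by
          intro hc
          exact Finset.disjoint_left.1 hd' (el_mem e' i (he' ▸ hi))
            (hc ▸ el_mem f' j (hf' ▸ hj))
        omega
      · obtain ⟨i, hi, rfl⟩ := exists_el f y hyf
        rw [hf] at hi
        rw [hφf i hi, hφf j hj]
        exact (el_lt_iff f' j i (hf' ▸ hj) (hf' ▸ hi)).2
          ((el_lt_iff f j i (hf ▸ hj) (hf ▸ hi)).1 hxy)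
  have hime : e.image φ = e' := by
    ext x
    rw [Finset.mem_image]
    constructor
    · rintro ⟨y, hy, rfl⟩
      obtain ⟨i, hi, rfl⟩ := exists_el e y hy
      rw [he] at hi
      rw [hφe i hi]
      exact el_mem e' i (he' ▸ hi)
    · intro hx
      obtain ⟨i, hi, rfl⟩ := exists_el e' x hx
      rw [he'] at hi
      exact ⟨el e i, el_mem e i (he ▸ hi), hφe i hi⟩
  have himf : f.image φ = f' := by
    ext x
    rw [Finset.mem_image]
    constructor
    · rintro ⟨y, hy, rfl⟩
      obtain ⟨i, hi, rfl⟩ := exists_el f y hy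
      rw [hf] at hi
      rw [hφf i hi]
      exact el_mem f' i (hf' ▸ hi)
    · intro hx
      obtain ⟨i, hi, rfl⟩ := exists_el f' x hx
      rw [hf'] at hi
      exact ⟨el f i, el_mem f i (hf ▸ hi), hφf i hi⟩
  rw [← pat_image φ e f hmono, hime, himf]

/-- the converse: equal words give a strictly increasing map -/
theorem exists_map_of_pat_eq (e f e' f' : Finset ℕ) (hd : Disjoint e f) (hd' : Disjoint e' f')
    (h : pat e f = pat e' f') :
    ∃ φ : ℕ → ℕ, StrictMonoOn φ ((e ∪ f : Finset ℕ) : Set ℕ) ∧ e.image φ = e' ∧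
      f.image φ = f' := by
  classical
  have hlen : (e ∪ f).card = (e' ∪ f').card := by
    have := congrArg List.length h
    simpa [pat] using this
  have hidx : ∀ x, ∃ i, x ∈ e ∪ f → i < (e ∪ f).card ∧ el (e ∪ f) i = x := by
    intro x
    by_cases hx : x ∈ e ∪ f
    · obtain ⟨i, hi, h⟩ := exists_el _ x hx
      exact ⟨i, fun _ => ⟨hi, h⟩⟩
    · exact ⟨0, fun h => absurd h hx⟩
  choose idx hidx using hidx
  have hidx' : ∀ i < (e ∪ f).card, idx (el (e ∪ f) i) = i := by
    intro i hi
    obtain ⟨h1, h2⟩ := hidx _ (el_mem _ i hi)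
    exact el_inj _ _ _ h1 hi h2
  have hmem : ∀ i < (e ∪ f).card, (el (e ∪ f) i ∈ e ↔ el (e' ∪ f') i ∈ e') := by
    intro i hi
    have h1 : i < ((e ∪ f).sort (· ≤ ·)).length := by simpa using hi
    have h2 : i < ((e' ∪ f').sort (· ≤ ·)).length := by simpa [← hlen] using hi
    have h3 : (pat e f).getD i false = (pat e' f').getD i false := by rw [h]
    unfold pat at h3
    rw [List.getD_eq_getElem _ _ (by simpa using hi),
      List.getD_eq_getElem _ _ (by simpa [← hlen] using hi)] at h3
    simp only [List.getElem_map] at h3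
    unfold el
    rw [List.getD_eq_getElem _ _ h1, List.getD_eq_getElem _ _ h2]
    simpa using h3
  let φ : ℕ → ℕ := fun x => el (e' ∪ f') (idx x)
  have hφ : ∀ i < (e ∪ f).card, φ (el (e ∪ f) i) = el (e' ∪ f') i := by
    intro i hi
    simp only [φ, hidx' i hi]
  refine ⟨φ, ?_, ?_, ?_⟩
  · intro x hx y hy hxy
    have hx' : x ∈ e ∪ f := by exact_mod_cast hx
    have hy' : y ∈ e ∪ f := by exact_mod_cast hy
    obtain ⟨i, hi, rfl⟩ := exists_el _ x hx'
    obtain ⟨j, hj, rfl⟩ := exists_el _ y hy'
    rw [hφ i hi, hφ j hj]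
    exact el_lt _ _ _ ((el_lt_iff _ i j hi hj).1 hxy) (hlen ▸ hj)
  · ext x
    rw [Finset.mem_image]
    constructor
    · rintro ⟨y, hy, rfl⟩
      obtain ⟨i, hi, rfl⟩ := exists_el _ y (Finset.mem_union_left f hy)
      rw [hφ i hi]
      exact (hmem i hi).1 hy
    · intro hx
      obtain ⟨i, hi, rfl⟩ := exists_el _ x (Finset.mem_union_left f' hx)
      rw [← hlen] at hi
      exact ⟨el (e ∪ f) i, (hmem i hi).2 hx, hφ i hi⟩
  · ext x
    rw [Finset.mem_image]
    constructor
    · rintro ⟨y, hy, rfl⟩
      obtain ⟨i, hi, rfl⟩ := exists_el _ y (Finset.mem_union_right e hy)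
      rw [hφ i hi]
      have h1 : el (e ∪ f) i ∉ e := fun hc => Finset.disjoint_left.1 hd hc hy
      have h2 : el (e' ∪ f') i ∉ e' := fun hc => h1 ((hmem i hi).2 hc)
      rcases Finset.mem_union.1 (el_mem (e' ∪ f') i (hlen ▸ hi)) with hc | hc
      · exact absurd hc h2
      · exact hc
    · intro hx
      obtain ⟨i, hi, rfl⟩ := exists_el _ x (Finset.mem_union_right e' hx)
      rw [← hlen] at hi
      refine ⟨el (e ∪ f) i, ?_, hφ i hi⟩
      have h1 : el (e' ∪ f') i ∉ e' := fun hc => Finset.disjoint_left.1 hd' hc hx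
      have h2 : el (e ∪ f) i ∉ e := fun hc => h1 ((hmem i hi).1 hc)
      rcases Finset.mem_union.1 (el_mem (e ∪ f) i hi) with hc | hc
      · exact absurd hc h2
      · exact hc

theorem pat_eq_iff (r : ℕ) (e f e' f' : Finset ℕ) (he : e.card = r) (hf : f.card = r)
    (he' : e'.card = r) (hf' : f'.card = r) (hd : Disjoint e f) (hd' : Disjoint e' f') :
    pat e f = pat e' f' ↔
      ∀ i < r, ∀ j < r, (el e i < el f j ↔ el e' i < el f' j) := by
  constructor
  · intro h i hi j hj
    obtain ⟨φ, hm, h1, h2⟩ := exists_map_of_pat_eq e f e' f' hd hd' h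
    have hme : StrictMonoOn φ (e : Set ℕ) := hm.mono (by
      intro x hx; simp only [Finset.coe_union, Set.mem_union]; exact Or.inl hx)
    have hmf : StrictMonoOn φ (f : Set ℕ) := hm.mono (by
      intro x hx; simp only [Finset.coe_union, Set.mem_union]; exact Or.inr hx)
    rw [← h1, ← h2, el_image φ e hme i (he ▸ hi), el_image φ f hmf j (hf ▸ hj)]
    refine (hm.lt_iff_lt ?_ ?_).symm
    · simp only [Finset.coe_union, Set.mem_union]
      exact Or.inl (by exact_mod_cast el_mem e i (he ▸ hi))
    · simp only [Finset.coe_union, Set.mem_union]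
      exact Or.inr (by exact_mod_cast el_mem f j (hf ▸ hj))
  · intro h
    exact pat_eq_of_table r e f e' f' he hf he' hf' hd hd' h

/-- every block word is realised by a pair of sets with the expected comparison table -/
theorem exists_word (b : List (ℕ × Bool)) :
    ∃ e f : Finset ℕ, e.card = (b.map Prod.fst).sum ∧ f.card = (b.map Prod.fst).sum ∧
      Disjoint e f ∧ pat e f = word b ∧
      ∀ i < (b.map Prod.fst).sum, ∀ j < (b.map Prod.fst).sum, (el e i < el f j ↔
      (bi (b.map Prod.fst) i < bi (b.map Prod.fst) j ∨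
        (bi (b.map Prod.fst) i = bi (b.map Prod.fst) j ∧
          (b.map Prod.snd).getD (bi (b.map Prod.fst) i) false = true))) := by
  induction b with
  | nil =>
    refine ⟨∅, ∅, by simp, by simp, by simp, by simp [pat, word], ?_⟩
    intro i hi
    simp at hi
  | cons x b ih =>
    obtain ⟨a, s⟩ := x
    obtain ⟨e', f', he', hf', hd', hp', ht'⟩ := ih
    let ce : ℕ := if s then 0 else a
    let cf : ℕ := if s then a else 0
    let e1 : Finset ℕ := (range a).image (· + ce)
    let f1 : Finset ℕ := (range a).image (· + cf)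
    let e2 : Finset ℕ := e'.image (· + 2 * a)
    let f2 : Finset ℕ := f'.image (· + 2 * a)
    have hsm : ∀ c : ℕ, StrictMono (fun x : ℕ => x + c) := fun c x y h => by
      simpa using h
    have he1c : e1.card = a := by
      rw [Finset.card_image_of_injective _ (hsm ce).injective, Finset.card_range]
    have hf1c : f1.card = a := by
      rw [Finset.card_image_of_injective _ (hsm cf).injective, Finset.card_range]
    have he2c : e2.card = (b.map Prod.fst).sum := by
      rw [Finset.card_image_of_injective _ (hsm _).injective, he']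
    have hf2c : f2.card = (b.map Prod.fst).sum := by
      rw [Finset.card_image_of_injective _ (hsm _).injective, hf']
    have hce : ce ≤ a := by simp only [ce]; split_ifs <;> omega
    have hcf : cf ≤ a := by simp only [cf]; split_ifs <;> omega
    have he1m : ∀ x, x ∈ e1 ↔ ce ≤ x ∧ x < a + ce := by
      intro x
      simp only [e1, Finset.mem_image, Finset.mem_range]
      constructor
      · rintro ⟨y, hy, rfl⟩; omega
      · intro h; exact ⟨x - ce, by omega, by omega⟩
    have hf1m : ∀ x, x ∈ f1 ↔ cf ≤ x ∧ x < a + cf := by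
      intro x
      simp only [f1, Finset.mem_image, Finset.mem_range]
      constructor
      · rintro ⟨y, hy, rfl⟩; omega
      · intro h; exact ⟨x - cf, by omega, by omega⟩
    have he2m : ∀ x ∈ e2, 2 * a ≤ x := by
      intro x hx
      obtain ⟨y, _, rfl⟩ := Finset.mem_image.1 hx
      simp
    have hf2m : ∀ x ∈ f2, 2 * a ≤ x := by
      intro x hx
      obtain ⟨y, _, rfl⟩ := Finset.mem_image.1 hx
      simp
    have hlt : ∀ x ∈ e1 ∪ f1, ∀ y ∈ e2 ∪ f2, x < y := by
      intro x hx y hy
      have h1 : x < 2 * a := by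
        rcases Finset.mem_union.1 hx with h | h
        · have := (he1m x).1 h; omega
        · have := (hf1m x).1 h; omega
      have h2 : 2 * a ≤ y := by
        rcases Finset.mem_union.1 hy with h | h
        · exact he2m y h
        · exact hf2m y h
      omega
    have hlte : ∀ x ∈ e1, ∀ y ∈ e2, x < y := fun x hx y hy =>
      hlt x (Finset.mem_union_left _ hx) y (Finset.mem_union_left _ hy)
    have hltf : ∀ x ∈ f1, ∀ y ∈ f2, x < y := fun x hx y hy =>
      hlt x (Finset.mem_union_right _ hx) y (Finset.mem_union_right _ hy)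
    have hdisj1 : Disjoint e1 f1 := by
      rw [Finset.disjoint_left]
      intro x h1 h2
      have h3 := (he1m x).1 h1
      have h4 := (hf1m x).1 h2
      cases s <;> simp [ce, cf] at h3 h4 <;> omega
    have hdisj2 : Disjoint e2 f2 := by
      rw [Finset.disjoint_left]
      intro x h1 h2
      obtain ⟨y, hy, rfl⟩ := Finset.mem_image.1 h1
      obtain ⟨z, hz, hzy⟩ := Finset.mem_image.1 h2
      have : z = y := by simpa using hzy
      subst this
      exact Finset.disjoint_left.1 hd' hy hz
    refine ⟨e1 ∪ e2, f1 ∪ f2, ?_, ?_, ?_, ?_, ?_⟩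
    · rw [Finset.card_union_of_disjoint, he1c, he2c]
      · simp
      · rw [Finset.disjoint_left]
        intro x h1 h2
        exact absurd (hlte x h1 x h2) (lt_irrefl _)
    · rw [Finset.card_union_of_disjoint, hf1c, hf2c]
      · simp
      · rw [Finset.disjoint_left]
        intro x h1 h2
        exact absurd (hltf x h1 x h2) (lt_irrefl _)
    · rw [Finset.disjoint_left]
      intro x h1 h2
      rcases Finset.mem_union.1 h1 with h1 | h1 <;> rcases Finset.mem_union.1 h2 with h2 | h2
      · exact Finset.disjoint_left.1 hdisj1 h1 h2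
      · exact absurd (hlt x (Finset.mem_union_left _ h1) x (Finset.mem_union_right _ h2)) (lt_irrefl _)
      · exact absurd (hlt x (Finset.mem_union_right _ h2) x (Finset.mem_union_left _ h1)) (lt_irrefl _)
      · exact Finset.disjoint_left.1 hdisj2 h1 h2
    · rw [pat_union _ _ _ _ hlt]
      have h2 : pat e2 f2 = word b := by
        rw [← hp']
        exact pat_image _ e' f' ((hsm _).strictMonoOn _)
      rw [h2]
      simp only [word]
      congr 1
      cases s with
      | true =>
        rw [pat_lt e1 f1, he1c, hf1c]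
        · simp
        · intro x hx y hy
          have h3 := (he1m x).1 hx
          have h4 := (hf1m y).1 hy
          simp [ce, cf] at h3 h4
          omega
      | false =>
        rw [pat_gt e1 f1, he1c, hf1c]
        · simp
        · intro x hx y hy
          have h3 := (hf1m x).1 hx
          have h4 := (he1m y).1 hy
          simp [ce, cf] at h3 h4
          omega
    · intro i hi j hj
      have hi' : i < a + (b.map Prod.fst).sum := by simpa using hi
      have hj' : j < a + (b.map Prod.fst).sum := by simpa using hj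
      have helL : ∀ i < a, el (e1 ∪ e2) i ∈ e1 := by
        intro i hi
        rw [el_union_left _ _ hlte i (by omega)]
        exact el_mem _ _ (by omega)
      have helR : ∀ i, a ≤ i → i < a + (b.map Prod.fst).sum →
          el (e1 ∪ e2) i = el e' (i - a) + 2 * a := by
        intro i hi hi2
        rw [el_union_right _ _ hlte i (by omega), he1c]
        exact el_image _ e' ((hsm _).strictMonoOn _) _ (by omega)
      have hflL : ∀ i < a, el (f1 ∪ f2) i ∈ f1 := by
        intro i hi
        rw [el_union_left _ _ hltf i (by omega)]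
        exact el_mem _ _ (by omega)
      have hflR : ∀ i, a ≤ i → i < a + (b.map Prod.fst).sum →
          el (f1 ∪ f2) i = el f' (i - a) + 2 * a := by
        intro i hi hi2
        rw [el_union_right _ _ hltf i (by omega), hf1c]
        exact el_image _ f' ((hsm _).strictMonoOn _) _ (by omega)
      simp only [List.map_cons, bi]
      by_cases hia : i < a
      · by_cases hja : j < a
        · rw [if_pos hia, if_pos hja]
          have h1 := (he1m _).1 (helL i hia)
          have h2 := (hf1m _).1 (hflL j hja)
          cases s with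
          | true =>
            simp only [ce, cf, if_true] at h1 h2
            constructor
            · intro _; right; simp
            · intro _; omega
          | false =>
            simp [ce, cf] at h1 h2
            constructor
            · intro h; omega
            · intro h
              simp at h
        · rw [if_pos hia, if_neg hja]
          have h1 := (he1m _).1 (helL i hia)
          have h2 := hflR j (by omega) hj'
          constructor
          · intro _; left; omega
          · intro _; omega
      · by_cases hja : j < a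
        · rw [if_neg hia, if_pos hja]
          have h1 := helR i (by omega) hi'
          have h2 := (hf1m _).1 (hflL j hja)
          constructor
          · intro h; omega
          · intro h
            rcases h with h | ⟨h, _⟩ <;> omega
        · rw [if_neg hia, if_neg hja, helR i (by omega) hi', hflR j (by omega) hj']
          rw [Nat.add_lt_add_iff_right, ht' (i - a) (by omega) (j - a) (by omega)]
          simp

theorem pat_word_iff (r : ℕ) (b : List (ℕ × Bool)) (hb : (b.map Prod.fst).sum = r)
    (e f : Finset ℕ) (he : e.card = r) (hf : f.card = r) (hd : Disjoint e f) :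
    pat e f = word b ↔ ∀ i < r, ∀ j < r, (el e i < el f j ↔
      (bi (b.map Prod.fst) i < bi (b.map Prod.fst) j ∨
        (bi (b.map Prod.fst) i = bi (b.map Prod.fst) j ∧
          (b.map Prod.snd).getD (bi (b.map Prod.fst) i) false = true))) := by
  obtain ⟨e0, f0, he0, hf0, hd0, hp0, ht0⟩ := exists_word b
  rw [hb] at he0 hf0 ht0
  rw [← hp0, pat_eq_iff r e f e0 f0 he hf he0 hf0 hd hd0]
  constructor
  · intro h i hi j hj
    rw [h i hi j hj, ht0 i hi j hj]
  · intro h i hi j hj
    rw [h i hi j hj, ht0 i hi j hj]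

end Pool.Agent.Work.MP_7d1693_pr
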