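import Pool.Agent.Work.MP_7d1693_pr.TRI

namespace Pool.Agent.Work.MP_7d1693_pr

open Finset

/-! ### SAME -/

theorem bi_cons_lt (a : ℕ) (l : List ℕ) (i : ℕ) (h : i < a) : bi (a :: l) i = 0 := by
  simp [bi, h]

theorem bi_cons_add (a : ℕ) (l : List ℕ) (i : ℕ) : bi (a :: l) (a + i) = bi l i + 1 := by
  simp [bi]

theorem bi_mono (l : List ℕ) : ∀ i j : ℕ, i ≤ j → bi l i ≤ bi l j := by
  induction l with
  | nil => intro i j _; simp [bi]
  | cons a l ih =>
    intro i j hij
    by_cases hj : j < a
    · rw [bi_cons_lt a l j hj, bi_cons_lt a l i (lt_of_le_of_lt hij hj)]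
    · by_cases hi : i < a
      · rw [bi_cons_lt a l i hi]; exact Nat.zero_le _
      · obtain ⟨i', rfl⟩ := Nat.exists_eq_add_of_le (not_lt.1 hi)
        obtain ⟨j', rfl⟩ := Nat.exists_eq_add_of_le (not_lt.1 hj)
        rw [bi_cons_add, bi_cons_add]
        exact Nat.succ_le_succ (ih _ _ (by omega))

theorem bi_ext (l : List ℕ) : ∀ l' : List ℕ, (∀ a ∈ l, 0 < a) → (∀ a ∈ l', 0 < a) →
    l.sum = l'.sum → (∀ i j, i < j → j < l.sum → (bi l i = bi l j ↔ bi l' i = bi l' j)) →
    l = l' := by
  induction l with
  | nil =>
    intro l' _ h' hs _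
    cases l' with
    | nil => rfl
    | cons a l' =>
      have := h' a (by simp)
      simp at hs
      omega
  | cons a l ih =>
    intro l' h h' hs hb
    cases l' with
    | nil =>
      have := h a (by simp)
      simp at hs
      omega
    | cons a' l' =>
      have ha := h a (by simp)
      have ha' := h' a' (by simp)
      simp only [List.sum_cons] at hs hb
      have haa : a = a' := by
        rcases lt_trichotomy a a' with hlt | heq | hgt
        · exfalso
          have h1 := hb (a - 1) a (by omega) (by omega)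
          rw [bi_cons_lt a l _ (by omega), bi_cons_lt a' l' (a - 1) (by omega),
            bi_cons_lt a' l' a hlt] at h1
          have h2 := bi_cons_add a l 0
          rw [Nat.add_zero] at h2
          rw [h2] at h1
          simp at h1
        · exact heq
        · exfalso
          have h1 := hb (a' - 1) a' (by omega) (by omega)
          rw [bi_cons_lt a l _ (by omega), bi_cons_lt a' l' (a' - 1) (by omega),
            bi_cons_lt a l a' hgt] at h1
          have h2 := bi_cons_add a' l' 0
          rw [Nat.add_zero] at h2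
          rw [h2] at h1
          simp at h1
      subst haa
      congr 1
      refine ih l' (fun x hx => h x (by simp [hx])) (fun x hx => h' x (by simp [hx])) (by omega) ?_
      intro i j hij hj
      have h1 := hb (a + i) (a + j) (by omega) (by omega)
      rw [bi_cons_add, bi_cons_add, bi_cons_add, bi_cons_add] at h1
      simpa using h1

theorem el_ne_of_disjoint {r : ℕ} {e f : Finset ℕ} (he : e.card = r) (hf : f.card = r)
    (hd : Disjoint e f) {i j : ℕ} (hi : i < r) (hj : j < r) : el e i ≠ el f j := by
  intro h
  exact Finset.disjoint_left.1 hd (el_mem e i (he ▸ hi)) (h ▸ el_mem f j (hf ▸ hj))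

theorem same_aux (r : ℕ) (b b' : List (ℕ × Bool)) (hb : (b.map Prod.fst).sum = r)
    (hb' : (b'.map Prod.fst).sum = r) (x y z z' : Finset ℕ) (hx : x.card = r) (hy : y.card = r)
    (hz : z.card = r) (hz' : z'.card = r) (dxy : Disjoint x y) (dzz : Disjoint z z')
    (dxz' : Disjoint x z') (dyz : Disjoint y z)
    (h1 : pat x y = word b) (h2 : pat z z' = word b)
    (h4 : pat x z' = word b') (h5 : pat y z = word b') (i j : ℕ) (hij : i < j) (hj : j < r)
    (h : bi (b.map Prod.fst) i = bi (b.map Prod.fst) j) :
    bi (b'.map Prod.fst) i = bi (b'.map Prod.fst) j := by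
  by_contra hne
  have hlt : bi (b'.map Prod.fst) i < bi (b'.map Prod.fst) j :=
    lt_of_le_of_ne (bi_mono _ _ _ hij.le) hne
  have hi : i < r := hij.trans hj
  have k1 := (pat_word_iff r b hb x y hx hy dxy).1 h1
  have k2 := (pat_word_iff r b hb z z' hz hz' dzz).1 h2
  have k4 := (pat_word_iff r b' hb' x z' hx hz' dxz').1 h4
  have k5 := (pat_word_iff r b' hb' y z hy hz dyz).1 h5
  by_cases hs : (b.map Prod.snd).getD (bi (b.map Prod.fst) i) false = true
  · have a1 : el x j < el y i := (k1 j hj i hi).2 (Or.inr ⟨h.symm, by rw [← h]; exact hs⟩)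
    have a2 : el z j < el z' i := (k2 j hj i hi).2 (Or.inr ⟨h.symm, by rw [← h]; exact hs⟩)
    have a3 : ¬ el x j < el z' i := fun hc => by
      rcases (k4 j hj i hi).1 hc with hc | hc
      · omega
      · omega
    have a4 : el y i < el z j := (k5 i hi j hj).2 (Or.inl hlt)
    omega
  · have a1 : ¬ el x i < el y j := fun hc => by
      rcases (k1 i hi j hj).1 hc with hc | hc
      · omega
      · exact hs hc.2
    have a1' : el x i ≠ el y j := el_ne_of_disjoint hx hy dxy hi hj
    have a2 : ¬ el z i < el z' j := fun hc => by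
      rcases (k2 i hi j hj).1 hc with hc | hc
      · omega
      · exact hs hc.2
    have a2' : el z i ≠ el z' j := el_ne_of_disjoint hz hz' dzz hi hj
    have a3 : el x i < el z' j := (k4 i hi j hj).2 (Or.inl hlt)
    have a4 : ¬ el y j < el z i := fun hc => by
      rcases (k5 j hj i hi).1 hc with hc | hc
      · omega
      · omega
    omega

theorem same_type (r : ℕ) (hr : 1 ≤ r) (E : ℕ → ℕ → Finset ℕ)
    (hc : ∀ u < 4, ∀ v < 4, (E u v).card = r)
    (hd : ∀ u < 4, ∀ v < 4, ∀ u' < 4, ∀ v' < 4, (u ≠ u' ∨ v ≠ v') → Disjoint (E u v) (E u' v'))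
    (hm : ∀ u < 4, ∀ v < 4, ∀ u' < 4, ∀ v' < 4, u < u' → mn (E u v) < mn (E u' v'))
    (wp wm : List Bool)
    (hp : ∀ u < 4, ∀ v < 4, ∀ u' < 4, ∀ v' < 4, u < u' → v < v' →
      pat (E u v) (E u' v') = wp)
    (hn : ∀ u < 4, ∀ v < 4, ∀ u' < 4, ∀ v' < 4, u < u' → v < v' →
      pat (E u v') (E u' v) = wm) :
    ∃ lam : List ℕ, lam.sum = r ∧ HasType wp lam ∧ HasType wm lam := by
  have c := fun u v (hu : u < 4) (hv : v < 4) => hc u hu v hv
  have d := fun u v u' v' (hu : u < 4) (hv : v < 4) (hu' : u' < 4) (hv' : v' < 4)
    (h : u ≠ u' ∨ v ≠ v') => hd u hu v hv u' hu' v' hv' h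
  have m := fun u v u' v' (hu : u < 4) (hv : v < 4) (hu' : u' < 4) (hv' : v' < 4)
    (h : u < u') => hm u hu v hv u' hu' v' hv' h
  have p := fun u v u' v' (hu : u < 4) (hv : v < 4) (hu' : u' < 4) (hv' : v' < 4)
    (h : u < u') (h' : v < v') => hp u hu v hv u' hu' v' hv' h h'
  have n := fun u v u' v' (hu : u < 4) (hv : v < 4) (hu' : u' < 4) (hv' : v' < 4)
    (h : u < u') (h' : v < v') => hn u hu v hv u' hu' v' hv' h h'
  obtain ⟨lam, hlam, hT⟩ := tri r hr wp (E 0 0) (E 1 1) (E 2 2) (c _ _ (by omega) (by omega))
    (c _ _ (by omega) (by omega)) (c _ _ (by omega) (by omega))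
    (d _ _ _ _ (by omega) (by omega) (by omega) (by omega) (by omega))
    (d _ _ _ _ (by omega) (by omega) (by omega) (by omega) (by omega))
    (d _ _ _ _ (by omega) (by omega) (by omega) (by omega) (by omega))
    (m _ _ _ _ (by omega) (by omega) (by omega) (by omega) (by omega))
    (m _ _ _ _ (by omega) (by omega) (by omega) (by omega) (by omega))
    (p _ _ _ _ (by omega) (by omega) (by omega) (by omega) (by omega) (by omega))
    (p _ _ _ _ (by omega) (by omega) (by omega) (by omega) (by omega) (by omega))
    (p _ _ _ _ (by omega) (by omega) (by omega) (by omega) (by omega) (by omega))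
  obtain ⟨mu, hmu, hT'⟩ := tri r hr wm (E 0 2) (E 1 1) (E 2 0) (c _ _ (by omega) (by omega))
    (c _ _ (by omega) (by omega)) (c _ _ (by omega) (by omega))
    (d _ _ _ _ (by omega) (by omega) (by omega) (by omega) (by omega))
    (d _ _ _ _ (by omega) (by omega) (by omega) (by omega) (by omega))
    (d _ _ _ _ (by omega) (by omega) (by omega) (by omega) (by omega))
    (m _ _ _ _ (by omega) (by omega) (by omega) (by omega) (by omega))
    (m _ _ _ _ (by omega) (by omega) (by omega) (by omega) (by omega))
    (n 0 1 1 2 (by omega) (by omega) (by omega) (by omega) (by omega) (by omega))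
    (n 1 0 2 1 (by omega) (by omega) (by omega) (by omega) (by omega) (by omega))
    (n 0 0 2 2 (by omega) (by omega) (by omega) (by omega) (by omega) (by omega))
  obtain ⟨b, hb1, hb2, hb3, hb4⟩ := id hT
  obtain ⟨b', hb1', hb2', hb3', hb4'⟩ := id hT'
  have hs : (b.map Prod.fst).sum = r := by rw [hb1, hlam]
  have hs' : (b'.map Prod.fst).sum = r := by rw [hb1', hmu]
  have hEq : lam = mu := by
    refine bi_ext lam mu ?_ ?_ (by rw [hlam, hmu]) ?_
    · intro a ha
      rw [← hb1] at ha
      obtain ⟨x, hx, rfl⟩ := List.mem_map.1 ha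
      exact hb2 x hx
    · intro a ha
      rw [← hb1'] at ha
      obtain ⟨x, hx, rfl⟩ := List.mem_map.1 ha
      exact hb2' x hx
    · intro i j hij hj
      rw [hlam] at hj
      constructor
      · intro h
        have := same_aux r b b' hs hs' (E 0 2) (E 1 3) (E 2 0) (E 3 1)
          (c _ _ (by omega) (by omega)) (c _ _ (by omega) (by omega))
          (c _ _ (by omega) (by omega)) (c _ _ (by omega) (by omega))
          (d _ _ _ _ (by omega) (by omega) (by omega) (by omega) (by omega))
          (d _ _ _ _ (by omega) (by omega) (by omega) (by omega) (by omega))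
          (d _ _ _ _ (by omega) (by omega) (by omega) (by omega) (by omega))
          (d _ _ _ _ (by omega) (by omega) (by omega) (by omega) (by omega))
          (by rw [← hb4]; exact p _ _ _ _ (by omega) (by omega) (by omega) (by omega) (by omega) (by omega))
          (by rw [← hb4]; exact p _ _ _ _ (by omega) (by omega) (by omega) (by omega) (by omega) (by omega))
          (by rw [← hb4']; exact n 0 1 3 2 (by omega) (by omega) (by omega) (by omega) (by omega) (by omega))
          (by rw [← hb4']; exact n 1 0 2 3 (by omega) (by omega) (by omega) (by omega) (by omega) (by omega))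
          i j hij hj (by rw [hb1]; exact h)
        rwa [hb1'] at this
      · intro h
        have := same_aux r b' b hs' hs (E 0 1) (E 1 0) (E 2 3) (E 3 2)
          (c _ _ (by omega) (by omega)) (c _ _ (by omega) (by omega))
          (c _ _ (by omega) (by omega)) (c _ _ (by omega) (by omega))
          (d _ _ _ _ (by omega) (by omega) (by omega) (by omega) (by omega))
          (d _ _ _ _ (by omega) (by omega) (by omega) (by omega) (by omega))
          (d _ _ _ _ (by omega) (by omega) (by omega) (by omega) (by omega))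
          (d _ _ _ _ (by omega) (by omega) (by omega) (by omega) (by omega))
          (by rw [← hb4']; exact n 0 0 1 1 (by omega) (by omega) (by omega) (by omega) (by omega) (by omega))
          (by rw [← hb4']; exact n 2 2 3 3 (by omega) (by omega) (by omega) (by omega) (by omega) (by omega))
          (by rw [← hb4]; exact p _ _ _ _ (by omega) (by omega) (by omega) (by omega) (by omega) (by omega))
          (by rw [← hb4]; exact p _ _ _ _ (by omega) (by omega) (by omega) (by omega) (by omega) (by omega))
          i j hij hj (by rw [hb1']; exact h)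
        rwa [hb1] at this
  refine ⟨lam, hlam, hT, ?_⟩
  rw [hEq]
  exact hT'

end Pool.Agent.Work.MP_7d1693_pr
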