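import Pool.Agent.Work.MP_7d1693_pr.Base

namespace Pool.Agent.Work.MP_7d1693_pr.Greedy

open Finset

/-! ### words -/

lemma gr_sort_union_lt (s t : Finset ℕ) (h : ∀ x ∈ s, ∀ y ∈ t, x < y) :
    (s ∪ t).sort (· ≤ ·) = s.sort (· ≤ ·) ++ t.sort (· ≤ ·) := by
  apply List.Perm.eq_of_pairwise (le := (· ≤ ·))
  · intro a b _ _ h1 h2; exact le_antisymm h1 h2
  · exact pairwise_sort _ _
  · rw [List.pairwise_append]
    refine ⟨pairwise_sort _ _, pairwise_sort _ _, ?_⟩
    intro a ha b hb
    rw [Finset.mem_sort] at ha hb
    exact (h a ha b hb).le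
  · have hd : Disjoint s t := by
      rw [Finset.disjoint_left]
      intro x hx hy
      exact absurd (h x hx x hy) (lt_irrefl _)
    rw [List.perm_ext_iff_of_nodup (sort_nodup _ _)]
    · intro a
      simp [Finset.mem_sort]
    · rw [List.nodup_append]
      refine ⟨sort_nodup _ _, sort_nodup _ _, ?_⟩
      intro a ha b hb
      rw [Finset.mem_sort] at ha hb
      exact (h a ha b hb).ne

lemma pat_append (p1 p2 q1 q2 : Finset ℕ) (h : ∀ x ∈ p1 ∪ q1, ∀ y ∈ p2 ∪ q2, x < y) :
    pat (p1 ∪ p2) (q1 ∪ q2) = pat p1 q1 ++ pat p2 q2 := by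
  unfold pat
  have e1 : p1 ∪ p2 ∪ (q1 ∪ q2) = (p1 ∪ q1) ∪ (p2 ∪ q2) := by
    ext x; simp only [mem_union]; tauto
  rw [e1, gr_sort_union_lt _ _ h, List.map_append]
  congr 1
  · apply List.map_congr_left
    intro v hv
    rw [Finset.mem_sort] at hv
    have : v ∉ p2 := by
      intro hv2
      exact absurd (h v hv v (mem_union_left _ hv2)) (lt_irrefl _)
    simp [this]
  · apply List.map_congr_left
    intro v hv
    rw [Finset.mem_sort] at hv
    have : v ∉ p1 := by
      intro hv2
      exact absurd (h v (mem_union_left _ hv2) v hv) (lt_irrefl _)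
    simp [this]

lemma gr_pat_empty_right (p : Finset ℕ) : pat p ∅ = List.replicate p.card true := by
  unfold pat
  rw [union_empty, List.eq_replicate_iff]
  refine ⟨by simp, ?_⟩
  intro b hb
  rw [List.mem_map] at hb
  obtain ⟨v, hv, rfl⟩ := hb
  rw [Finset.mem_sort] at hv
  simp [hv]

lemma gr_pat_empty_left (q : Finset ℕ) : pat ∅ q = List.replicate q.card false := by
  unfold pat
  rw [empty_union, List.eq_replicate_iff]
  refine ⟨by simp, ?_⟩
  intro b hb
  rw [List.mem_map] at hb
  obtain ⟨v, hv, rfl⟩ := hb
  simp

lemma gr_pat_lt (p q : Finset ℕ) (h : ∀ x ∈ p, ∀ y ∈ q, x < y) :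
    pat p q = List.replicate p.card true ++ List.replicate q.card false := by
  have := pat_append p ∅ ∅ q (by simpa using h)
  rw [union_empty, empty_union, gr_pat_empty_right, gr_pat_empty_left] at this
  exact this

lemma gr_pat_gt (p q : Finset ℕ) (h : ∀ x ∈ q, ∀ y ∈ p, x < y) :
    pat p q = List.replicate q.card false ++ List.replicate p.card true := by
  have := pat_append ∅ p q ∅ (by simpa using h)
  rw [union_empty, empty_union, gr_pat_empty_right, gr_pat_empty_left] at this
  exact this

/-! ### basic facts on `pr` -/

lemma pr_nonneg0 (r t : ℕ) (V : Finset ℕ) (E : Finset (Finset ℕ) → Prop) : 0 ≤ pr r t V E := by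
  classical
  induction t generalizing V E with
  | zero => unfold pr; split_ifs <;> norm_num
  | succ t ih =>
    unfold pr
    apply div_nonneg
    · exact Finset.sum_nonneg (fun S _ => ih _ _)
    · positivity

lemma pr_mono0 (r t : ℕ) (V : Finset ℕ) (E E' : Finset (Finset ℕ) → Prop)
    (h : ∀ M, E M → E' M) : pr r t V E ≤ pr r t V E' := by
  classical
  induction t generalizing V E E' with
  | zero =>
    unfold pr
    by_cases h1 : E ∅
    · rw [if_pos h1, if_pos (h _ h1)]
    · rw [if_neg h1]; split_ifs <;> norm_num
  | succ t ih =>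
    unfold pr
    apply div_le_div_of_nonneg_right _ (by positivity)
    exact Finset.sum_le_sum (fun S _ => ih _ _ _ (fun M hM => h _ hM))

lemma pr_le_one0 (r t : ℕ) (V : Finset ℕ) (E : Finset (Finset ℕ) → Prop) : pr r t V E ≤ 1 := by
  classical
  induction t generalizing V E with
  | zero => unfold pr; split_ifs <;> norm_num
  | succ t ih =>
    unfold pr
    apply div_le_one_of_le₀ _ (by positivity)
    calc _ ≤ ∑ S ∈ (V.erase (mn V)).powersetCard (r - 1), (1 : ℝ) :=
          Finset.sum_le_sum (fun S _ => ih _ _)
      _ = _ := by simp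

lemma pr_false (r t : ℕ) (V : Finset ℕ) (E : Finset (Finset ℕ) → Prop) (h : ∀ M, ¬ E M) :
    pr r t V E = 0 := by
  classical
  induction t generalizing V E with
  | zero => unfold pr; rw [if_neg (h _)]
  | succ t ih =>
    unfold pr
    rw [Finset.sum_eq_zero (fun S _ => ih _ _ (fun M => h _)), zero_div]

/-! ### windows -/

/-- number of elements of `V` in `[lo, hi)` -/
def cnt (V : Finset ℕ) (lo hi : ℕ) : ℕ := (V.filter (fun y => lo ≤ y ∧ y < hi)).card

lemma cnt_succ_le (V : Finset ℕ) (lo c : ℕ) : cnt V lo (c + 1) ≤ cnt V lo c + 1 := by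
  unfold cnt
  have : V.filter (fun y => lo ≤ y ∧ y < c + 1) ⊆
      insert c (V.filter (fun y => lo ≤ y ∧ y < c)) := by
    intro y hy
    simp only [mem_filter, mem_insert] at hy ⊢
    by_cases h : y = c
    · exact Or.inl h
    · right; exact ⟨hy.1, hy.2.1, by omega⟩
  exact (card_le_card this).trans (card_insert_le _ _)

lemma cnt_left_le (V : Finset ℕ) (c hi : ℕ) : cnt V c hi ≤ cnt V (c + 1) hi + 1 := by
  unfold cnt
  have : V.filter (fun y => c ≤ y ∧ y < hi) ⊆
      insert c (V.filter (fun y => c + 1 ≤ y ∧ y < hi)) := by
    intro y hy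
    simp only [mem_filter, mem_insert] at hy ⊢
    by_cases h : y = c
    · exact Or.inl h
    · right; exact ⟨hy.1, by omega, hy.2.2⟩
  exact (card_le_card this).trans (card_insert_le _ _)

lemma cnt_self (V : Finset ℕ) (c : ℕ) : cnt V c c = 0 := by
  unfold cnt
  rw [card_eq_zero, filter_eq_empty_iff]
  intro x _ h
  omega

lemma cnt_split (V : Finset ℕ) (lo c hi : ℕ) (h1 : lo ≤ c) (h2 : c ≤ hi) :
    cnt V lo hi = cnt V lo c + cnt V c hi := by
  unfold cnt
  rw [← card_union_of_disjoint]
  · congr 1
    ext y
    simp only [mem_filter, mem_union]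
    constructor
    · rintro ⟨h, h3, h4⟩
      rcases lt_or_ge y c with h5 | h5
      · exact Or.inl ⟨h, h3, h5⟩
      · exact Or.inr ⟨h, h5, h4⟩
    · rintro (⟨h, h3, h4⟩ | ⟨h, h3, h4⟩)
      · exact ⟨h, h3, by omega⟩
      · exact ⟨h, by omega, h4⟩
  · rw [disjoint_left]
    intro y hy hy2
    simp only [mem_filter] at hy hy2
    omega

lemma cut_right (V : Finset ℕ) (lo hi W : ℕ) (hle : lo ≤ hi) (h : W ≤ cnt V lo hi) :
    ∃ c, lo ≤ c ∧ c ≤ hi ∧ cnt V lo c = W := by
  induction hi, hle using Nat.le_induction with
  | base =>
    rw [cnt_self] at h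
    exact ⟨lo, le_rfl, le_rfl, by rw [cnt_self]; omega⟩
  | succ n hn ih =>
    rcases Nat.lt_or_ge W (cnt V lo (n + 1)) with h1 | h1
    · obtain ⟨c, h2, h3, h4⟩ := ih (by have := cnt_succ_le V lo n; omega)
      exact ⟨c, h2, by omega, h4⟩
    · exact ⟨n + 1, by omega, le_rfl, by omega⟩

lemma cut_left (V : Finset ℕ) (lo hi W : ℕ) (hle : lo ≤ hi) (h : W ≤ cnt V lo hi) :
    ∃ c, lo ≤ c ∧ c ≤ hi ∧ cnt V c hi = W := by
  obtain ⟨d, rfl⟩ := Nat.exists_eq_add_of_le hle
  induction d generalizing lo with
  | zero =>
    rw [Nat.add_zero, cnt_self] at h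
    exact ⟨lo, le_rfl, by omega, by rw [Nat.add_zero, cnt_self]; omega⟩
  | succ d ih =>
    rcases Nat.lt_or_ge W (cnt V lo (lo + (d + 1))) with h1 | h1
    · have e : lo + (d + 1) = (lo + 1) + d := by omega
      rw [e] at h1 h ⊢
      obtain ⟨c, h2, h3, h4⟩ := ih (lo + 1) (by omega)
        (by have := cnt_left_le V lo (lo + 1 + d); omega)
      exact ⟨c, by omega, h3, h4⟩
    · exact ⟨lo, le_rfl, by omega, by omega⟩

/-- consecutive regions, all above `c` -/
def Chn : ℕ → List (ℕ × Bool × ℕ × ℕ) → Prop
  | _, [] => True
  | c, (_, _, lo, hi) :: l => c ≤ lo ∧ lo ≤ hi ∧ Chn hi l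

/-- a set with `aᵢ` elements in the `i`-th region -/
def Fits : List (ℕ × Bool × ℕ × ℕ) → Finset ℕ → Prop
  | [], f => f = ∅
  | (a, _, lo, hi) :: l, f => ∃ f1 f2, f = f1 ∪ f2 ∧ (∀ x ∈ f1, lo ≤ x ∧ x < hi) ∧
      f1.card = a ∧ Fits l f2

/-- the blocks of a list of blocks with regions -/
def blks (B : List (ℕ × Bool × ℕ × ℕ)) : List (ℕ × Bool) := B.map (fun x => (x.1, x.2.1))

lemma fits_ge (B : List (ℕ × Bool × ℕ × ℕ)) (c : ℕ) (f : Finset ℕ) (hB : Chn c B)
    (hf : Fits B f) : ∀ x ∈ f, c ≤ x := by
  induction B generalizing c f with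
  | nil =>
    unfold Fits at hf
    subst hf
    simp
  | cons b l ih =>
    obtain ⟨a, s, lo, hi⟩ := b
    unfold Chn at hB
    unfold Fits at hf
    obtain ⟨f1, f2, rfl, h1, _, h3⟩ := hf
    intro x hx
    rw [mem_union] at hx
    rcases hx with hx | hx
    · exact hB.1.trans (h1 x hx).1
    · have := ih hi f2 hB.2.2 h3 x hx
      omega

lemma word_cons (a : ℕ) (s : Bool) (l : List (ℕ × Bool)) :
    word ((a, s) :: l) = (List.replicate a s ++ List.replicate a (!s)) ++ word l := rfl

/-- one step: windows inside the regions and new regions -/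
theorem step_exists (V : Finset ℕ) (W : ℕ) (B : List (ℕ × Bool × ℕ × ℕ)) (c : ℕ)
    (hB : Chn c B) (hV : ∀ x ∈ B, W ≤ cnt V x.2.2.1 x.2.2.2) :
    ∃ (B' : List (ℕ × Bool × ℕ × ℕ)) (G : Finset (Finset ℕ)),
      Chn c B' ∧ blks B' = blks B ∧
      (∀ A, (∀ x ∈ B, A ≤ cnt V x.2.2.1 x.2.2.2) →
        ∀ x ∈ B', A ≤ cnt V x.2.2.1 x.2.2.2 + W) ∧
      G.card = (B.map (fun x => W.choose x.1)).prod ∧
      (∀ S ∈ G, S ⊆ V ∧ S.card = (B.map Prod.fst).sum ∧ Fits B S ∧
        ∀ f, Fits B' f → pat S f = word (blks B)) ∧
      (∀ f, Fits B' f → Fits B f) := by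
  induction B generalizing c with
  | nil =>
    refine ⟨[], {∅}, hB, rfl, by simp, by simp, ?_, fun f hf => hf⟩
    intro S hS
    rw [mem_singleton] at hS
    subst hS
    refine ⟨by simp, by simp, rfl, ?_⟩
    intro f hf
    unfold Fits at hf
    subst hf
    rw [gr_pat_empty_left]
    rfl
  | cons b l ih =>
    obtain ⟨a, s, lo, hi⟩ := b
    unfold Chn at hB
    obtain ⟨h1, h2, h3⟩ := hB
    obtain ⟨B', G, g1, g2, g3, g4, g5, g6⟩ := ih hi h3 (fun x hx => hV x (List.mem_cons_of_mem _ hx))
    have hW := hV (a, s, lo, hi) List.mem_cons_self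
    simp only at hW
    -- the new region and the window
    obtain ⟨lo', hi', X, hX1, hX2, hX3, hlo, hle, hhi, hcnt, hord⟩ :
        ∃ (lo' hi' : ℕ) (X : Finset ℕ), X ⊆ V ∧ X.card = W ∧ (∀ x ∈ X, lo ≤ x ∧ x < hi) ∧
          lo ≤ lo' ∧ lo' ≤ hi' ∧ hi' ≤ hi ∧ cnt V lo hi ≤ cnt V lo' hi' + W ∧
          (∀ x ∈ X, ∀ y, lo' ≤ y → y < hi' → if s = true then x < y else y < x) := by
      cases s with
      | true =>
        obtain ⟨d, e1, e2, e3⟩ := cut_right V lo hi W h2 hW
        refine ⟨d, hi, V.filter (fun y => lo ≤ y ∧ y < d), filter_subset _ _, e3, ?_, e1, e2, le_rfl,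
          ?_, ?_⟩
        · intro x hx
          rw [mem_filter] at hx
          exact ⟨hx.2.1, by omega⟩
        · rw [cnt_split V lo d hi e1 e2]; omega
        · intro x hx y hy1 hy2
          rw [mem_filter] at hx
          simp only [if_true]
          omega
      | false =>
        obtain ⟨d, e1, e2, e3⟩ := cut_left V lo hi W h2 hW
        refine ⟨lo, d, V.filter (fun y => d ≤ y ∧ y < hi), filter_subset _ _, e3, ?_, le_rfl, e1, e2,
          ?_, ?_⟩
        · intro x hx
          rw [mem_filter] at hx
          exact ⟨by omega, hx.2.2⟩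
        · rw [cnt_split V lo d hi e1 e2]; omega
        · intro x hx y hy1 hy2
          rw [mem_filter] at hx
          simp only [Bool.false_eq_true, if_false]
          omega
    have hGge : ∀ S ∈ G, ∀ x ∈ S, hi ≤ x := fun S hS x hx => fits_ge l hi S h3 (g5 S hS).2.2.1 x hx
    refine ⟨(a, s, lo', hi') :: B', ((X.powersetCard a) ×ˢ G).image (fun p => p.1 ∪ p.2),
      ?_, ?_, ?_, ?_, ?_, ?_⟩
    · unfold Chn
      refine ⟨by omega, hle, ?_⟩
      -- monotonicity of `Chn`
      clear g2 g3 g5 g6 hGge
      cases B' with
      | nil => exact trivial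
      | cons b' l' =>
        obtain ⟨a', s', lo'', hi''⟩ := b'
        unfold Chn at g1 ⊢
        exact ⟨by omega, g1.2⟩
    · unfold blks at g2 ⊢
      simp only [List.map_cons, g2]
    · intro A hA x hx
      rw [List.mem_cons] at hx
      rcases hx with rfl | hx
      · have := hA (a, s, lo, hi) List.mem_cons_self
        simp only at this ⊢
        omega
      · exact g3 A (fun x hx => hA x (List.mem_cons_of_mem _ hx)) x hx
    · rw [card_image_of_injOn, card_product, card_powersetCard, hX2, g4]
      · simp
      · rintro ⟨A, S⟩ hp ⟨A', S'⟩ hp' heq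
        simp only [coe_product, Set.mem_prod, mem_coe, mem_powersetCard] at hp hp'
        simp only at heq
        have k1 : ∀ x ∈ A, x < hi := fun x hx => (hX3 x (hp.1.1 hx)).2
        have k2 : ∀ x ∈ A', x < hi := fun x hx => (hX3 x (hp'.1.1 hx)).2
        have k3 := hGge S hp.2
        have k4 := hGge S' hp'.2
        rw [Prod.mk.injEq]
        constructor
        · ext x
          constructor
          · intro hx
            have : x ∈ A' ∪ S' := by rw [← heq]; exact mem_union_left _ hx
            rw [mem_union] at this
            rcases this with h | h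
            · exact h
            · have := k4 x h; have := k1 x hx; omega
          · intro hx
            have : x ∈ A ∪ S := by rw [heq]; exact mem_union_left _ hx
            rw [mem_union] at this
            rcases this with h | h
            · exact h
            · have := k3 x h; have := k2 x hx; omega
        · ext x
          constructor
          · intro hx
            have : x ∈ A' ∪ S' := by rw [← heq]; exact mem_union_right _ hx
            rw [mem_union] at this
            rcases this with h | h
            · have := k2 x h; have := k3 x hx; omega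
            · exact h
          · intro hx
            have : x ∈ A ∪ S := by rw [heq]; exact mem_union_right _ hx
            rw [mem_union] at this
            rcases this with h | h
            · have := k1 x h; have := k4 x hx; omega
            · exact h
    · intro S hS
      rw [mem_image] at hS
      obtain ⟨⟨A, T⟩, hp, rfl⟩ := hS
      rw [mem_product, mem_powersetCard] at hp
      obtain ⟨⟨hA1, hA2⟩, hT⟩ := hp
      obtain ⟨k1, k2, k3, k4⟩ := g5 T hT
      simp only
      have hdis : Disjoint A T := by
        rw [disjoint_left]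
        intro x hx hx2
        have := (hX3 x (hA1 hx)).2
        have := hGge T hT x hx2
        omega
      refine ⟨union_subset (hA1.trans hX1) k1, ?_, ?_, ?_⟩
      · rw [card_union_of_disjoint hdis, hA2, k2]
        simp
      · exact ⟨A, T, rfl, fun x hx => hX3 x (hA1 hx), hA2, k3⟩
      · intro f hf
        unfold Fits at hf
        obtain ⟨f1, f2, rfl, m1, m2, m3⟩ := hf
        have m4 : ∀ x ∈ f2, hi ≤ x := fits_ge B' hi f2 g1 m3
        have hpre := pat_append A T f1 f2 (by
          intro x hx y hy
          rw [mem_union] at hx hy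
          have e1 : x < hi := by
            rcases hx with hx | hx
            · exact (hX3 x (hA1 hx)).2
            · have := (m1 x hx).2; omega
          have e2 : hi ≤ y := by
            rcases hy with hy | hy
            · exact hGge T hT y hy
            · exact m4 y hy
          omega)
        rw [hpre, k4 f2 m3]
        have e3 : blks ((a, s, lo, hi) :: l) = (a, s) :: blks l := rfl
        rw [e3, word_cons]
        congr 1
        cases s with
        | true =>
          rw [gr_pat_lt A f1 (fun x hx y hy => by
            have := hord x (hA1 hx) y (m1 y hy).1 (m1 y hy).2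
            simpa using this), hA2, m2]
          rfl
        | false =>
          rw [gr_pat_gt A f1 (fun y hy x hx => by
            have := hord x (hA1 hx) y (m1 y hy).1 (m1 y hy).2
            simpa using this), hA2, m2]
          rfl
    · intro f hf
      unfold Fits at hf ⊢
      obtain ⟨f1, f2, e1, m1, m2, m3⟩ := hf
      refine ⟨f1, f2, e1, fun x hx => ?_, m2, g6 f2 m3⟩
      have := m1 x hx
      omega

/-! ### the recursion -/

/-- clique of `m` edges compatible with the current state -/
def GoodK (L1 a : ℕ) (B : List (ℕ × Bool × ℕ × ℕ)) (bd m : ℕ) (K : Finset (Finset ℕ)) : Prop :=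
  K.card = m ∧ IsClique {word ((a, true) :: blks B)} K ∧
  ∀ e ∈ K, ∃ e0 e1, e = e0 ∪ e1 ∧ (∀ x ∈ e0, bd ≤ x ∧ x < L1) ∧ e0.card = a ∧ Fits B e1

lemma cnt_sdiff (V T : Finset ℕ) (lo hi : ℕ) : cnt V lo hi ≤ cnt (V \ T) lo hi + T.card := by
  unfold cnt
  have : V.filter (fun y => lo ≤ y ∧ y < hi) ⊆
      (V \ T).filter (fun y => lo ≤ y ∧ y < hi) ∪ T := by
    intro y hy
    simp only [mem_filter, mem_union, mem_sdiff] at hy ⊢
    tauto
  exact (card_le_card this).trans (card_union_le _ _)

lemma gr_mn_mem (V : Finset ℕ) (h : V.Nonempty) : mn V ∈ V := by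
  have := Nat.sInf_mem (s := (V : Set ℕ)) (by simpa using h)
  exact_mod_cast this

lemma gr_mn_le (V : Finset ℕ) (x : ℕ) (h : x ∈ V) : mn V ≤ x :=
  Nat.sInf_le (by exact_mod_cast h)

theorem greedy_main (r a : ℕ) (ha : 0 < a) (w W N0 L1 : ℕ) (q ρ : ℝ) (bl : List (ℕ × Bool))
    (hs : a + (bl.map Prod.fst).sum = r) (hρ : ρ = 1 - q / 2) (hρ0 : 0 < ρ) (hρ1 : ρ ≤ 1)
    (hq : q * (((N0 - 1).choose (r - 1) : ℕ) : ℝ) ≤
      ((w.choose (a - 1) * (bl.map (fun x => W.choose x.1)).prod : ℕ) : ℝ)) (hq0 : 0 ≤ q)
    (s : ℕ) :
    ∀ (V : Finset ℕ) (m bd : ℕ) (B : List (ℕ × Bool × ℕ × ℕ)), V.card ≤ N0 → Chn L1 B →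
      blks B = bl → r * s + w + 1 ≤ cnt V 0 L1 →
      (∀ x ∈ B, W * m + r * s ≤ cnt V x.2.2.1 x.2.2.2) →
      pr r s V (fun M => ¬ ∃ K ⊆ M, GoodK L1 a B bd m K) ≤
        2 ^ m * ρ ^ ((s : ℤ) - (cnt V 0 bd : ℤ) - (w : ℤ) * m) := by
  induction s with
  | zero =>
    intro V m bd B _ _ _ _ _
    rcases Nat.eq_zero_or_pos m with rfl | hm
    · rw [pr_false]
      · positivity
      · intro M hM
        apply hM
        refine ⟨∅, empty_subset _, by simp, ?_, by simp⟩
        intro e he
        simp at he
    · refine (pr_le_one0 _ _ _ _).trans ?_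
      have h1 : (1 : ℝ) ≤ 2 ^ m := one_le_pow₀ (by norm_num)
      have h2 : (1 : ℝ) ≤ ρ ^ (((0 : ℕ) : ℤ) - (cnt V 0 bd : ℤ) - (w : ℤ) * m) := by
        have : ((0 : ℕ) : ℤ) - (cnt V 0 bd : ℤ) - (w : ℤ) * m = -((cnt V 0 bd + w * m : ℕ) : ℤ) := by
          push_cast; ring
        rw [this, zpow_neg, zpow_natCast]
        apply (one_le_inv₀ (by positivity)).2
        exact pow_le_one₀ hρ0.le hρ1
      nlinarith
  | succ s ih =>
    intro V m bd B hN hB hbl hav hreg
    rcases Nat.eq_zero_or_pos m with rfl | hm
    · rw [pr_false]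
      · positivity
      · intro M hM
        apply hM
        refine ⟨∅, empty_subset _, by simp, ?_, by simp⟩
        intro e he
        simp at he
    have hVne : V.Nonempty := by
      rw [nonempty_iff_ne_empty]
      rintro rfl
      simp [cnt] at hav
    have hr : 0 < r := by omega
    set v := mn V with hv
    have hvV : v ∈ V := gr_mn_mem V hVne
    have hvle : ∀ x ∈ V, v ≤ x := fun x hx => gr_mn_le V x hx
    set T := (V.erase v).powersetCard (r - 1) with hT
    have hVcard : r ≤ V.card := by
      have : cnt V 0 L1 ≤ V.card := card_le_card (filter_subset _ _)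
      have : r * (s + 1) = r * s + r := by ring
      omega
    have hTcard : T.card = (V.card - 1).choose (r - 1) := by
      rw [hT, card_powersetCard, card_erase_of_mem hvV]
    have hTpos : 0 < T.card := by
      rw [hTcard]
      exact Nat.choose_pos (by omega)
    have hTpos' : (0 : ℝ) < (T.card : ℝ) := by exact_mod_cast hTpos
    have hScard : ∀ S ∈ T, (insert v S).card = r := by
      intro S hS
      rw [hT, mem_powersetCard] at hS
      rw [card_insert_of_notMem, hS.2]
      · omega
      · intro h
        exact absurd (hS.1 h) (by simp)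
    have hcnt : ∀ S ∈ T, ∀ lo hi, cnt V lo hi ≤ cnt (V \ insert v S) lo hi + r := by
      intro S hS lo hi
      have := cnt_sdiff V (insert v S) lo hi
      rw [hScard S hS] at this
      exact this
    have hrs : r * (s + 1) = r * s + r := by ring
    have hpow : ∀ z z' : ℤ, z' ≤ z → ρ ^ z ≤ ρ ^ z' := by
      intro z z' h
      exact zpow_le_zpow_right_of_le_one₀ hρ0 hρ1 h
    -- the bound for a branch without progress
    have hfail : ∀ S ∈ T, pr r s (V \ insert v S)
        (fun M => ¬ ∃ K ⊆ insert (insert v S) M, GoodK L1 a B bd m K) ≤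
        2 ^ m * ρ ^ ((s : ℤ) - (cnt (V \ insert v S) 0 bd : ℤ) - (w : ℤ) * m) := by
      intro S hS
      refine le_trans (pr_mono0 _ _ _ _ (fun M => ¬ ∃ K ⊆ M, GoodK L1 a B bd m K) ?_)
        (ih (V \ insert v S) m bd B ?_ hB hbl ?_ ?_)
      · intro M hM hK
        apply hM
        obtain ⟨K, hK1, hK2⟩ := hK
        exact ⟨K, hK1.trans (subset_insert _ _), hK2⟩
      · exact (card_le_card sdiff_subset).trans hN
      · have := hcnt S hS 0 L1
        omega
      · intro x hx
        have h1 := hcnt S hS x.2.2.1 x.2.2.2
        have h2 := hreg x hx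
        omega
    rcases lt_or_ge v bd with hvb | hvb
    · -- skipping step
      unfold pr
      rw [← hv, ← hT, div_le_iff₀ hTpos']
      have : ∀ S ∈ T, pr r s (V \ insert v S)
          (fun M => ¬ ∃ K ⊆ insert (insert v S) M, GoodK L1 a B bd m K) ≤
          2 ^ m * ρ ^ (((s + 1 : ℕ) : ℤ) - (cnt V 0 bd : ℤ) - (w : ℤ) * m) := by
        intro S hS
        refine (hfail S hS).trans ?_
        apply mul_le_mul_of_nonneg_left _ (by positivity)
        apply hpow
        have : cnt (V \ insert v S) 0 bd + 1 ≤ cnt V 0 bd := by
          unfold cnt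
          have h1 : (V \ insert v S).filter (fun y => 0 ≤ y ∧ y < bd) ⊆
              (V.filter (fun y => 0 ≤ y ∧ y < bd)).erase v := by
            intro y hy
            simp only [mem_filter, mem_sdiff, mem_insert, mem_erase] at hy ⊢
            tauto
          have h2 : v ∈ V.filter (fun y => 0 ≤ y ∧ y < bd) := by
            simp [hvV, hvb]
          have h3 := card_le_card h1
          rw [card_erase_of_mem h2] at h3
          have h4 := card_pos.2 ⟨v, h2⟩
          omega
        push_cast
        have h5 : ((cnt (V \ insert v S) 0 bd : ℕ) : ℤ) + 1 ≤ (cnt V 0 bd : ℤ) := by exact_mod_cast this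
        linarith
      calc _ ≤ ∑ S ∈ T, (2 ^ m * ρ ^ (((s + 1 : ℕ) : ℤ) - (cnt V 0 bd : ℤ) - (w : ℤ) * m)) :=
            sum_le_sum this
        _ = _ := by rw [sum_const, nsmul_eq_mul]; ring
    · -- a trial
      have hcnt0 : ∀ U : Finset ℕ, U ⊆ V → cnt U 0 bd = 0 := by
        intro U hU
        unfold cnt
        rw [card_eq_zero, filter_eq_empty_iff]
        intro x hx h
        have := hvle x (hU hx)
        omega
      have hvL : v < L1 := by
        by_contra h
        have : cnt V 0 L1 = 0 := by
          unfold cnt
          rw [card_eq_zero, filter_eq_empty_iff]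
          intro x hx h'
          have := hvle x hx
          omega
        omega
      -- windows
      obtain ⟨B', G, g1, g2, g3, g4, g5, g6⟩ := step_exists V W B L1 hB (fun x hx => by
        have := hreg x hx
        have h2 : W ≤ W * m := Nat.le_mul_of_pos_right _ hm
        omega)
      obtain ⟨c0, c1, c2, c3⟩ := cut_right (V.erase v) 0 L1 w (Nat.zero_le _) (by
        have h1 : cnt V 0 L1 ≤ cnt (V.erase v) 0 L1 + 1 := by
          have := cnt_sdiff V {v} 0 L1
          rw [sdiff_singleton_eq_erase] at this
          simpa using this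
        omega)
      set W0 := (V.erase v).filter (fun y => 0 ≤ y ∧ y < c0) with hW0
      have hW0card : W0.card = w := c3
      have hW0V : W0 ⊆ V.erase v := filter_subset _ _
      have hW0lt : ∀ x ∈ W0, x < c0 := fun x hx => by
        rw [hW0, mem_filter] at hx; exact hx.2.2
      have hGge : ∀ S ∈ G, ∀ x ∈ S, L1 ≤ x := fun S hS x hx =>
        fits_ge B L1 S hB (g5 S hS).2.2.1 x hx
      set GG := ((W0.powersetCard (a - 1)) ×ˢ G).image (fun p => p.1 ∪ p.2) with hGG
      have hGGcard : GG.card = w.choose (a - 1) * (bl.map (fun x => W.choose x.1)).prod := by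
        rw [hGG, card_image_of_injOn, card_product, card_powersetCard, hW0card, g4, ← hbl]
        · congr 1
          unfold blks
          rw [List.map_map]
          rfl
        · rintro ⟨A, S⟩ hp ⟨A', S'⟩ hp' heq
          simp only [coe_product, Set.mem_prod, mem_coe, mem_powersetCard] at hp hp'
          simp only at heq
          have k1 : ∀ x ∈ A, x < L1 := fun x hx => (hW0lt x (hp.1.1 hx)).trans_le c2
          have k2 : ∀ x ∈ A', x < L1 := fun x hx => (hW0lt x (hp'.1.1 hx)).trans_le c2
          have k3 := hGge S hp.2
          have k4 := hGge S' hp'.2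
          rw [Prod.mk.injEq]
          constructor
          · ext x
            constructor
            · intro hx
              have : x ∈ A' ∪ S' := by rw [← heq]; exact mem_union_left _ hx
              rw [mem_union] at this
              rcases this with h | h
              · exact h
              · have := k4 x h; have := k1 x hx; omega
            · intro hx
              have : x ∈ A ∪ S := by rw [heq]; exact mem_union_left _ hx
              rw [mem_union] at this
              rcases this with h | h
              · exact h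
              · have := k3 x h; have := k2 x hx; omega
          · ext x
            constructor
            · intro hx
              have : x ∈ A' ∪ S' := by rw [← heq]; exact mem_union_right _ hx
              rw [mem_union] at this
              rcases this with h | h
              · have := k2 x h; have := k3 x hx; omega
              · exact h
            · intro hx
              have : x ∈ A ∪ S := by rw [heq]; exact mem_union_right _ hx
              rw [mem_union] at this
              rcases this with h | h
              · have := k1 x h; have := k4 x hx; omega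
              · exact h
      have hsumB : (B.map Prod.fst).sum = (bl.map Prod.fst).sum := by
        rw [← hbl]
        unfold blks
        rw [List.map_map]
        rfl
      have hGGT : GG ⊆ T := by
        intro S hS
        rw [hGG, mem_image] at hS
        obtain ⟨⟨A, S1⟩, hp, rfl⟩ := hS
        rw [mem_product, mem_powersetCard] at hp
        obtain ⟨⟨hA1, hA2⟩, hS1⟩ := hp
        simp only at hA1 hA2 hS1 ⊢
        obtain ⟨k1, k2, k3, k4⟩ := g5 S1 hS1
        rw [hT, mem_powersetCard]
        constructor
        · apply union_subset (hA1.trans hW0V)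
          intro x hx
          rw [mem_erase]
          refine ⟨?_, k1 hx⟩
          have := hGge S1 hS1 x hx
          omega
        · rw [card_union_of_disjoint, hA2, k2, hsumB]
          · omega
          · rw [disjoint_left]
            intro x hx hx2
            have := hW0lt x (hA1 hx)
            have := hGge S1 hS1 x hx2
            omega
      -- the bound for a successful branch
      have hsucc : ∀ S ∈ GG, pr r s (V \ insert v S)
          (fun M => ¬ ∃ K ⊆ insert (insert v S) M, GoodK L1 a B bd m K) ≤
          2 ^ (m - 1) * ρ ^ ((s : ℤ) - (w : ℤ) * m) := by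
        intro S hS
        have hST := hGGT hS
        have hSc := hScard S hST
        have hcS := hcnt S hST
        rw [hGG, mem_image] at hS
        obtain ⟨⟨A, S1⟩, hp, hSeq⟩ := hS
        rw [mem_product, mem_powersetCard] at hp
        obtain ⟨⟨hA1, hA2⟩, hS1⟩ := hp
        simp only at hA1 hA2 hS1 hSeq
        obtain ⟨k1, k2, k3, k4⟩ := g5 S1 hS1
        set bd' := max c0 (v + 1) with hbd'
        have hvA : v ∉ A := fun h => absurd (hW0V (hA1 h)) (by simp)
        refine le_trans (pr_mono0 _ _ _ _ (fun M => ¬ ∃ K ⊆ M, GoodK L1 a B' bd' (m - 1) K) ?_)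
          ((ih (V \ insert v S) (m - 1) bd' B' ?_ g1 (g2.trans hbl) ?_ ?_).trans ?_)
        · intro M hM hK
          apply hM
          obtain ⟨K, hK1, hK2, hK3, hK4⟩ := hK
          have hKge : ∀ f ∈ K, ∀ x ∈ f, v + 1 ≤ x := by
            intro f hf x hx
            obtain ⟨f0, f1, rfl, m1, m2, m3⟩ := hK4 f hf
            rw [mem_union] at hx
            rcases hx with hx | hx
            · have := (m1 x hx).1
              omega
            · have := fits_ge B' L1 f1 g1 m3 x hx
              omega
          have heK : insert v S ∉ K := by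
            intro h
            have := hKge _ h v (mem_insert_self _ _)
            omega
          refine ⟨insert (insert v S) K, insert_subset_insert _ hK1, ?_, ?_, ?_⟩
          · rw [card_insert_of_notMem heK, hK2]; omega
          · intro e he f hf hlt
            rw [mem_insert] at he hf
            have hmine : (insert v S).min = ((v : ℕ) : WithTop ℕ) := by
              apply le_antisymm
              · exact min_le (mem_insert_self _ _)
              · apply Finset.le_min
                intro x hx
                rw [mem_insert] at hx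
                rcases hx with rfl | hx
                · exact le_rfl
                · rw [hT, mem_powersetCard] at hST
                  have := hST.1 hx
                  rw [mem_erase] at this
                  exact WithTop.coe_le_coe.2 (hvle x this.2)
            have hminf : ∀ f ∈ K, ((v : ℕ) : WithTop ℕ) < f.min := by
              intro f hf
              rcases f.eq_empty_or_nonempty with rfl | hne
              · simp
              · obtain ⟨x, hx⟩ := min_of_nonempty hne
                rw [hx]
                have := hKge f hf x (mem_of_min hx)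
                have h9 : v < x := by omega
                rw [show ((v : ℕ) : WithTop ℕ) = WithTop.some v from rfl]
                exact WithTop.coe_lt_coe.2 h9
            rcases he with rfl | he
            · rcases hf with rfl | hf
              · exact absurd hlt (lt_irrefl _)
              · -- the main computation
                obtain ⟨f0, f1, rfl, m1, m2, m3⟩ := hK4 f hf
                rw [Set.mem_singleton_iff]
                have e1 : insert v S = insert v A ∪ S1 := by
                  rw [← hSeq, insert_union]
                have hAlt : ∀ x ∈ insert v A, x < bd' := by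
                  intro x hx
                  rw [mem_insert] at hx
                  rcases hx with rfl | hx
                  · omega
                  · have := hW0lt x (hA1 hx); omega
                have hbdL : bd' ≤ L1 := by omega
                rw [e1, pat_append (insert v A) S1 f0 f1 (by
                  intro x hx y hy
                  rw [mem_union] at hx hy
                  have e1 : x < L1 := by
                    rcases hx with hx | hx
                    · have := hAlt x hx; omega
                    · exact (m1 x hx).2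
                  have e2 : L1 ≤ y := by
                    rcases hy with hy | hy
                    · exact hGge S1 hS1 y hy
                    · exact fits_ge B' L1 f1 g1 m3 y hy
                  omega), k4 f1 m3, word_cons, gr_pat_lt (insert v A) f0 (fun x hx y hy => by
                    have := hAlt x hx
                    have := (m1 y hy).1
                    omega), card_insert_of_notMem hvA, hA2, m2]
                congr 2
                · congr 1
                  omega
            · rcases hf with rfl | hf
              · rw [hmine] at hlt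
                exact absurd (hminf e he) (not_lt.2 hlt.le)
              · have := hK3 e he f hf hlt
                rw [g2] at this
                exact this
          · intro e he
            rw [mem_insert] at he
            rcases he with rfl | he
            · refine ⟨insert v A, S1, ?_, ?_, ?_, k3⟩
              · rw [← hSeq, insert_union]
              · intro x hx
                rw [mem_insert] at hx
                rcases hx with rfl | hx
                · exact ⟨hvb, hvL⟩
                · have h1 := hW0lt x (hA1 hx)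
                  have h2 := hW0V (hA1 hx)
                  rw [mem_erase] at h2
                  have h3 := hvle x h2.2
                  omega
              · rw [card_insert_of_notMem hvA, hA2]; omega
            · obtain ⟨f0, f1, rfl, m1, m2, m3⟩ := hK4 e he
              refine ⟨f0, f1, rfl, ?_, m2, g6 f1 m3⟩
              intro x hx
              have := m1 x hx
              omega
        · exact (card_le_card sdiff_subset).trans hN
        · have := hcS 0 L1
          omega
        · intro x hx
          have h1 := g3 (W * m + r * (s + 1)) hreg x hx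
          have h2 := hcS x.2.2.1 x.2.2.2
          obtain ⟨m', rfl⟩ : ∃ m', m = m' + 1 := ⟨m - 1, by omega⟩
          have h3 : W * (m' + 1) = W + W * m' := by ring
          have h4 : m' + 1 - 1 = m' := by omega
          rw [h4]
          omega
        · apply mul_le_mul_of_nonneg_left _ (by positivity)
          apply hpow
          have h1 : cnt (V \ insert v S) 0 bd' ≤ w := by
            rw [← c3]
            unfold cnt
            apply card_le_card
            intro y hy
            simp only [mem_filter, mem_sdiff, mem_insert, mem_erase, not_or] at hy ⊢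
            have := hvle y hy.1.1
            refine ⟨⟨hy.1.2.1, hy.1.1⟩, Nat.zero_le _, ?_⟩
            have := hy.2.2
            have := hy.1.2.1
            omega
          have h2 : ((cnt (V \ insert v S) 0 bd' : ℕ) : ℤ) ≤ (w : ℤ) := by exact_mod_cast h1
          have h3 : ((m - 1 : ℕ) : ℤ) = (m : ℤ) - 1 := by omega
          rw [h3]
          nlinarith
      have hfail' : ∀ S ∈ T, pr r s (V \ insert v S)
          (fun M => ¬ ∃ K ⊆ insert (insert v S) M, GoodK L1 a B bd m K) ≤
          2 ^ m * ρ ^ ((s : ℤ) - (w : ℤ) * m) := by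
        intro S hS
        have := hfail S hS
        rw [hcnt0 _ sdiff_subset] at this
        simpa using this
      unfold pr
      rw [← hv, ← hT, div_le_iff₀ hTpos', hcnt0 V (Subset.refl _)]
      set b2 : ℝ := 2 ^ m * ρ ^ ((s : ℤ) - (w : ℤ) * m) with hb2
      have hb2pos : 0 ≤ b2 := by positivity
      have hb1 : (2 : ℝ) ^ (m - 1) * ρ ^ ((s : ℤ) - (w : ℤ) * m) = b2 / 2 := by
        rw [hb2]
        obtain ⟨m', rfl⟩ := Nat.exists_eq_add_of_le hm
        have h4 : 1 + m' - 1 = m' := by omega
        rw [h4, pow_add]
        ring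
      have hsum : ∑ S ∈ T, pr r s (V \ insert v S)
          (fun M => ¬ ∃ K ⊆ insert (insert v S) M, GoodK L1 a B bd m K) ≤
          b2 * T.card - b2 / 2 * GG.card := by
        rw [← sum_sdiff hGGT]
        have i1 : ∑ S ∈ T \ GG, pr r s (V \ insert v S)
            (fun M => ¬ ∃ K ⊆ insert (insert v S) M, GoodK L1 a B bd m K) ≤
            ∑ S ∈ T \ GG, b2 := sum_le_sum (fun S hS => hfail' S (sdiff_subset hS))
        have i2 : ∑ S ∈ GG, pr r s (V \ insert v S)
            (fun M => ¬ ∃ K ⊆ insert (insert v S) M, GoodK L1 a B bd m K) ≤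
            ∑ S ∈ GG, b2 / 2 := sum_le_sum (fun S hS => by rw [← hb1]; exact hsucc S hS)
        rw [sum_const, nsmul_eq_mul] at i1 i2
        have i3 : ((T \ GG).card : ℝ) = T.card - GG.card := by
          rw [card_sdiff_of_subset hGGT, Nat.cast_sub (card_le_card hGGT)]
        rw [i3] at i1
        linarith
      refine hsum.trans ?_
      have hexp : (2 : ℝ) ^ m * ρ ^ (((s + 1 : ℕ) : ℤ) - ((0 : ℕ) : ℤ) - (w : ℤ) * m) = b2 * ρ := by
        rw [hb2]
        have : ((s + 1 : ℕ) : ℤ) - ((0 : ℕ) : ℤ) - (w : ℤ) * m = ((s : ℤ) - (w : ℤ) * m) + 1 := by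
          push_cast; ring
        rw [this, zpow_add₀ hρ0.ne', zpow_one]
        ring
      rw [hexp, hρ]
      have hTle : (T.card : ℝ) ≤ (((N0 - 1).choose (r - 1) : ℕ) : ℝ) := by
        rw [hTcard]
        exact_mod_cast Nat.choose_le_choose _ (by omega)
      have hqT : q * T.card ≤ GG.card := by
        calc q * T.card ≤ q * (((N0 - 1).choose (r - 1) : ℕ) : ℝ) :=
              mul_le_mul_of_nonneg_left hTle hq0
          _ ≤ _ := hq
          _ = GG.card := by rw [hGGcard]
      nlinarith

/-! ### the final statement -/

/-- consecutive regions of length `Z` starting at `c` -/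
def mkB (Z : ℕ) : ℕ → List (ℕ × Bool) → List (ℕ × Bool × ℕ × ℕ)
  | _, [] => []
  | c, (a, s) :: l => (a, s, c, c + Z) :: mkB Z (c + Z) l

lemma mkB_chn (Z : ℕ) (b : List (ℕ × Bool)) (c : ℕ) : Chn c (mkB Z c b) := by
  induction b generalizing c with
  | nil => exact trivial
  | cons x l ih =>
    obtain ⟨a, s⟩ := x
    exact ⟨le_rfl, Nat.le_add_right _ _, ih _⟩

lemma mkB_blks (Z : ℕ) (b : List (ℕ × Bool)) (c : ℕ) : blks (mkB Z c b) = b := by
  induction b generalizing c with
  | nil => rfl
  | cons x l ih =>
    obtain ⟨a, s⟩ := x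
    unfold mkB blks
    simp only [List.map_cons, List.cons.injEq, true_and]
    exact ih _

lemma mkB_mem (Z : ℕ) (b : List (ℕ × Bool)) (c : ℕ) :
    ∀ x ∈ mkB Z c b, x.2.2.2 = x.2.2.1 + Z ∧ x.2.2.2 ≤ c + b.length * Z := by
  induction b generalizing c with
  | nil => intro x hx; simp [mkB] at hx
  | cons y l ih =>
    obtain ⟨a, s⟩ := y
    intro x hx
    unfold mkB at hx
    rw [List.mem_cons] at hx
    rcases hx with rfl | hx
    · simp only [List.length_cons]
      refine ⟨trivial, ?_⟩
      nlinarith
    · have := ih (c + Z) x hx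
      refine ⟨this.1, this.2.trans ?_⟩
      simp only [List.length_cons]
      nlinarith

lemma cnt_range (N lo hi : ℕ) (_h1 : lo ≤ hi) (h2 : hi ≤ N) : cnt (range N) lo hi = hi - lo := by
  unfold cnt
  have : (range N).filter (fun y => lo ≤ y ∧ y < hi) = Ico lo hi := by
    ext y
    simp only [mem_filter, mem_range, mem_Ico]
    omega
  rw [this, Nat.card_Ico]

lemma choose_mul_choose_le (x y p q : ℕ) : x.choose p * y.choose q ≤ (x + y).choose (p + q) := by
  rw [Nat.add_choose_eq]
  exact Finset.single_le_sum (f := fun ij : ℕ × ℕ => x.choose ij.1 * y.choose ij.2)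
    (fun _ _ => Nat.zero_le _) (mem_antidiagonal.2 (rfl : (p, q).1 + (p, q).2 = p + q))

lemma prod_choose_le (W : ℕ) (b : List (ℕ × Bool)) :
    (b.map (fun x => W.choose x.1)).prod ≤ (b.length * W).choose (b.map Prod.fst).sum := by
  induction b with
  | nil => simp
  | cons x l ih =>
    simp only [List.map_cons, List.prod_cons, List.length_cons, List.sum_cons]
    calc W.choose x.1 * (l.map (fun x => W.choose x.1)).prod
        ≤ W.choose x.1 * (l.length * W).choose (l.map Prod.fst).sum := Nat.mul_le_mul_left _ ih
      _ ≤ (W + l.length * W).choose (x.1 + (l.map Prod.fst).sum) := choose_mul_choose_le _ _ _ _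
      _ = _ := by congr 1; ring

end Pool.Agent.Work.MP_7d1693_pr.Greedy

namespace Pool.Agent.Work.MP_7d1693_pr

open Finset Greedy

theorem greedy (r a : ℕ) (b : List (ℕ × Bool)) (ha : 0 < a) (_hb : ∀ x ∈ b, 0 < x.1)
    (hs : a + (b.map Prod.fst).sum = r) (_hr : 2 ≤ r) (n s m w W : ℕ) (hm : 1 ≤ m)
    (hn : (r * s + w + 1) + b.length * (W * m + r * s) ≤ r * n) :
    pr r s (range (r * n)) (fun M => ¬ ∃ K ⊆ M, K.card = m ∧ IsClique {word ((a, true) :: b)} K) ≤
      2 ^ m * (1 - ((w.choose (a - 1) * (b.map (fun x => W.choose x.1)).prod : ℕ) : ℝ) /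
        (((r * n - 1).choose (r - 1) : ℕ) : ℝ) / 2) ^ (s - w * m) := by
  set num : ℕ := w.choose (a - 1) * (b.map (fun x => W.choose x.1)).prod with hnum
  set den : ℕ := (r * n - 1).choose (r - 1) with hden
  have hWm : W ≤ W * m := Nat.le_mul_of_pos_right _ hm
  have hlW : b.length * W ≤ b.length * (W * m + r * s) := Nat.mul_le_mul_left _ (by omega)
  have hnd : num ≤ den := by
    calc num ≤ w.choose (a - 1) * (b.length * W).choose (b.map Prod.fst).sum :=
          Nat.mul_le_mul_left _ (prod_choose_le W b)
      _ ≤ (w + b.length * W).choose ((a - 1) + (b.map Prod.fst).sum) := choose_mul_choose_le _ _ _ _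
      _ = (w + b.length * W).choose (r - 1) := by congr 1; omega
      _ ≤ den := Nat.choose_le_choose _ (by omega)
  have hq1 : (num : ℝ) / den ≤ 1 := by
    apply div_le_one_of_le₀ _ (by positivity)
    exact_mod_cast hnd
  have hq0 : 0 ≤ (num : ℝ) / den := by positivity
  set ρ : ℝ := 1 - (num : ℝ) / den / 2 with hρ
  have hρ0 : 0 < ρ := by linarith
  have hρ1 : ρ ≤ 1 := by linarith
  have hq : (num : ℝ) / den * (((r * n - 1).choose (r - 1) : ℕ) : ℝ) ≤ (num : ℝ) := by
    rw [← hden]
    rcases Nat.eq_zero_or_pos den with h | h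
    · rw [h]; simp
    · rw [div_mul_cancel₀]
      exact_mod_cast h.ne'
  have key := greedy_main r a ha w W (r * n) (r * s + w + 1) ((num : ℝ) / den) ρ b hs hρ hρ0 hρ1 hq
    hq0 s (range (r * n)) m 0 (mkB (W * m + r * s) (r * s + w + 1) b) (by simp)
    (mkB_chn _ _ _) (mkB_blks _ _ _)
    (by rw [cnt_range _ _ _ (Nat.zero_le _) (by omega)]; omega)
    (by
      intro x hx
      obtain ⟨h1, h2⟩ := mkB_mem _ _ _ x hx
      rw [cnt_range _ _ _ (by omega) (by omega), h1]
      omega)
  rw [cnt_self] at key
  rcases le_or_gt (w * m) s with hws | hws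
  · refine le_trans (pr_mono0 _ _ _ _ _ ?_) (key.trans (le_of_eq ?_))
    · intro M hM hK
      apply hM
      obtain ⟨K, h1, h2, h3, _⟩ := hK
      rw [mkB_blks] at h3
      exact ⟨K, h1, h2, h3⟩
    · congr 1
      rw [← zpow_natCast]
      congr 1
      push_cast [Nat.cast_sub hws]
      ring
  · rw [Nat.sub_eq_zero_of_le hws.le, pow_zero, mul_one]
    exact (pr_le_one0 _ _ _ _).trans (one_le_pow₀ (by norm_num))

end Pool.Agent.Work.MP_7d1693_pr
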