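import Pool.Agent.Work.MP_7d1693_pr.PROC
import Pool.Agent.Work.MP_7d1693_pr.GREEDY

namespace Pool.Agent.Work.MP_7d1693_pr

open Finset

namespace LowerAux

lemma choose_lb (w k r : ℕ) (hr : 0 < r) (hk : k ≤ r) (hw : 2 * r ≤ w) :
    ((w : ℝ) / (2 * r)) ^ k ≤ (w.choose k : ℝ) := by
  have h1 : (w + 1 - k) ^ k ≤ w.descFactorial k := Nat.pow_sub_le_descFactorial w k
  rw [Nat.descFactorial_eq_factorial_mul_choose] at h1
  have h2 : k.factorial ≤ r ^ k :=
    (Nat.factorial_le_pow k).trans (Nat.pow_le_pow_left hk k)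
  have h3 : (w + 1 - k) ^ k ≤ r ^ k * w.choose k := h1.trans (Nat.mul_le_mul_right _ h2)
  have h4 : ((w + 1 - k : ℕ) : ℝ) ^ k ≤ (r : ℝ) ^ k * (w.choose k : ℝ) := by
    exact_mod_cast h3
  have h5 : (w : ℝ) / 2 ≤ ((w + 1 - k : ℕ) : ℝ) := by
    have : w ≤ 2 * (w + 1 - k) := by omega
    have h' : (w : ℝ) ≤ 2 * ((w + 1 - k : ℕ) : ℝ) := by exact_mod_cast this
    linarith
  have hr' : (0 : ℝ) < r := by exact_mod_cast hr
  have h6 : (w : ℝ) / (2 * r) = ((w : ℝ) / 2) / r := by field_simp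
  rw [h6, div_pow, div_le_iff₀ (by positivity)]
  calc ((w : ℝ) / 2) ^ k ≤ ((w + 1 - k : ℕ) : ℝ) ^ k :=
        pow_le_pow_left₀ (by positivity) h5 k
    _ ≤ _ := by rw [mul_comm]; exact h4

lemma prod_lb (W r : ℕ) (hr : 0 < r) (hW : 2 * r ≤ W) (b : List (ℕ × Bool))
    (hb : ∀ x ∈ b, x.1 ≤ r) :
    ((W : ℝ) / (2 * r)) ^ (b.map Prod.fst).sum ≤
      (((b.map (fun x => W.choose x.1)).prod : ℕ) : ℝ) := by
  induction b with
  | nil => simp
  | cons x b ih =>
    have h1 := ih (fun y hy => hb y (List.mem_cons_of_mem _ hy))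
    have h2 := choose_lb W x.1 r hr (hb x List.mem_cons_self) hW
    simp only [List.map_cons, List.sum_cons, List.prod_cons, pow_add, Nat.cast_mul]
    exact mul_le_mul h2 h1 (by positivity) (by positivity)

lemma choose_mul_le (m n i j : ℕ) : m.choose i * n.choose j ≤ (m + n).choose (i + j) := by
  rw [Nat.add_choose_eq]
  have hm : (i, j) ∈ antidiagonal (i + j) := by simp
  exact Finset.single_le_sum (f := fun ij : ℕ × ℕ => m.choose ij.1 * n.choose ij.2)
    (fun _ _ => Nat.zero_le _) hm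

lemma prod_ub (W : ℕ) (b : List (ℕ × Bool)) :
    (b.map (fun x => W.choose x.1)).prod ≤ (b.length * W).choose (b.map Prod.fst).sum := by
  induction b with
  | nil => simp
  | cons x b ih =>
    simp only [List.map_cons, List.sum_cons, List.prod_cons, List.length_cons]
    calc W.choose x.1 * (b.map (fun x => W.choose x.1)).prod
        ≤ W.choose x.1 * (b.length * W).choose (b.map Prod.fst).sum :=
          Nat.mul_le_mul_left _ ih
      _ ≤ (W + b.length * W).choose (x.1 + (b.map Prod.fst).sum) := choose_mul_le _ _ _ _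
      _ = _ := by congr 1; ring

lemma z_le {P : Set (List Bool)} {M K : Finset (Finset ℕ)} (hK : K ⊆ M) (hc : IsClique P K) :
    K.card ≤ z P M := by
  classical
  unfold z
  apply Finset.le_sup (f := Finset.card)
  simp [hK, hc]

lemma one_le_z (P : Set (List Bool)) {M : Finset (Finset ℕ)} (hM : M.Nonempty) : 1 ≤ z P M := by
  obtain ⟨e, he⟩ := hM
  have : ({e} : Finset (Finset ℕ)).card ≤ z P M := by
    apply z_le
    · simpa using he
    · intro x hx y hy hxy
      simp only [Finset.mem_singleton] at hx hy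
      subst hx; subst hy
      exact absurd hxy (lt_irrefl _)
  simpa using this

lemma floor_half (A B : ℕ) (hB : 0 < B) (h : 2 * B ≤ A) :
    (A : ℝ) / (2 * B) ≤ ((A / B : ℕ) : ℝ) := by
  have h1 : A < B * (A / B) + B := by
    have := Nat.div_add_mod A B
    have := Nat.mod_lt A hB
    omega
  have h2 : (A : ℝ) < B * ((A / B : ℕ) : ℝ) + B := by exact_mod_cast h1
  have h3 : (2 * B : ℝ) ≤ A := by exact_mod_cast h
  have hB' : (0 : ℝ) < B := by exact_mod_cast hB
  rw [div_le_iff₀ (by positivity)]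
  nlinarith

/-- the numerical core -/
lemma core (r a' σ n t : ℕ) (hr : 2 ≤ r) (haσ : a' + σ + 1 = r) (ht : 1 ≤ t) (htn : t ≤ n)
    (g c : ℝ) (hc : c = 1 / (4096 * (r : ℝ) ^ 3)) (hg : 0 < g)
    (hgr : g ^ r * (n : ℝ) ^ a' = (t : ℝ) ^ (a' + 1)) (hcg : 1 < c * g) :
    ∃ m s w W : ℕ, 1 ≤ m ∧ c * g ≤ m ∧ s ≤ t ∧ 8 * r * s ≤ t ∧ 2 * (w * m) ≤ s ∧ 8 * (W * m) ≤ n ∧
      2 * r ≤ w ∧ 2 * r ≤ W ∧
      ∀ N D : ℝ, ((w : ℝ) / (2 * r)) ^ a' * ((W : ℝ) / (2 * r)) ^ σ ≤ N → 0 < D →
        D ≤ ((r : ℝ) * n) ^ (r - 1) → 8 * (m : ℝ) ≤ N / D * s := by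
  have hr0 : (2 : ℝ) ≤ r := by exact_mod_cast hr
  have hrp : (0 : ℝ) < r := by linarith
  have hcp : 0 < c := by rw [hc]; positivity
  have ht0 : (1 : ℝ) ≤ t := by exact_mod_cast ht
  have htn' : (t : ℝ) ≤ n := by exact_mod_cast htn
  have hn0 : (0 : ℝ) < n := by linarith
  have hc' : c * (4096 * (r : ℝ) ^ 3) = 1 := by rw [hc]; field_simp
  have hr3 : (r : ℝ) ^ 2 * 2 ≤ (r : ℝ) ^ 3 := by
    have : (r : ℝ) ^ 3 = (r : ℝ) ^ 2 * r := by ring
    rw [this]
    exact mul_le_mul_of_nonneg_left hr0 (by positivity)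
  have hr2 : (r : ℝ) * 2 ≤ (r : ℝ) ^ 2 := by
    rw [sq]; exact mul_le_mul_of_nonneg_left hr0 (by positivity)
  -- g is large
  have hglarge : 4096 * (r : ℝ) ^ 3 < g := by
    have : c * (4096 * (r : ℝ) ^ 3) < c * g := by rw [hc']; exact hcg
    exact lt_of_mul_lt_mul_left this hcp.le
  have hg1 : 1 ≤ g := by nlinarith
  have hgrt : g ^ r ≤ t := by
    have h1 : g ^ r * (n : ℝ) ^ a' ≤ t * (n : ℝ) ^ a' := by
      rw [hgr, pow_succ, mul_comm]
      exact mul_le_mul_of_nonneg_left (pow_le_pow_left₀ (by linarith) htn' _) (by linarith)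
    exact le_of_mul_le_mul_right h1 (by positivity)
  have hg2 : g ^ 2 ≤ t := (pow_le_pow_right₀ hg1 hr).trans hgrt
  have hgt : g ≤ t := by nlinarith
  -- m
  obtain ⟨m, hm1, hm2⟩ : ∃ m : ℕ, c * g ≤ m ∧ (m : ℝ) ≤ 2 * (c * g) := by
    refine ⟨⌈c * g⌉₊, Nat.le_ceil _, ?_⟩
    have := Nat.ceil_lt_add_one (show 0 ≤ c * g by positivity)
    linarith
  have hm0 : 1 ≤ m := by
    have : (1 : ℝ) < m := by linarith
    exact_mod_cast this.le
  have hmp : (0 : ℝ) < m := by exact_mod_cast hm0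
  have hcgt : c * g * (4096 * (r : ℝ) ^ 3) ≤ t := by
    calc c * g * (4096 * (r : ℝ) ^ 3) = c * (4096 * (r : ℝ) ^ 3) * g := by ring
      _ = g := by rw [hc', one_mul]
      _ ≤ t := hgt
  have hcg0 : 0 < c * g := by positivity
  have hmt : (m : ℝ) * (2048 * (r : ℝ) ^ 3) ≤ t := by
    calc (m : ℝ) * (2048 * (r : ℝ) ^ 3) ≤ (2 * (c * g)) * (2048 * (r : ℝ) ^ 3) :=
          mul_le_mul_of_nonneg_right hm2 (by positivity)
      _ = c * g * (4096 * (r : ℝ) ^ 3) := by ring
      _ ≤ t := hcgt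
  have hr8 : 8 ≤ (r : ℝ) ^ 3 := by nlinarith
  -- s
  have hs0 : 2 * (8 * r) ≤ t := by
    have : (2 * (8 * r) : ℝ) ≤ t := by nlinarith
    exact_mod_cast this
  have hs1 := floor_half t (8 * r) (by omega) hs0
  have hs2 : 8 * r * (t / (8 * r)) ≤ t := Nat.mul_div_le t (8 * r)
  set s := t / (8 * r) with hsdef
  have hs1' : (t : ℝ) / (16 * r) ≤ s := by
    have e : (t : ℝ) / (2 * ((8 * r : ℕ) : ℝ)) = (t : ℝ) / (16 * r) := by push_cast; ring
    rwa [e] at hs1
  have hts : (t : ℝ) ≤ s * (16 * r) := (div_le_iff₀ (by positivity)).1 hs1'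
  have hw0 : 2 * (2 * m) ≤ s := by
    have h1 : (m : ℝ) * (2048 * (r : ℝ) ^ 3) ≤ s * (16 * r) := hmt.trans hts
    have h2 : (4 * m : ℝ) * (16 * r) ≤ (m : ℝ) * (2048 * (r : ℝ) ^ 3) := by
      have : (4 * m : ℝ) * (16 * r) = m * (64 * r) := by ring
      rw [this]
      apply mul_le_mul_of_nonneg_left _ hmp.le
      nlinarith
    have h3 : (4 * m : ℝ) * (16 * r) ≤ s * (16 * r) := h2.trans h1
    have h4 : (4 * m : ℝ) ≤ s := le_of_mul_le_mul_right h3 (by positivity)
    have h5 : ((2 * (2 * m) : ℕ) : ℝ) ≤ s := by push_cast; linarith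
    exact_mod_cast h5
  have hw1 := floor_half s (2 * m) (by omega) hw0
  have hw2 : 2 * m * (s / (2 * m)) ≤ s := Nat.mul_div_le s (2 * m)
  have hW0 : 2 * (8 * m) ≤ n := by
    have h2 : (16 * m : ℝ) ≤ m * (2048 * (r : ℝ) ^ 3) := by nlinarith
    have h5 : ((2 * (8 * m) : ℕ) : ℝ) ≤ n := by push_cast; linarith
    exact_mod_cast h5
  have hW1 := floor_half n (8 * m) (by omega) hW0
  have hW2 : 8 * m * (n / (8 * m)) ≤ n := Nat.mul_div_le n (8 * m)
  set w := s / (2 * m) with hwdef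
  set W := n / (8 * m) with hWdef
  have hx : 16 * (r : ℝ) * t / g ≤ (w : ℝ) / (2 * r) := by
    have h1 : (s : ℝ) / (2 * ((2 * m : ℕ) : ℝ)) ≤ w := hw1
    have h2 : (t : ℝ) / (16 * r) / (2 * (2 * (2 * (c * g)))) ≤ (s : ℝ) / (2 * ((2 * m : ℕ) : ℝ)) := by
      push_cast
      gcongr
    have h3 : 16 * (r : ℝ) * t / g = (t : ℝ) / (16 * r) / (2 * (2 * (2 * (c * g)))) / (2 * r) := by
      rw [hc]; field_simp; ring
    rw [h3]
    exact div_le_div_of_nonneg_right (h2.trans h1) (by positivity)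
  have hy : 16 * (r : ℝ) * n / g ≤ (W : ℝ) / (2 * r) := by
    have h1 : (n : ℝ) / (2 * ((8 * m : ℕ) : ℝ)) ≤ W := hW1
    have h2 : (n : ℝ) / (2 * (8 * (2 * (c * g)))) ≤ (n : ℝ) / (2 * ((8 * m : ℕ) : ℝ)) := by
      push_cast
      gcongr
    have h3 : 64 * (r : ℝ) ^ 2 * n / g = (n : ℝ) / (2 * (8 * (2 * (c * g)))) / (2 * r) := by
      rw [hc]; field_simp; ring
    have h4 : 16 * (r : ℝ) * n / g ≤ 64 * (r : ℝ) ^ 2 * n / g := by
      have : 16 * (r : ℝ) ≤ 64 * (r : ℝ) ^ 2 := by nlinarith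
      exact div_le_div_of_nonneg_right (mul_le_mul_of_nonneg_right this hn0.le) hg.le
    refine h4.trans ?_
    rw [h3]
    exact div_le_div_of_nonneg_right (h2.trans h1) (by positivity)
  have htg : g ≤ (t : ℝ) / g := by
    rw [le_div_iff₀ hg]; nlinarith
  have hng : g ≤ (n : ℝ) / g := by
    rw [le_div_iff₀ hg]; nlinarith
  refine ⟨m, s, w, W, hm0, hm1, ?_, ?_, ?_, ?_, ?_, ?_, ?_⟩
  · exact Nat.div_le_self _ _
  · exact hs2
  · calc 2 * (w * m) = 2 * m * w := by ring
      _ ≤ s := hw2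
  · calc 8 * (W * m) = 8 * m * W := by ring
      _ ≤ n := hW2
  · have h1 : (1 : ℝ) ≤ (w : ℝ) / (2 * r) := by
      refine le_trans ?_ hx
      have : 16 * (r : ℝ) * t / g = 16 * r * (t / g) := by ring
      rw [this]; nlinarith
    rw [le_div_iff₀ (by positivity), one_mul] at h1
    exact_mod_cast h1
  · have h1 : (1 : ℝ) ≤ (W : ℝ) / (2 * r) := by
      refine le_trans ?_ hy
      have : 16 * (r : ℝ) * n / g = 16 * r * (n / g) := by ring
      rw [this]; nlinarith
    rw [le_div_iff₀ (by positivity), one_mul] at h1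
    exact_mod_cast h1
  · intro N D hN hD hD'
    have hN2 : (16 * (r : ℝ) * t / g) ^ a' * (16 * (r : ℝ) * n / g) ^ σ ≤ N := by
      refine le_trans ?_ hN
      exact mul_le_mul (pow_le_pow_left₀ (by positivity) hx _)
        (pow_le_pow_left₀ (by positivity) hy _) (by positivity) (by positivity)
    rw [div_mul_eq_mul_div, le_div_iff₀ hD]
    have hr1 : r - 1 = a' + σ := by omega
    have hgr' : g ^ (a' + σ) * g * (n : ℝ) ^ a' = (t : ℝ) ^ (a' + 1) := by
      rw [← pow_succ, haσ, hgr]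
    have key : (16 * (r : ℝ) * t / g) ^ a' * (16 * (r : ℝ) * n / g) ^ σ * (t / (16 * r)) =
        (16 : ℝ) ^ (a' + σ) * (g / (16 * r)) * (r * n) ^ (a' + σ) := by
      have e1 : (16 * (r : ℝ) * t / g) ^ a' * (16 * (r : ℝ) * n / g) ^ σ * (t / (16 * r)) =
          (16 * (r : ℝ)) ^ (a' + σ) * ((t : ℝ) ^ (a' + 1)) * (n : ℝ) ^ σ / (g ^ (a' + σ) * (16 * r)) := by
        rw [div_pow, div_pow, mul_pow, mul_pow, pow_add, pow_add, pow_succ]
        field_simp
        ring
      rw [e1, ← hgr', div_eq_iff (by positivity), mul_pow, mul_pow, pow_add (n : ℝ)]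
      field_simp
    have h16 : (16 : ℝ) ≤ (16 : ℝ) ^ (a' + σ) := by
      calc (16 : ℝ) = 16 ^ 1 := by norm_num
        _ ≤ _ := pow_le_pow_right₀ (by norm_num) (by omega)
    calc 8 * (m : ℝ) * D ≤ 8 * (2 * (c * g)) * (r * n) ^ (a' + σ) := by
          rw [hr1] at hD'
          exact mul_le_mul (by linarith) hD' hD.le (by positivity)
      _ ≤ (16 : ℝ) ^ (a' + σ) * (g / (16 * r)) * (r * n) ^ (a' + σ) := by
          apply mul_le_mul_of_nonneg_right _ (by positivity)
          have h1 : 16 * (g / (16 * r)) ≤ (16 : ℝ) ^ (a' + σ) * (g / (16 * r)) :=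
            mul_le_mul_of_nonneg_right h16 (by positivity)
          refine le_trans ?_ h1
          have h2 : 16 * (g / (16 * r)) = g / r := by field_simp
          rw [h2, le_div_iff₀ hrp, hc]
          have h3 : 8 * (2 * (1 / (4096 * (r : ℝ) ^ 3) * g)) * r = g * (1 / (256 * (r : ℝ) ^ 2)) := by
            field_simp; ring
          rw [h3]
          have h4 : 1 / (256 * (r : ℝ) ^ 2) ≤ 1 := by
            rw [div_le_one (by positivity)]; nlinarith
          nlinarith
      _ = (16 * (r : ℝ) * t / g) ^ a' * (16 * (r : ℝ) * n / g) ^ σ * (t / (16 * r)) := key.symm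
      _ ≤ N * s := mul_le_mul hN2 hs1' (by positivity) (le_trans (by positivity) hN2)

end LowerAux

open LowerAux in
theorem lower (r a : ℕ) (b : List (ℕ × Bool)) (ha : 0 < a) (hb : ∀ x ∈ b, 0 < x.1)
    (hs : a + (b.map Prod.fst).sum = r) (hr : 2 ≤ r) (P : Set (List Bool))
    (hP : word ((a, true) :: b) ∈ P) :
    ∃ c : ℝ, 0 < c ∧ ∀ n t : ℕ, 1 ≤ t → t ≤ n →
      pr r t (range (r * n)) (fun M => (z P M : ℝ) < c * ((n : ℝ) * ((t : ℝ) / n) ^ a) ^ (1 / (r : ℝ)))
        ≤ Real.exp (-(c * ((n : ℝ) * ((t : ℝ) / n) ^ a) ^ (1 / (r : ℝ)))) := by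
  have hr0 : (2 : ℝ) ≤ r := by exact_mod_cast hr
  have hrp : (0 : ℝ) < r := by linarith
  refine ⟨1 / (4096 * (r : ℝ) ^ 3), by positivity, ?_⟩
  intro n t ht htn
  have ht0 : (1 : ℝ) ≤ t := by exact_mod_cast ht
  have htn' : (t : ℝ) ≤ n := by exact_mod_cast htn
  have hn0 : (0 : ℝ) < n := by linarith
  set c : ℝ := 1 / (4096 * (r : ℝ) ^ 3) with hc
  have hcp : 0 < c := by rw [hc]; positivity
  set g : ℝ := ((n : ℝ) * ((t : ℝ) / n) ^ a) ^ (1 / (r : ℝ)) with hgdef
  have hg0 : 0 < g := by rw [hgdef]; positivity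
  obtain ⟨a', rfl⟩ : ∃ a', a = a' + 1 := ⟨a - 1, by omega⟩
  have hgr : g ^ r * (n : ℝ) ^ a' = (t : ℝ) ^ (a' + 1) := by
    have h1 : g ^ r = (n : ℝ) * ((t : ℝ) / n) ^ (a' + 1) := by
      rw [hgdef, one_div]
      exact Real.rpow_inv_natCast_pow (by positivity) (by omega)
    rw [h1, div_pow, pow_succ (n : ℝ)]
    field_simp
  have hOutNe : ∀ M, Out r t (range (r * n)) M → M.Nonempty := by
    intro M hM
    obtain ⟨t', rfl⟩ : ∃ t', t = t' + 1 := ⟨t - 1, by omega⟩
    obtain ⟨S, _, M', _, rfl⟩ := hM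
    exact Finset.insert_nonempty _ _
  by_cases hcg : c * g ≤ 1
  · have h1 : pr r t (range (r * n)) (fun M => (z P M : ℝ) < c * g) ≤
        pr r t (range (r * n)) (fun M => ∃ i ∈ (∅ : Finset ℕ), (fun (_ : ℕ) (_ : Finset (Finset ℕ)) => False) i M) := by
      apply pr_mono
      intro M hM hlt
      have h2 := one_le_z P (hOutNe M hM)
      have h3 : (1 : ℝ) ≤ z P M := by exact_mod_cast h2
      exact absurd (lt_of_lt_of_le hlt hcg) (not_lt.2 h3)
    have h2 := pr_union r t (range (r * n)) (∅ : Finset ℕ)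
      (fun (_ : ℕ) (_ : Finset (Finset ℕ)) => False)
    rw [Finset.sum_empty] at h2
    exact (h1.trans h2).trans (Real.exp_pos _).le
  · push Not at hcg
    have hσ : a' + (b.map Prod.fst).sum + 1 = r := by omega
    obtain ⟨m, s, w, W, hm1, hcm, hst, h8s, hwm, hWm, hw2, hW2, hND⟩ :=
      core r a' _ n t hr hσ ht htn g c hc hg0 hgr hcg
    have hlen : b.length ≤ (b.map Prod.fst).sum := by
      have : ∀ l : List (ℕ × Bool), (∀ x ∈ l, 0 < x.1) → l.length ≤ (l.map Prod.fst).sum := by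
        intro l
        induction l with
        | nil => intro _; simp
        | cons x l ih =>
          intro h
          have h1 := ih (fun y hy => h y (List.mem_cons_of_mem _ hy))
          have h2 := h x List.mem_cons_self
          simp only [List.map_cons, List.sum_cons, List.length_cons]
          omega
      exact this b hb
    have hbr : ∀ x ∈ b, x.1 ≤ r := by
      intro x hx
      have : x.1 ≤ (b.map Prod.fst).sum :=
        List.single_le_sum (fun _ _ => Nat.zero_le _) _ (List.mem_map_of_mem hx)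
      omega
    have hn1 : 1 ≤ n := le_trans ht htn
    have hcond : (r * s + w + 1) + b.length * (W * m + r * s) ≤ r * n := by
      have hlr : b.length + 1 ≤ r := by omega
      have h1 : 8 * (r * s) ≤ n := by nlinarith
      have h2 : 8 * (W * m) ≤ n := hWm
      have hw' : w ≤ w * m := Nat.le_mul_of_pos_right _ hm1
      have hs' : s ≤ r * s := Nat.le_mul_of_pos_left _ (by omega)
      have h3 : 8 * w ≤ n := by omega
      have h5 : 8 * (b.length * (W * m + r * s)) ≤ b.length * (2 * n) := by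
        calc 8 * (b.length * (W * m + r * s)) = b.length * (8 * (W * m) + 8 * (r * s)) := by ring
          _ ≤ b.length * (2 * n) := Nat.mul_le_mul_left _ (by omega)
      have h6 : (b.length + 1) * n ≤ r * n := Nat.mul_le_mul_right _ hlr
      have h7 : b.length * (2 * n) = 2 * (b.length * n) := by ring
      have h8 : (b.length + 1) * n = b.length * n + n := by ring
      have h9 : 8 ≤ 8 * w := by omega
      nlinarith
    have hgreedy := greedy r (a' + 1) b ha hb hs hr n s m w W hm1 hcond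
    have hstep1 : pr r t (range (r * n)) (fun M => (z P M : ℝ) < c * g) ≤
        pr r t (range (r * n))
          (fun M => ¬ ∃ K ⊆ M, K.card = m ∧ IsClique {word ((a' + 1, true) :: b)} K) := by
      apply pr_mono
      rintro M _ hlt ⟨K, hKM, hKc, hK⟩
      have h1 : IsClique P K := by
        intro e he f hf hef
        have := hK e he f hf hef
        rw [Set.mem_singleton_iff] at this
        rw [this]; exact hP
      have h2 := z_le hKM h1
      have h3 : (m : ℝ) ≤ z P M := by rw [← hKc]; exact_mod_cast h2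
      linarith
    have hstep2 : pr r t (range (r * n))
          (fun M => ¬ ∃ K ⊆ M, K.card = m ∧ IsClique {word ((a' + 1, true) :: b)} K) ≤
        pr r s (range (r * n))
          (fun M => ¬ ∃ K ⊆ M, K.card = m ∧ IsClique {word ((a' + 1, true) :: b)} K) := by
      apply pr_anti_steps r s t hst
      rintro M M' hMM' h ⟨K, hK, h2⟩
      exact h ⟨K, hK.trans hMM', h2⟩
    refine (hstep1.trans (hstep2.trans hgreedy)).trans ?_
    set N : ℕ := w.choose (a' + 1 - 1) * (b.map (fun x => W.choose x.1)).prod with hN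
    set D : ℕ := (r * n - 1).choose (r - 1) with hD
    have hrn : r ≤ r * n := Nat.le_mul_of_pos_right _ hn1
    have hDpos : 0 < D := Nat.choose_pos (by omega)
    have hNle : N ≤ D := by
      have h1 := prod_ub W b
      have h2 := choose_mul_le w (b.length * W) a' (b.map Prod.fst).sum
      have h3 : N ≤ (w + b.length * W).choose (a' + (b.map Prod.fst).sum) := by
        rw [hN, Nat.add_sub_cancel]
        exact (Nat.mul_le_mul_left _ h1).trans h2
      have h4 : a' + (b.map Prod.fst).sum = r - 1 := by omega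
      rw [h4] at h3
      refine h3.trans (Nat.choose_le_choose _ ?_)
      have hW' : b.length * W ≤ b.length * (W * m + r * s) :=
        Nat.mul_le_mul_left _ (le_trans (Nat.le_mul_of_pos_right _ hm1) (Nat.le_add_right _ _))
      omega
    have hNlb : ((w : ℝ) / (2 * r)) ^ a' * ((W : ℝ) / (2 * r)) ^ (b.map Prod.fst).sum ≤ (N : ℝ) := by
      rw [hN, Nat.add_sub_cancel, Nat.cast_mul]
      exact mul_le_mul (choose_lb w a' r (by omega) (by omega) hw2) (prod_lb W r (by omega) hW2 b hbr)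
        (by positivity) (by positivity)
    have hDub : (D : ℝ) ≤ ((r : ℝ) * n) ^ (r - 1) := by
      have h1 : D ≤ (r * n) ^ (r - 1) := by
        refine (Nat.choose_le_pow (r * n - 1) (r - 1)).trans (Nat.pow_le_pow_left (by omega) _)
      exact_mod_cast h1
    have hDp : (0 : ℝ) < D := by exact_mod_cast hDpos
    have h8m := hND N D hNlb hDp hDub
    set q : ℝ := (N : ℝ) / D with hq
    have hq0 : 0 ≤ q := by positivity
    have hq1 : q ≤ 1 := by
      rw [hq, div_le_one hDp]; exact_mod_cast hNle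
    have hx0 : 0 ≤ 1 - q / 2 := by linarith
    have hx1 : 1 - q / 2 ≤ Real.exp (-(q / 2)) := by
      have := Real.add_one_le_exp (-(q / 2)); linarith
    have hk : (s : ℝ) / 2 ≤ ((s - w * m : ℕ) : ℝ) := by
      have h1 : s ≤ 2 * (s - w * m) := by omega
      have h2 : (s : ℝ) ≤ 2 * ((s - w * m : ℕ) : ℝ) := by exact_mod_cast h1
      linarith
    have h2m : (2 : ℝ) ^ m ≤ Real.exp m := by
      have h1 : (2 : ℝ) ≤ Real.exp 1 := by
        have := Real.add_one_le_exp (1 : ℝ); linarith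
      calc (2 : ℝ) ^ m ≤ (Real.exp 1) ^ m := pow_le_pow_left₀ (by norm_num) h1 m
        _ = Real.exp m := by rw [← Real.exp_nat_mul, mul_one]
    calc (2 : ℝ) ^ m * (1 - q / 2) ^ (s - w * m)
        ≤ Real.exp m * (Real.exp (-(q / 2))) ^ (s - w * m) :=
          mul_le_mul h2m (pow_le_pow_left₀ hx0 hx1 _) (by positivity) (Real.exp_pos _).le
      _ = Real.exp (m + ((s - w * m : ℕ) : ℝ) * (-(q / 2))) := by
          rw [← Real.exp_nat_mul, ← Real.exp_add]
      _ ≤ Real.exp (-(c * g)) := by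
          apply Real.exp_le_exp.2
          nlinarith

end Pool.Agent.Work.MP_7d1693_pr
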