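import Pool.Agent.Work.MP_7d1693_pr.Base

/-!
Module RAM: finite Ramsey theorem for pairs and its product version.
-/

namespace Pool.Agent.Work.MP_7d1693_pr

open Finset

theorem prehom (κ : Type) [Finite κ] (n : ℕ) :
    ∃ R : ℕ, ∀ χ : ℕ → ℕ → κ, ∀ S : Finset ℕ, R ≤ S.card → ∃ s ⊆ S, s.card = n ∧
      ∃ col : ℕ → κ, ∀ x ∈ s, ∀ y ∈ s, x < y → χ x y = col x := by
  classical
  let _ := Fintype.ofFinite κ
  induction n with
  | zero =>
    refine ⟨0, fun χ S _ => ⟨∅, by simp, by simp, fun _ => χ 0 0, by simp⟩⟩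
  | succ n ih =>
    obtain ⟨R, hR⟩ := ih
    refine ⟨Fintype.card κ * R + 1, fun χ S hS => ?_⟩
    have hne : S.Nonempty := by
      rw [← Finset.card_pos]; omega
    set x := S.min' hne with hx
    have hxS : x ∈ S := S.min'_mem hne
    have hc : Fintype.card κ * R ≤ (S.erase x).card := by
      rw [Finset.card_erase_of_mem hxS]; omega
    have : Nonempty κ := ⟨χ 0 0⟩
    obtain ⟨c, -, hcR⟩ := Finset.exists_le_card_fiber_of_mul_le_card_of_maps_to
      (s := S.erase x) (t := (Finset.univ : Finset κ)) (f := fun y => χ x y) (n := R)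
      (fun _ _ => Finset.mem_univ _) Finset.univ_nonempty (by simpa using hc)
    obtain ⟨s, hs, hsn, col, hcol⟩ := hR χ _ hcR
    have hsx : ∀ y ∈ s, x < y ∧ χ x y = c ∧ y ∈ S := by
      intro y hy
      have h1 := hs hy
      rw [Finset.mem_filter, Finset.mem_erase] at h1
      refine ⟨lt_of_le_of_ne (S.min'_le y h1.1.2) (Ne.symm h1.1.1), h1.2, h1.1.2⟩
    have hxs : x ∉ s := fun h => lt_irrefl x (hsx x h).1
    refine ⟨insert x s, ?_, ?_, fun y => if y = x then c else col y, ?_⟩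
    · intro y hy
      rcases Finset.mem_insert.1 hy with rfl | hy
      · exact hxS
      · exact (hsx y hy).2.2
    · rw [Finset.card_insert_of_notMem hxs, hsn]
    · intro y hy w hw hyw
      rcases Finset.mem_insert.1 hy with hy | hy
      · rcases Finset.mem_insert.1 hw with hw | hw
        · omega
        · simp only [hy, if_true]
          exact (hsx w hw).2.1
      · have hyx : y ≠ x := fun h => hxs (h ▸ hy)
        rcases Finset.mem_insert.1 hw with hw | hw
        · have := (hsx y hy).1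
          omega
        · simp only [if_neg hyx]
          exact hcol y hy w hw hyw

theorem ramsey (κ : Type) [Finite κ] (m : ℕ) :
    ∃ R : ℕ, ∀ χ : ℕ → ℕ → κ, ∃ s ⊆ range R, s.card = m ∧
      ∃ col, ∀ x ∈ s, ∀ y ∈ s, x < y → χ x y = col := by
  classical
  let _ := Fintype.ofFinite κ
  obtain ⟨R, hR⟩ := prehom κ (Fintype.card κ * m)
  refine ⟨R, fun χ => ?_⟩
  have : Nonempty κ := ⟨χ 0 0⟩
  obtain ⟨s, hs, hsn, col, hcol⟩ := hR χ (range R) (by simp)
  obtain ⟨c, -, hcR⟩ := Finset.exists_le_card_fiber_of_mul_le_card_of_maps_to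
    (s := s) (t := (Finset.univ : Finset κ)) (f := col) (n := m)
    (fun _ _ => Finset.mem_univ _) Finset.univ_nonempty (by rw [hsn]; simp)
  obtain ⟨s', hs', hsn'⟩ := Finset.exists_subset_card_eq hcR
  have h2 : ∀ y ∈ s', y ∈ s ∧ col y = c := by
    intro y hy
    have := hs' hy
    rwa [Finset.mem_filter] at this
  refine ⟨s', fun y hy => hs (h2 y hy).1, hsn', c, fun x hx y hy hxy => ?_⟩
  rw [hcol x (h2 x hx).1 y (h2 y hy).1 hxy, (h2 x hx).2]

theorem ramsey2 (κ : Type) [Finite κ] (m : ℕ) :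
    ∃ R : ℕ, ∀ χ : ℕ → ℕ → ℕ → ℕ → κ, ∃ s ⊆ range R, ∃ s' ⊆ range R,
      s.card = m ∧ s'.card = m ∧
      ∃ col, ∀ x ∈ s, ∀ y ∈ s, ∀ u ∈ s', ∀ v ∈ s', x < y → u < v → χ x y u v = col := by
  classical
  obtain ⟨R1, hR1⟩ := ramsey κ m
  obtain ⟨R2, hR2⟩ := ramsey (Fin R1 → Fin R1 → κ) m
  refine ⟨max R1 R2, fun χ => ?_⟩
  obtain ⟨s, hs, hsm, col, hcol⟩ := hR2 (fun x y u v => χ x y u v)
  obtain ⟨s', hs', hsm', col', hcol'⟩ := hR1 (fun u v =>
    if h : u < R1 ∧ v < R1 then col ⟨u, h.1⟩ ⟨v, h.2⟩ else χ 0 0 0 0)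
  refine ⟨s, fun x hx => ?_, s', fun x hx => ?_, hsm, hsm', col', ?_⟩
  · have := hs hx
    rw [Finset.mem_range] at this ⊢
    exact lt_of_lt_of_le this (le_max_right _ _)
  · have := hs' hx
    rw [Finset.mem_range] at this ⊢
    exact lt_of_lt_of_le this (le_max_left _ _)
  · intro x hx y hy u hu v hv hxy huv
    have hu' := Finset.mem_range.1 (hs' hu)
    have hv' := Finset.mem_range.1 (hs' hv)
    have h1 := hcol' u hu v hv huv
    rw [dif_pos ⟨hu', hv'⟩] at h1
    rw [← h1, ← hcol x hx y hy hxy]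

end Pool.Agent.Work.MP_7d1693_pr
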