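import Pool.Agent.Work.MP_7d1693_pr.SAME
import Pool.Agent.Work.MP_7d1693_pr.RAM

namespace Pool.Agent.Work.MP_7d1693_pr

open Finset

/-! ### AVOID -/

theorem avoid (r : ℕ) (hr : 2 ≤ r) (P : Set (List Bool)) (hP : Thin r P) :
    ∃ (l : ℕ) (τ : Equiv.Perm (Fin l)), ∀ K : Finset (Finset ℕ), Fam r K → IsClique P K →
      ∀ j < r, 0 < j → ¬ Occ j τ K := by
  classical
  obtain ⟨R, hR⟩ := ramsey2 ((Fin r → Fin r → Bool) × (Fin r → Fin r → Bool)) 4
  refine ⟨R * R, finProdFinEquiv.symm.trans ((Equiv.prodComm _ _).trans finProdFinEquiv), ?_⟩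
  rintro K hK hcl j hj - ⟨φ, hφK, hφm, hφt⟩
  let E : ℕ → ℕ → Finset ℕ := fun u v =>
    if h : u < R ∧ v < R then φ (finProdFinEquiv (⟨u, h.1⟩, ⟨v, h.2⟩)) else ∅
  have hE : ∀ u (hu : u < R) v (hv : v < R), E u v = φ (finProdFinEquiv (⟨u, hu⟩, ⟨v, hv⟩)) :=
    fun u hu v hv => dif_pos ⟨hu, hv⟩
  have hlex : ∀ u < R, ∀ v < R, ∀ u' < R, ∀ v' < R, u < u' → v + R * u < v' + R * u' := by
    intro u hu v hv u' hu' v' hv' huu
    have h1 : R * (u + 1) ≤ R * u' := Nat.mul_le_mul_left R huu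
    rw [Nat.mul_add, Nat.mul_one] at h1
    omega
  have hmn : ∀ u < R, ∀ v < R, ∀ u' < R, ∀ v' < R, u < u' → mn (E u v) < mn (E u' v') := by
    intro u hu v hv u' hu' v' hv' huu
    rw [hE u hu v hv, hE u' hu' v' hv']
    apply hφm
    rw [Fin.lt_def, finProdFinEquiv_apply_val, finProdFinEquiv_apply_val]
    exact hlex u hu v hv u' hu' v' hv' huu
  have hmn2 : ∀ u < R, ∀ v < R, ∀ v' < R, v < v' → mn (E u v) < mn (E u v') := by
    intro u hu v hv v' hv' hvv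
    rw [hE u hu v hv, hE u hu v' hv']
    apply hφm
    rw [Fin.lt_def, finProdFinEquiv_apply_val, finProdFinEquiv_apply_val]
    simp only
    omega
  have hel : ∀ u < R, ∀ v < R, ∀ u' < R, ∀ v' < R, v < v' → el (E u v) j < el (E u' v') j := by
    intro u hu v hv u' hu' v' hv' hvv
    rw [hE u hu v hv, hE u' hu' v' hv']
    apply hφt
    simp only [Equiv.trans_apply, Equiv.symm_apply_apply, Equiv.prodComm_apply, Prod.swap_prod_mk]
    rw [Fin.lt_def, finProdFinEquiv_apply_val, finProdFinEquiv_apply_val]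
    exact hlex v hv u hu v' hv' u' hu' hvv
  have hmem : ∀ u < R, ∀ v < R, E u v ∈ K := by
    intro u hu v hv
    rw [hE u hu v hv]
    exact hφK _
  have hcard : ∀ u < R, ∀ v < R, (E u v).card = r := fun u hu v hv => hK.1 _ (hmem u hu v hv)
  have hdis : ∀ u < R, ∀ v < R, ∀ u' < R, ∀ v' < R, (u ≠ u' ∨ v ≠ v') →
      Disjoint (E u v) (E u' v') := by
    intro u hu v hv u' hu' v' hv' hne
    apply hK.2 _ (hmem u hu v hv) _ (hmem u' hu' v' hv')
    intro heq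
    rcases lt_trichotomy u u' with h | h | h
    · exact absurd (congrArg mn heq) (ne_of_lt (hmn u hu v hv u' hu' v' hv' h))
    · subst h
      rcases lt_trichotomy v v' with h' | h' | h'
      · exact absurd (congrArg mn heq) (ne_of_lt (hmn2 u hu v hv v' hv' h'))
      · rcases hne with h1 | h1
        · exact h1 rfl
        · exact h1 h'
      · exact absurd (congrArg mn heq) (ne_of_gt (hmn2 u hu v' hv' v hv h'))
    · exact absurd (congrArg mn heq) (ne_of_gt (hmn u' hu' v' hv' u hu v hv h))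
  obtain ⟨s, hs, s', hs', hsc, hsc', col, hcol⟩ := hR (fun x y u v =>
    (fun i k => decide (el (E x u) i < el (E y v) k),
      fun i k => decide (el (E x v) i < el (E y u) k)))
  have hsl : ∀ i < 4, el s i < R := fun i hi => mem_range.1 (hs (el_mem s i (by omega)))
  have hsl' : ∀ i < 4, el s' i < R := fun i hi => mem_range.1 (hs' (el_mem s' i (by omega)))
  have hss : ∀ i < 4, ∀ k < 4, i < k → el s i < el s k := fun i _ k hk hik =>
    el_lt s i k hik (by omega)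
  have hss' : ∀ i < 4, ∀ k < 4, i < k → el s' i < el s' k := fun i _ k hk hik =>
    el_lt s' i k hik (by omega)
  have hneq : ∀ i < 4, ∀ k < 4, i ≠ k → el s i ≠ el s k := fun i hi k hk hik => by
    rcases lt_or_gt_of_ne hik with h | h
    · exact ne_of_lt (hss i hi k hk h)
    · exact ne_of_gt (hss k hk i hi h)
  have hneq' : ∀ i < 4, ∀ k < 4, i ≠ k → el s' i ≠ el s' k := fun i hi k hk hik => by
    rcases lt_or_gt_of_ne hik with h | h
    · exact ne_of_lt (hss' i hi k hk h)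
    · exact ne_of_gt (hss' k hk i hi h)
  have hcc : ∀ u < 4, ∀ v < 4, ∀ u' < 4, ∀ v' < 4, u < u' → v < v' →
      ((fun i k => decide (el (E (el s u) (el s' v)) i < el (E (el s u') (el s' v')) k) :
          Fin r → Fin r → Bool),
        (fun i k => decide (el (E (el s u) (el s' v')) i < el (E (el s u') (el s' v)) k) :
          Fin r → Fin r → Bool)) = col := by
    intro u hu v hv u' hu' v' hv' huu hvv
    exact hcol (el s u) (el_mem s u (by omega)) (el s u') (el_mem s u' (by omega))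
      (el s' v) (el_mem s' v (by omega)) (el s' v') (el_mem s' v' (by omega))
      (hss u hu u' hu' huu) (hss' v hv v' hv' hvv)
  have h4 : (0 : ℕ) < 4 := by norm_num
  have h41 : (1 : ℕ) < 4 := by norm_num
  have h01 : (0 : ℕ) < 1 := by norm_num
  have hpeq : ∀ u < 4, ∀ v < 4, ∀ u' < 4, ∀ v' < 4, u < u' → v < v' →
      pat (E (el s u) (el s' v)) (E (el s u') (el s' v')) =
        pat (E (el s 0) (el s' 0)) (E (el s 1) (el s' 1)) := by
    intro u hu v hv u' hu' v' hv' huu hvv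
    rw [pat_eq_iff r _ _ _ _ (hcard _ (hsl u hu) _ (hsl' v hv))
      (hcard _ (hsl u' hu') _ (hsl' v' hv')) (hcard _ (hsl 0 h4) _ (hsl' 0 h4))
      (hcard _ (hsl 1 h41) _ (hsl' 1 h41))
      (hdis _ (hsl u hu) _ (hsl' v hv) _ (hsl u' hu') _ (hsl' v' hv')
        (Or.inl (hneq u hu u' hu' (ne_of_lt huu))))
      (hdis _ (hsl 0 h4) _ (hsl' 0 h4) _ (hsl 1 h41) _ (hsl' 1 h41)
        (Or.inl (hneq 0 h4 1 h41 (ne_of_lt h01))))]
    intro i hi k hk
    have h1 := (hcc u hu v hv u' hu' v' hv' huu hvv).trans (hcc 0 h4 0 h4 1 h41 1 h41 h01 h01).symm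
    have h2 := congrFun (congrFun (congrArg Prod.fst h1) ⟨i, hi⟩) ⟨k, hk⟩
    simpa using h2
  have hneqq : ∀ u < 4, ∀ v < 4, ∀ u' < 4, ∀ v' < 4, u < u' → v < v' →
      pat (E (el s u) (el s' v')) (E (el s u') (el s' v)) =
        pat (E (el s 0) (el s' 1)) (E (el s 1) (el s' 0)) := by
    intro u hu v hv u' hu' v' hv' huu hvv
    rw [pat_eq_iff r _ _ _ _ (hcard _ (hsl u hu) _ (hsl' v' hv'))
      (hcard _ (hsl u' hu') _ (hsl' v hv)) (hcard _ (hsl 0 h4) _ (hsl' 1 h41))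
      (hcard _ (hsl 1 h41) _ (hsl' 0 h4))
      (hdis _ (hsl u hu) _ (hsl' v' hv') _ (hsl u' hu') _ (hsl' v hv)
        (Or.inl (hneq u hu u' hu' (ne_of_lt huu))))
      (hdis _ (hsl 0 h4) _ (hsl' 1 h41) _ (hsl 1 h41) _ (hsl' 0 h4)
        (Or.inl (hneq 0 h4 1 h41 (ne_of_lt h01))))]
    intro i hi k hk
    have h1 := (hcc u hu v hv u' hu' v' hv' huu hvv).trans (hcc 0 h4 0 h4 1 h41 1 h41 h01 h01).symm
    have h2 := congrFun (congrFun (congrArg Prod.snd h1) ⟨i, hi⟩) ⟨k, hk⟩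
    simpa using h2
  obtain ⟨lam, hl, h1, h2⟩ := same_type r (by omega) (fun u v => E (el s u) (el s' v))
    (fun u hu v hv => hcard _ (hsl u hu) _ (hsl' v hv))
    (fun u hu v hv u' hu' v' hv' hne => hdis _ (hsl u hu) _ (hsl' v hv) _ (hsl u' hu') _
      (hsl' v' hv') (by
        rcases hne with h | h
        · exact Or.inl (hneq u hu u' hu' h)
        · exact Or.inr (hneq' v hv v' hv' h)))
    (fun u hu v hv u' hu' v' hv' huu => hmn _ (hsl u hu) _ (hsl' v hv) _ (hsl u' hu') _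
      (hsl' v' hv') (hss u hu u' hu' huu))
    (pat (E (el s 0) (el s' 0)) (E (el s 1) (el s' 1)))
    (pat (E (el s 0) (el s' 1)) (E (el s 1) (el s' 0))) hpeq hneqq
  have hne : ∀ u < R, ∀ v < R, (E u v).Nonempty := fun u hu v hv => by
    rw [← Finset.card_pos, hcard u hu v hv]; omega
  have hin : ∀ u < R, ∀ v < R, ∀ u' < R, ∀ v' < R, u < u' → pat (E u v) (E u' v') ∈ P := by
    intro u hu v hv u' hu' v' hv' huu
    apply hcl _ (hmem u hu v hv) _ (hmem u' hu' v' hv')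
    rw [(mn_eq _ (hne u hu v hv)).2, (mn_eq _ (hne u' hu' v' hv')).2]
    exact WithTop.coe_lt_coe.2 (hmn u hu v hv u' hu' v' hv' huu)
  have h3 := hP lam hl _ (hin _ (hsl 0 h4) _ (hsl' 0 h4) _ (hsl 1 h41) _ (hsl' 1 h41)
    (hss 0 h4 1 h41 h01)) _ (hin _ (hsl 0 h4) _ (hsl' 1 h41) _ (hsl 1 h41) _ (hsl' 0 h4)
    (hss 0 h4 1 h41 h01)) h1 h2
  rw [pat_eq_iff r _ _ _ _ (hcard _ (hsl 0 h4) _ (hsl' 0 h4))
      (hcard _ (hsl 1 h41) _ (hsl' 1 h41)) (hcard _ (hsl 0 h4) _ (hsl' 1 h41))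
      (hcard _ (hsl 1 h41) _ (hsl' 0 h4))
      (hdis _ (hsl 0 h4) _ (hsl' 0 h4) _ (hsl 1 h41) _ (hsl' 1 h41)
        (Or.inl (hneq 0 h4 1 h41 (ne_of_lt h01))))
      (hdis _ (hsl 0 h4) _ (hsl' 1 h41) _ (hsl 1 h41) _ (hsl' 0 h4)
        (Or.inl (hneq 0 h4 1 h41 (ne_of_lt h01))))] at h3
  have h5 := (h3 j hj j hj).1 (hel _ (hsl 0 h4) _ (hsl' 0 h4) _ (hsl 1 h41) _ (hsl' 1 h41)
    (hss' 0 h4 1 h41 h01))
  have h6 := hel _ (hsl 1 h41) _ (hsl' 0 h4) _ (hsl 0 h4) _ (hsl' 1 h41)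
    (hss' 0 h4 1 h41 h01)
  exact absurd h5 (not_lt.2 h6.le)

end Pool.Agent.Work.MP_7d1693_pr
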