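import Pool.Agent.Work.MP_7d1693_pr.PAT

namespace Pool.Agent.Work.MP_7d1693_pr

open Finset

/-! ### TRI: three pairwise disjoint sets with equal patterns -/

theorem seq_le {r : ℕ} {x : ℕ → ℕ} (hx : ∀ i j, i < j → j < r → x i < x j) {i j : ℕ}
    (hij : i ≤ j) (hj : j < r) : x i ≤ x j := by
  rcases hij.eq_or_lt with rfl | h
  · exact le_rfl
  · exact (hx i j h hj).le

theorem first_block (r : ℕ) (hr : 0 < r) (x y z : ℕ → ℕ)
    (hx : ∀ i j, i < j → j < r → x i < x j)
    (hy : ∀ i j, i < j → j < r → y i < y j)
    (hxz : ∀ i < r, ∀ j < r, x i ≠ z j)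
    (h1 : ∀ i < r, ∀ j < r, (x i < y j ↔ x i < z j))
    (h2 : ∀ i < r, ∀ j < r, (x i < y j ↔ y i < z j))
    (h0 : x 0 < y 0) :
    ∃ a, 0 < a ∧ a ≤ r ∧ (∀ i < a, ∀ j < r, x i < y j) ∧
      (∀ i, a ≤ i → i < r → ∀ j < a, ¬ x i < y j) := by
  classical
  have hP : ∃ a, a < r → ¬ x a < y 0 := ⟨r, fun h => absurd h (lt_irrefl _)⟩
  let a := Nat.find hP
  have ha : a < r → ¬ x a < y 0 := Nat.find_spec hP
  have hmin : ∀ i < a, i < r ∧ x i < y 0 := by
    intro i hi
    have := Nat.find_min hP hi
    push Not at this
    exact this
  have har : a ≤ r := Nat.find_min' hP (fun h => absurd h (lt_irrefl _))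
  have ha0 : 0 < a := by
    rcases Nat.eq_zero_or_pos a with h | h
    · rw [h] at ha
      exact absurd h0 (ha hr)
    · exact h
  refine ⟨a, ha0, har, ?_, ?_⟩
  · intro i hi j hj
    exact lt_of_lt_of_le (hmin i hi).2 (seq_le hy (Nat.zero_le j) hj)
  · intro i hai hir j hja hc
    have h3 : y j < z 0 := (h2 j (by omega) 0 hr).1 (hmin j hja).2
    have h4 : ¬ x a < z 0 := fun h => ha (by omega) ((h1 a (by omega) 0 hr).2 h)
    have h5 : x a ≠ z 0 := hxz a (by omega) 0 hr
    have h6 : x a ≤ x i := seq_le hx hai hir
    omega

theorem tri_aux : ∀ (r : ℕ) (x y z : ℕ → ℕ),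
    (∀ i j, i < j → j < r → x i < x j) → (∀ i j, i < j → j < r → y i < y j) →
    (∀ i j, i < j → j < r → z i < z j) →
    (∀ i < r, ∀ j < r, x i ≠ y j) → (∀ i < r, ∀ j < r, x i ≠ z j) →
    (∀ i < r, ∀ j < r, y i ≠ z j) →
    (∀ i < r, ∀ j < r, (x i < y j ↔ x i < z j)) →
    (∀ i < r, ∀ j < r, (x i < y j ↔ y i < z j)) →
    ∃ b : List (ℕ × Bool), (∀ p ∈ b, 0 < p.1) ∧ (b.map Prod.fst).sum = r ∧
      ∀ i < r, ∀ j < r, (x i < y j ↔
      (bi (b.map Prod.fst) i < bi (b.map Prod.fst) j ∨
        (bi (b.map Prod.fst) i = bi (b.map Prod.fst) j ∧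
          (b.map Prod.snd).getD (bi (b.map Prod.fst) i) false = true))) := by
  intro r
  induction r using Nat.strong_induction_on with
  | _ r ih =>
    intro x y z hx hy hz hxy hxz hyz h1 h2
    rcases Nat.eq_zero_or_pos r with hr | hr
    · subst hr
      exact ⟨[], by simp, by simp, fun i hi => absurd hi (Nat.not_lt_zero _)⟩
    · -- the first block
      have key : ∃ (a : ℕ) (s : Bool), 0 < a ∧ a ≤ r ∧
          (∀ i < a, ∀ j < a, (x i < y j ↔ s = true)) ∧
          (∀ i < a, ∀ j, a ≤ j → j < r → x i < y j) ∧
          (∀ i, a ≤ i → i < r → ∀ j < a, ¬ x i < y j) := by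
        by_cases h0 : x 0 < y 0
        · obtain ⟨a, ha, har, hb1, hb2⟩ := first_block r hr x y z hx hy hxz h1 h2 h0
          exact ⟨a, true, ha, har, fun i hi j hj => by simp [hb1 i hi j (by omega)],
            fun i hi j _ hj => hb1 i hi j hj, hb2⟩
        · have h0' : z 0 < y 0 := by
            have := (h2 0 hr 0 hr).not.1 h0
            have := hyz 0 hr 0 hr
            omega
          obtain ⟨a, ha, har, hb1, hb2⟩ := first_block r hr z y x hz hy
            (fun i hi j hj => (hxz j hj i hi).symm)
            (fun i hi j hj => by
              have e1 := h1 j hj i hi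
              have e2 := h2 j hj i hi
              have e3 := hxy j hj i hi
              have e4 := hxz j hj i hi
              have e5 := hyz j hj i hi
              constructor
              · intro h
                have : ¬ y j < z i := by omega
                have : ¬ x j < y i := fun h => this (e2.1 h)
                have : ¬ x j < z i := fun h => this (e1.2 h)
                omega
              · intro h
                have : ¬ x j < z i := by omega
                have : ¬ x j < y i := fun h => this (e1.1 h)
                have : ¬ y j < z i := fun h => this (e2.2 h)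
                omega)
            (fun i hi j hj => by
              have e1 := h1 j hj i hi
              have e2 := h2 j hj i hi
              have e3 := hxy j hj i hi
              have e4 := hxz j hj i hi
              have e5 := hyz j hj i hi
              constructor
              · intro h
                have : ¬ y j < z i := by omega
                have : ¬ x j < y i := fun h => this (e2.1 h)
                omega
              · intro h
                have : ¬ x j < y i := by omega
                have : ¬ y j < z i := fun h => this (e2.2 h)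
                omega) h0'
          have hT : ∀ i < r, ∀ j < r, (x i < y j ↔ ¬ z j < y i) := by
            intro i hi j hj
            have e2 := h2 i hi j hj
            have e5 := hyz i hi j hj
            rw [e2]
            omega
          refine ⟨a, false, ha, har, ?_, ?_, ?_⟩
          · intro i hi j hj
            rw [hT i (by omega) j (by omega)]
            simp [hb1 j hj i (by omega)]
          · intro i hi j haj hj
            rw [hT i (by omega) j hj]
            exact hb2 j haj hj i hi
          · intro i hai hi j hj
            rw [hT i hi j (by omega)]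
            push Not
            exact hb1 j hj i hi
      obtain ⟨a, s, ha, har, hb1, hb2, hb3⟩ := key
      obtain ⟨b, hpos, hsum, hT⟩ := ih (r - a) (by omega)
        (fun i => x (i + a)) (fun i => y (i + a)) (fun i => z (i + a))
        (fun i j hij hj => hx _ _ (by omega) (by omega))
        (fun i j hij hj => hy _ _ (by omega) (by omega))
        (fun i j hij hj => hz _ _ (by omega) (by omega))
        (fun i hi j hj => hxy _ (by omega) _ (by omega))
        (fun i hi j hj => hxz _ (by omega) _ (by omega))
        (fun i hi j hj => hyz _ (by omega) _ (by omega))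
        (fun i hi j hj => h1 _ (by omega) _ (by omega))
        (fun i hi j hj => h2 _ (by omega) _ (by omega))
      refine ⟨(a, s) :: b, ?_, ?_, ?_⟩
      · intro p hp
        rcases List.mem_cons.1 hp with rfl | hp
        · exact ha
        · exact hpos p hp
      · simp only [List.map_cons, List.sum_cons, hsum]
        omega
      · intro i hi j hj
        simp only [List.map_cons, bi]
        by_cases hia : i < a
        · by_cases hja : j < a
          · rw [if_pos hia, if_pos hja, hb1 i hia j hja]
            simp
          · rw [if_pos hia, if_neg hja]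
            simp [hb2 i hia j (by omega) hj]
        · by_cases hja : j < a
          · rw [if_neg hia, if_pos hja]
            simp [hb3 i (by omega) hi j hja]
          · rw [if_neg hia, if_neg hja]
            have := hT (i - a) (by omega) (j - a) (by omega)
            rw [Nat.sub_add_cancel (by omega), Nat.sub_add_cancel (by omega)] at this
            rw [this]
            simp

theorem tri (r : ℕ) (hr : 1 ≤ r) (w : List Bool) (e f g : Finset ℕ) (he : e.card = r)
    (hf : f.card = r) (hg : g.card = r) (hef : Disjoint e f) (hfg : Disjoint f g)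
    (heg : Disjoint e g) (h1 : mn e < mn f) (h2 : mn f < mn g) (hw1 : pat e f = w)
    (hw2 : pat f g = w) (hw3 : pat e g = w) : ∃ lam : List ℕ, lam.sum = r ∧ HasType w lam := by
  have hne : ∀ {A B : Finset ℕ}, A.card = r → B.card = r → Disjoint A B →
      ∀ i < r, ∀ j < r, el A i ≠ el B j := by
    intro A B hA hB hd i hi j hj hc
    exact Finset.disjoint_left.1 hd (el_mem A i (hA ▸ hi)) (hc ▸ el_mem B j (hB ▸ hj))
  obtain ⟨b, hpos, hsum, hT⟩ := tri_aux r (el e) (el f) (el g)
    (fun i j hij hj => el_lt e i j hij (he ▸ hj))
    (fun i j hij hj => el_lt f i j hij (hf ▸ hj))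
    (fun i j hij hj => el_lt g i j hij (hg ▸ hj))
    (hne he hf hef) (hne he hg heg) (hne hf hg hfg)
    ((pat_eq_iff r e f e g he hf he hg hef heg).1 (hw1.trans hw3.symm))
    ((pat_eq_iff r e f f g he hf hf hg hef hfg).1 (hw1.trans hw2.symm))
  have hword : pat e f = word b := (pat_word_iff r b hsum e f he hf hef).2 hT
  refine ⟨b.map Prod.fst, hsum, b, rfl, hpos, ?_, by rw [← hw1, hword]⟩
  have hee : e.Nonempty := Finset.card_pos.1 (by omega)
  have hfe : f.Nonempty := Finset.card_pos.1 (by omega)
  have h00 : el e 0 < el f 0 := by
    rw [← (mn_eq e hee).1, ← (mn_eq f hfe).1]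
    exact h1
  have hT0 := (hT 0 (by omega) 0 (by omega)).1 h00
  cases b with
  | nil => simp at hsum; omega
  | cons p b =>
    obtain ⟨a, s⟩ := p
    have ha : 0 < a := hpos (a, s) (by simp)
    simp only [List.map_cons, bi, if_pos ha] at hT0
    simpa using hT0

end Pool.Agent.Work.MP_7d1693_pr
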