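import Pool.Agent.Work.MP_7d1693_pr.PAT
import Pool.Agent.Work.MP_7d1693_pr.RAM
import Pool.Agent.Work.MP_7d1693_pr.TRI

namespace Pool.Agent.Work.MP_7d1693_pr

open Finset

/-! ### BAD: few edges of a clique have fewer than `a` vertices below `L` -/

theorem pat_length (e f : Finset ℕ) (hd : Disjoint e f) : (pat e f).length = e.card + f.card := by
  unfold pat
  rw [List.length_map, Finset.length_sort, Finset.card_union_of_disjoint hd]

theorem few_bad (r : ℕ) (hr : 2 ≤ r) (P : Set (List Bool)) (a : ℕ)
    (ha : ∀ w ∈ P, ∀ lam : List ℕ, ∀ a' : ℕ, (a' :: lam).sum = r → HasType w (a' :: lam) → a ≤ a') :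
    ∃ R : ℕ, ∀ (K : Finset (Finset ℕ)) (L : ℕ), Fam r K → IsClique P K →
      (∀ e ∈ K, mn e < L) →
      (K.filter (fun e => (e.filter (fun x => x < L)).card < a)).card ≤ R := by
  classical
  obtain ⟨R, hR⟩ := ramsey (Fin (2 * r) → Bool) 3
  refine ⟨R, ?_⟩
  intro K L hFam hCl hL
  by_contra hcon
  rw [not_le] at hcon
  set F := K.filter (fun e => (e.filter (fun x => x < L)).card < a) with hF
  have hFK : ∀ e ∈ F, e ∈ K := fun e he => (Finset.mem_filter.1 he).1
  have hne : ∀ e ∈ F, e.Nonempty := by
    intro e he
    have := hFam.1 e (hFK e he)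
    exact Finset.card_pos.1 (by omega)
  have hinj : Set.InjOn mn (F : Set (Finset ℕ)) := by
    intro e he f hf hef
    by_contra hne'
    have he' : e ∈ F := by exact_mod_cast he
    have hf' : f ∈ F := by exact_mod_cast hf
    have hd := hFam.2 e (hFK e he') f (hFK f hf') hne'
    have h1 := mn_mem e (hne e he')
    have h2 := mn_mem f (hne f hf')
    rw [← hef] at h2
    exact Finset.disjoint_left.1 hd h1 h2
  set S := F.image mn with hS
  have hScard : S.card = F.card := Finset.card_image_of_injOn hinj
  have hE : ∀ i, ∃ e, i < R → e ∈ F ∧ mn e = el S i := by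
    intro i
    by_cases hi : i < R
    · obtain ⟨e, he, h⟩ := Finset.mem_image.1 (el_mem S i (by omega))
      exact ⟨e, fun _ => ⟨he, h⟩⟩
    · exact ⟨∅, fun h => absurd h hi⟩
  choose E hE using hE
  obtain ⟨s, hs, hs3, col, hcol⟩ := hR (fun x y i => (pat (E x) (E y)).getD i false)
  have hEl : ∀ i < 3, el s i < R := by
    intro i hi
    have := hs (el_mem s i (by omega))
    simpa using this
  have hElm : ∀ i < 3, el s i ∈ s := fun i hi => el_mem s i (by omega)
  have hmn : ∀ i j, i < j → j < 3 → mn (E (el s i)) < mn (E (el s j)) := by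
    intro i j hij hj
    rw [(hE _ (hEl i (by omega))).2, (hE _ (hEl j hj)).2]
    exact el_lt S _ _ (el_lt s i j hij (by omega)) (by have := hEl j hj; omega)
  have hmem : ∀ i < 3, E (el s i) ∈ F := fun i hi => (hE _ (hEl i hi)).1
  have hcard : ∀ i < 3, (E (el s i)).card = r := fun i hi => hFam.1 _ (hFK _ (hmem i hi))
  have hdis : ∀ i j, i < j → j < 3 → Disjoint (E (el s i)) (E (el s j)) := by
    intro i j hij hj
    refine hFam.2 _ (hFK _ (hmem i (by omega))) _ (hFK _ (hmem j hj)) ?_
    intro hc
    exact absurd (hmn i j hij hj) (by rw [hc]; exact lt_irrefl _)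
  have hpat : ∀ i j i' j', i < j → j < 3 → i' < j' → j' < 3 →
      pat (E (el s i)) (E (el s j)) = pat (E (el s i')) (E (el s j')) := by
    intro i j i' j' hij hj hij' hj'
    have c1 := hcol (el s i) (hElm i (by omega)) (el s j) (hElm j hj) (el_lt s i j hij (by omega))
    have c2 := hcol (el s i') (hElm i' (by omega)) (el s j') (hElm j' hj')
      (el_lt s i' j' hij' (by omega))
    have l1 := pat_length _ _ (hdis i j hij hj)
    have l2 := pat_length _ _ (hdis i' j' hij' hj')
    rw [hcard i (by omega), hcard j hj] at l1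
    rw [hcard i' (by omega), hcard j' hj'] at l2
    apply List.ext_getElem (by rw [l1, l2])
    intro n h1 h2
    have h3 : n < 2 * r := by omega
    have h4 := congrFun (c1.trans c2.symm) ⟨n, h3⟩
    simp only [] at h4
    rw [List.getD_eq_getElem _ _ h1, List.getD_eq_getElem _ _ h2] at h4
    exact h4
  have hminlt : (E (el s 0)).min < (E (el s 1)).min := by
    rw [(mn_eq _ (hne _ (hmem 0 (by omega)))).2, (mn_eq _ (hne _ (hmem 1 (by omega)))).2]
    exact WithTop.coe_lt_coe.2 (hmn 0 1 (by omega) (by omega))
  have hwP : pat (E (el s 0)) (E (el s 1)) ∈ P :=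
    hCl _ (hFK _ (hmem 0 (by omega))) _ (hFK _ (hmem 1 (by omega))) hminlt
  obtain ⟨lam, hlam, hType⟩ := tri r (by omega) (pat (E (el s 0)) (E (el s 1)))
    (E (el s 0)) (E (el s 1)) (E (el s 2)) (hcard 0 (by omega)) (hcard 1 (by omega))
    (hcard 2 (by omega)) (hdis 0 1 (by omega) (by omega)) (hdis 1 2 (by omega) (by omega))
    (hdis 0 2 (by omega) (by omega)) (hmn 0 1 (by omega) (by omega)) (hmn 1 2 (by omega) (by omega))
    rfl (hpat 1 2 0 1 (by omega) (by omega) (by omega) (by omega))
    (hpat 0 2 0 1 (by omega) (by omega) (by omega) (by omega))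
  cases lam with
  | nil => simp at hlam; omega
  | cons a' lam =>
    have haa := ha _ hwP lam a' hlam hType
    obtain ⟨b, hb, hpos, hhead, hword⟩ := hType
    have hT := (pat_word_iff r b (by rw [hb, hlam]) _ _ (hcard 0 (by omega)) (hcard 1 (by omega))
      (hdis 0 1 (by omega) (by omega))).1 hword
    have har : a' ≤ r := by
      have : (a' :: lam).sum = a' + lam.sum := List.sum_cons
      omega
    have hmE1 : mn (E (el s 1)) < L := hL _ (hFK _ (hmem 1 (by omega)))
    have hlt : ∀ i < a, el (E (el s 0)) i < L := by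
      intro i hi
      have h1 : el (E (el s 0)) i < el (E (el s 1)) 0 := by
        rw [hT i (by omega) 0 (by omega)]
        right
        rw [hb]
        have hia : i < a' := by omega
        have h0a : 0 < a' := by omega
        simp only [bi, if_pos hia, if_pos h0a, true_and]
        cases b with
        | nil => simp at hb
        | cons p b =>
          simp at hhead
          simp [hhead]
      rw [← (mn_eq _ (hne _ (hmem 1 (by omega)))).1] at h1
      exact h1.trans hmE1
    have hbad : ((E (el s 0)).filter (fun x => x < L)).card < a :=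
      (Finset.mem_filter.1 (hmem 0 (by omega))).2
    have hge : a ≤ ((E (el s 0)).filter (fun x => x < L)).card := by
      have h1 : ((range a).image (el (E (el s 0)))) ⊆ (E (el s 0)).filter (fun x => x < L) := by
        intro x hx
        obtain ⟨i, hi, rfl⟩ := Finset.mem_image.1 hx
        rw [Finset.mem_range] at hi
        rw [Finset.mem_filter]
        exact ⟨el_mem _ _ (by rw [hcard 0 (by omega)]; omega), hlt i hi⟩
      have h2 := Finset.card_le_card h1
      rw [Finset.card_image_of_injOn, Finset.card_range] at h2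
      · exact h2
      · intro i hi j hj hij
        have hi' : i < a := by simpa using hi
        have hj' : j < a := by simpa using hj
        exact el_inj (E (el s 0)) i j (by rw [hcard 0 (by omega)]; omega)
          (by rw [hcard 0 (by omega)]; omega) hij
    omega

end Pool.Agent.Work.MP_7d1693_pr
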