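import Pool.Agent.Work.MP_7d1693_pr.PAT

/-!
Module CNT1: the number of perfect matchings all of whose orders avoid a permutation.
-/

namespace Pool.Agent.Work.MP_7d1693_pr

open Finset

/-- the vertices with index `j` -/
noncomputable def Zi {r k : ℕ} (ι : Fin (r * k) → Fin r) (j : ℕ) : Finset ℕ :=
  ((univ : Finset (Fin (r * k))).filter (fun x => (ι x : ℕ) = j)).image
    (fun x : Fin (r * k) => (x : ℕ))

theorem idx_lt {r : ℕ} (j : Fin r) (h : ¬ (j : ℕ) = 0) : (j : ℕ) - 1 < r - 1 := by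
  have := j.2
  omega

/-- the matching with a given code -/
noncomputable def dec {r k l : ℕ} (τ : Equiv.Perm (Fin l))
    (c : (Fin (r * k) → Fin r) × (Fin (r - 1) → {σ : Equiv.Perm (Fin k) // ¬ Contains τ σ})) :
    Finset (Finset ℕ) :=
  univ.image (fun i : Fin k => univ.image (fun j : Fin r =>
    el (Zi c.1 j) (if h : (j : ℕ) = 0 then (i : ℕ)
      else ((c.2 ⟨(j : ℕ) - 1, idx_lt j h⟩).1 i : ℕ))))

theorem fam_eq {r : ℕ} {K : Finset (Finset ℕ)} (hK : Fam r K) {e f : Finset ℕ} (he : e ∈ K)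
    (hf : f ∈ K) {x : ℕ} (hx : x ∈ e) (hx' : x ∈ f) : e = f := by
  by_contra hne
  exact Finset.disjoint_left.1 (hK.2 e he f hf hne) hx hx'

theorem el_index {r : ℕ} {K : Finset (Finset ℕ)} (hK : Fam r K) {e f : Finset ℕ} (he : e ∈ K)
    (hf : f ∈ K) {i j : ℕ} (hi : i < r) (hj : j < r) (h : el e i = el f j) : e = f ∧ i = j := by
  have h1 : el e i ∈ e := el_mem e i (by rw [hK.1 e he]; exact hi)
  have h2 : el f j ∈ f := el_mem f j (by rw [hK.1 f hf]; exact hj)
  have h3 : e = f := fam_eq hK he hf h1 (by rw [h]; exact h2)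
  refine ⟨h3, ?_⟩
  subst h3
  exact el_inj e i j (by rw [hK.1 e he]; exact hi) (by rw [hK.1 e he]; exact hj) h

theorem pms_card {r k : ℕ} (hr : 1 ≤ r) {K : Finset (Finset ℕ)} (hK : Fam r K)
    (hs : K.sup id = range (r * k)) : K.card = k := by
  have h1 : (K.biUnion id).card = K.card * r := by
    rw [Finset.card_biUnion]
    · simp only [id_eq]
      rw [Finset.sum_congr rfl (fun e he => hK.1 e he), Finset.sum_const, smul_eq_mul]
    · intro e he f hf hne
      exact hK.2 e he f hf hne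
  have h2 : K.biUnion id = range (r * k) := by
    rw [← hs, Finset.sup_eq_biUnion]
  rw [h2, Finset.card_range, mul_comm] at h1
  exact (Nat.eq_of_mul_eq_mul_right hr h1).symm

theorem exists_code {r k l : ℕ} (hr : 1 ≤ r) (τ : Equiv.Perm (Fin l)) (K : Finset (Finset ℕ))
    (hK : Fam r K) (hs : K.sup id = range (r * k)) (ha : ∀ j < r, 0 < j → ¬ Occ j τ K) :
    ∃ c : (Fin (r * k) → Fin r) × (Fin (r - 1) → {σ : Equiv.Perm (Fin k) // ¬ Contains τ σ}),
      dec τ c = K := by
  classical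
  have hcard := pms_card hr hK hs
  -- the index function
  have h1 : ∀ x : Fin (r * k), ∃ j : Fin r, ∃ e ∈ K, el e j = x := by
    intro x
    have hx : (x : ℕ) ∈ K.sup id := by rw [hs]; simp
    rw [Finset.mem_sup] at hx
    obtain ⟨e, he, hxe⟩ := hx
    obtain ⟨j, hj, hje⟩ := exists_el e x hxe
    rw [hK.1 e he] at hj
    exact ⟨⟨j, hj⟩, e, he, hje⟩
  choose ι hι using h1
  have hmemsup : ∀ e ∈ K, ∀ x ∈ e, x < r * k := by
    intro e he x hx
    have : x ∈ K.sup id := Finset.mem_sup.2 ⟨e, he, hx⟩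
    rw [hs] at this
    exact Finset.mem_range.1 this
  have hZmem : ∀ j < r, ∀ x, x ∈ Zi ι j ↔ ∃ e ∈ K, el e j = x := by
    intro j hj x
    unfold Zi
    rw [Finset.mem_image]
    constructor
    · rintro ⟨y, hy, rfl⟩
      rw [Finset.mem_filter] at hy
      obtain ⟨e, he, hey⟩ := hι y
      rw [hy.2] at hey
      exact ⟨e, he, hey⟩
    · rintro ⟨e, he, hex⟩
      have hxe : x ∈ e := by
        rw [← hex]; exact el_mem e j (by rw [hK.1 e he]; exact hj)
      refine ⟨⟨x, hmemsup e he x hxe⟩, ?_, rfl⟩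
      rw [Finset.mem_filter]
      refine ⟨Finset.mem_univ _, ?_⟩
      obtain ⟨e', he', hex'⟩ := hι ⟨x, hmemsup e he x hxe⟩
      exact (el_index hK he' he (Fin.is_lt _) hj (hex'.trans hex.symm)).2
  have hZ : ∀ j < r, Zi ι j = K.image (fun e => el e j) := by
    intro j hj
    ext x
    rw [hZmem j hj, Finset.mem_image]
  have hZcard : ∀ j < r, (Zi ι j).card = k := by
    intro j hj
    rw [hZ j hj, Finset.card_image_of_injOn, hcard]
    intro e he f hf hef
    exact (el_index hK he hf hj hj hef).1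
  -- sorted enumeration of the edges
  have h2 : ∀ i : Fin k, ∃ e ∈ K, el e 0 = el (Zi ι 0) i := by
    intro i
    have := el_mem (Zi ι 0) i (by rw [hZcard 0 hr]; exact i.2)
    exact (hZmem 0 hr _).1 this
  choose E hE hE0 using h2
  have hEsurj : ∀ e ∈ K, ∃ i, E i = e := by
    intro e he
    have h3 : el e 0 ∈ Zi ι 0 := (hZmem 0 hr _).2 ⟨e, he, rfl⟩
    obtain ⟨i, hi, hie⟩ := exists_el _ _ h3
    rw [hZcard 0 hr] at hi
    refine ⟨⟨i, hi⟩, (el_index hK (hE _) he hr hr ?_).1⟩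
    rw [hE0]
    exact hie
  have hEinj : ∀ i i', E i = E i' → i = i' := by
    intro i i' h
    have h3 := hE0 i
    rw [h, hE0 i'] at h3
    exact Fin.ext (el_inj _ _ _ (by rw [hZcard 0 hr]; exact i.2)
      (by rw [hZcard 0 hr]; exact i'.2) h3.symm)
  -- permutations
  have h4 : ∀ (j : Fin r) (i : Fin k), ∃ i' : Fin k, el (Zi ι j) i' = el (E i) j := by
    intro j i
    have h3 : el (E i) j ∈ Zi ι j := (hZmem j j.2 _).2 ⟨E i, hE i, rfl⟩
    obtain ⟨i', hi, hie⟩ := exists_el _ _ h3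
    rw [hZcard j j.2] at hi
    exact ⟨⟨i', hi⟩, hie⟩
  choose s hsE using h4
  have hsinj : ∀ j, Function.Injective (s j) := by
    intro j i i' h
    have h5 := hsE j i
    rw [h, hsE j i'] at h5
    exact hEinj _ _ (el_index hK (hE i') (hE i) j.2 j.2 h5).1.symm
  have hsbij : ∀ j, Function.Bijective (s j) := fun j =>
    Finite.injective_iff_bijective.1 (hsinj j)
  have havoid : ∀ j : Fin r, 0 < (j : ℕ) → ¬ Contains τ (Equiv.ofBijective (s j) (hsbij j)) := by
    rintro j hj ⟨φ, ψ, hφ⟩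
    apply ha j j.2 hj
    refine ⟨fun i => E (φ i), fun i => hE _, ?_, ?_⟩
    · intro i i' hii
      have e1 := (mn_eq (E (φ i)) (Finset.card_pos.1 (by rw [hK.1 _ (hE _)]; exact hr))).1
      have e2 := (mn_eq (E (φ i')) (Finset.card_pos.1 (by rw [hK.1 _ (hE _)]; exact hr))).1
      rw [e1, e2, hE0, hE0]
      exact el_lt _ _ _ (φ.strictMono hii) (by rw [hZcard 0 hr]; exact Fin.is_lt _)
    · intro i i' hii
      have e1 := hsE j (φ i)
      have e2 := hsE j (φ i')
      have e3 : s j (φ i) = ψ (τ i) := hφ i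
      have e4 : s j (φ i') = ψ (τ i') := hφ i'
      rw [e3] at e1
      rw [e4] at e2
      simp only
      rw [← e1, ← e2]
      exact el_lt _ _ _ (ψ.strictMono hii) (by rw [hZcard j j.2]; exact Fin.is_lt _)
  refine ⟨(ι, fun j => ⟨Equiv.ofBijective (s ⟨(j : ℕ) + 1, by omega⟩) (hsbij _),
    havoid _ (by simp)⟩), ?_⟩
  unfold dec
  have hedge : ∀ i : Fin k, (univ.image (fun j : Fin r =>
      el (Zi ι j) (if h : (j : ℕ) = 0 then (i : ℕ)
        else ((Equiv.ofBijective (s ⟨((⟨(j : ℕ) - 1, idx_lt j h⟩ : Fin (r - 1)) : ℕ) + 1,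
          by have := idx_lt j h; simp only; omega⟩) (hsbij _)) i : ℕ)))) = E i := by
    intro i
    have h6 : ∀ j : Fin r, el (Zi ι j) (if h : (j : ℕ) = 0 then (i : ℕ)
        else ((Equiv.ofBijective (s ⟨((⟨(j : ℕ) - 1, idx_lt j h⟩ : Fin (r - 1)) : ℕ) + 1,
          by have := idx_lt j h; simp only; omega⟩) (hsbij _)) i : ℕ)) = el (E i) j := by
      intro j
      by_cases hj : (j : ℕ) = 0
      · rw [dif_pos hj, hj, ← hE0 i]
      · rw [dif_neg hj, Equiv.ofBijective_apply]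
        have h7 : (⟨((⟨(j : ℕ) - 1, idx_lt j hj⟩ : Fin (r - 1)) : ℕ) + 1,
          by have := idx_lt j hj; simp only; omega⟩ : Fin r) = j := by
          apply Fin.ext
          simp only
          omega
        rw [h7, hsE j i]
    rw [Finset.image_congr (fun j _ => h6 j)]
    ext x
    rw [Finset.mem_image]
    constructor
    · rintro ⟨j, -, rfl⟩
      exact el_mem _ _ (by rw [hK.1 _ (hE i)]; exact j.2)
    · intro hx
      obtain ⟨j, hj, hjx⟩ := exists_el _ _ hx
      rw [hK.1 _ (hE i)] at hj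
      exact ⟨⟨j, hj⟩, Finset.mem_univ _, hjx⟩
  rw [Finset.image_congr (fun i _ => hedge i)]
  ext e
  rw [Finset.mem_image]
  constructor
  · rintro ⟨i, -, rfl⟩
    exact hE i
  · intro he
    obtain ⟨i, hi⟩ := hEsurj e he
    exact ⟨i, Finset.mem_univ _, hi⟩

theorem count_le (r k : ℕ) (hr : 1 ≤ r) (l : ℕ) (τ : Equiv.Perm (Fin l))
    (T : Finset (Finset (Finset ℕ)))
    (hT : ∀ K ∈ T, K ∈ PMs r (range (r * k)) ∧ ∀ j < r, 0 < j → ¬ Occ j τ K) :
    T.card ≤ r ^ (r * k) * (avc τ k) ^ (r - 1) := by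
  classical
  have hsub : T ⊆ (univ : Finset ((Fin (r * k) → Fin r) ×
      (Fin (r - 1) → {σ : Equiv.Perm (Fin k) // ¬ Contains τ σ}))).image (dec τ) := by
    intro K hK
    obtain ⟨h1, h2⟩ := hT K hK
    unfold PMs at h1
    rw [Finset.mem_filter] at h1
    obtain ⟨c, hc⟩ := exists_code hr τ K h1.2.1 h1.2.2 h2
    exact Finset.mem_image.2 ⟨c, Finset.mem_univ _, hc⟩
  refine (Finset.card_le_card hsub).trans (Finset.card_image_le.trans ?_)
  rw [Finset.card_univ, Fintype.card_prod, Fintype.card_fun, Fintype.card_fun,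
    Fintype.card_fin, Fintype.card_fin, Fintype.card_fin]
  unfold avc
  rw [Nat.card_eq_fintype_card]

end Pool.Agent.Work.MP_7d1693_pr
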