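import Pool.Agent.Work.MP_7d1693_pr.Base

namespace Pool.Agent.Work.MP_7d1693_pr

open Finset

/-- rank of `x` in `U` -/
def c2_rk (U : Finset ℕ) (x : ℕ) : ℕ := (U.filter (fun y => y < x)).card

theorem c2_rk_lt (U : Finset ℕ) {x y : ℕ} (hx : x ∈ U) (hxy : x < y) : c2_rk U x < c2_rk U y := by
  apply card_lt_card
  rw [Finset.ssubset_iff_of_subset]
  · exact ⟨x, mem_filter.2 ⟨hx, hxy⟩, by simp⟩
  · intro z hz
    rw [mem_filter] at hz ⊢
    exact ⟨hz.1, hz.2.trans hxy⟩

theorem c2_rk_strictMonoOn (U : Finset ℕ) : StrictMonoOn (c2_rk U) (U : Set ℕ) :=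
  fun _ hx _ _ hxy => c2_rk_lt U hx hxy

theorem c2_rk_injOn (U : Finset ℕ) : Set.InjOn (c2_rk U) (U : Set ℕ) :=
  (c2_rk_strictMonoOn U).injOn

theorem c2_rk_image (U : Finset ℕ) : U.image (c2_rk U) = range U.card := by
  apply Finset.eq_of_subset_of_card_le
  · intro j hj
    rw [mem_image] at hj
    obtain ⟨x, hx, rfl⟩ := hj
    rw [mem_range]
    apply card_lt_card
    rw [Finset.ssubset_iff_of_subset (filter_subset _ _)]
    exact ⟨x, hx, by simp⟩
  · rw [card_range, card_image_of_injOn (c2_rk_injOn U)]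

theorem c2_sort_image (s : Finset ℕ) (ρ : ℕ → ℕ) (h : StrictMonoOn ρ (s : Set ℕ)) :
    (s.image ρ).sort (· ≤ ·) = (s.sort (· ≤ ·)).map ρ := by
  have hnd : ((s.sort (· ≤ ·)).map ρ).Nodup := by
    apply List.Nodup.map_on _ (Finset.sort_nodup _ _)
    intro x hx y hy hxy
    rw [Finset.mem_sort] at hx hy
    exact h.injOn hx hy hxy
  have htf : ((s.sort (· ≤ ·)).map ρ).toFinset = s.image ρ := by
    ext x
    simp
  rw [← htf]
  rw [List.toFinset_sort (· ≤ ·) hnd]
  rw [List.pairwise_map]
  refine List.Pairwise.imp_of_mem ?_ (Finset.pairwise_sort s (· ≤ ·))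
  intro x y hx hy hxy
  rw [Finset.mem_sort] at hx hy
  exact h.monotoneOn hx hy hxy

theorem c2_pat_image (U e f : Finset ℕ) (he : e ⊆ U) (hf : f ⊆ U) :
    pat (e.image (c2_rk U)) (f.image (c2_rk U)) = pat e f := by
  unfold pat
  rw [← Finset.image_union, c2_sort_image (e ∪ f) (c2_rk U)
    ((c2_rk_strictMonoOn U).mono (by rw [coe_subset]; exact union_subset he hf)), List.map_map]
  apply List.map_congr_left
  intro x hx
  rw [Finset.mem_sort] at hx
  have hxU : x ∈ U := union_subset he hf hx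
  rw [Function.comp_apply, decide_eq_decide]
  constructor
  · intro h
    rw [mem_image] at h
    obtain ⟨y, hy, hyx⟩ := h
    rwa [← c2_rk_injOn U (he hy) hxU hyx]
  · intro h
    exact mem_image_of_mem _ h

theorem c2_min_lt_iff (e f : Finset ℕ) (he : e.Nonempty) (hf : f.Nonempty) :
    e.min < f.min ↔ ∃ x ∈ e, ∀ y ∈ f, x < y := by
  rw [← Finset.coe_min' he, ← Finset.coe_min' hf, WithTop.coe_lt_coe]
  constructor
  · intro h
    exact ⟨_, Finset.min'_mem e he, fun y hy => lt_of_lt_of_le h (Finset.min'_le f y hy)⟩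
  · rintro ⟨x, hx, h⟩
    exact lt_of_le_of_lt (Finset.min'_le e x hx) (h _ (Finset.min'_mem f hf))

theorem c2_min_image (U e f : Finset ℕ) (he : e ⊆ U) (hf : f ⊆ U) (hne : e.Nonempty)
    (hnf : f.Nonempty) (h : (e.image (c2_rk U)).min < (f.image (c2_rk U)).min) : e.min < f.min := by
  rw [c2_min_lt_iff _ _ (hne.image _) (hnf.image _)] at h
  rw [c2_min_lt_iff _ _ hne hnf]
  obtain ⟨x', hx', h⟩ := h
  rw [mem_image] at hx'
  obtain ⟨x, hx, rfl⟩ := hx'
  refine ⟨x, hx, fun y hy => ?_⟩
  have := h _ (mem_image_of_mem _ hy)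
  exact ((c2_rk_strictMonoOn U).lt_iff_lt (he hx) (hf hy)).1 this

/-- the normalised family -/
def c2_nrm (K : Finset (Finset ℕ)) : Finset (Finset ℕ) :=
  K.image (fun e => e.image (c2_rk (K.sup id)))

theorem c2_sub_sup (K : Finset (Finset ℕ)) {e : Finset ℕ} (he : e ∈ K) : e ⊆ K.sup id :=
  Finset.le_sup (f := id) he

theorem c2_card_sup (r : ℕ) (K : Finset (Finset ℕ)) (hK : Fam r K) : (K.sup id).card = r * K.card := by
  rw [Finset.sup_eq_biUnion, Finset.card_biUnion (t := id)
    (fun e he f hf hef => hK.2 e he f hf hef)]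
  rw [Finset.sum_congr (g := fun _ => r) rfl (fun e he => (hK.1 e he : (id e).card = r))]
  rw [Finset.sum_const, smul_eq_mul, mul_comm]

theorem c2_nrm_mem (r k : ℕ) (K : Finset (Finset ℕ)) (hK : Fam r K) (hk : K.card = k) :
    c2_nrm K ∈ PMs r (range (r * k)) := by
  classical
  unfold PMs
  have hU : (K.sup id).card = r * k := by rw [c2_card_sup r K hK, hk]
  have him := c2_rk_image (K.sup id)
  rw [hU] at him
  rw [mem_filter]
  refine ⟨?_, ?_, ?_⟩
  · rw [mem_powerset]
    intro e' he'
    rw [c2_nrm, mem_image] at he'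
    obtain ⟨e, he, rfl⟩ := he'
    rw [mem_powerset, ← him]
    exact image_subset_image (c2_sub_sup K he)
  · constructor
    · intro e' he'
      rw [c2_nrm, mem_image] at he'
      obtain ⟨e, he, rfl⟩ := he'
      rw [card_image_of_injOn ((c2_rk_injOn _).mono (by
        rw [coe_subset]; exact c2_sub_sup K he))]
      exact hK.1 e he
    · intro e' he' f' hf' hne
      rw [c2_nrm, mem_image] at he' hf'
      obtain ⟨e, he, rfl⟩ := he'
      obtain ⟨f, hf, rfl⟩ := hf'
      have hef : e ≠ f := fun h => hne (by rw [h])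
      rw [Finset.disjoint_left]
      intro x hx hx2
      rw [mem_image] at hx hx2
      obtain ⟨y, hy, rfl⟩ := hx
      obtain ⟨z, hz, hzy⟩ := hx2
      have := c2_rk_injOn _ (c2_sub_sup K hf hz) (c2_sub_sup K he hy) hzy
      subst this
      exact (Finset.disjoint_left.1 (hK.2 e he f hf hef)) hy hz
  · rw [← him, c2_nrm]
    ext x
    rw [Finset.mem_sup, mem_image]
    constructor
    · rintro ⟨e', he', hx⟩
      rw [mem_image] at he'
      obtain ⟨e, he, rfl⟩ := he'
      rw [id, mem_image] at hx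
      obtain ⟨y, hy, rfl⟩ := hx
      exact ⟨y, c2_sub_sup K he hy, rfl⟩
    · rintro ⟨y, hy, rfl⟩
      rw [Finset.mem_sup] at hy
      obtain ⟨e, he, hy⟩ := hy
      exact ⟨_, mem_image_of_mem _ he, mem_image_of_mem _ hy⟩

theorem c2_nrm_clique (r : ℕ) (hr : 1 ≤ r) (P : Set (List Bool)) (K : Finset (Finset ℕ))
    (hK : Fam r K) (hc : IsClique P K) : IsClique P (c2_nrm K) := by
  intro e' he' f' hf' hlt
  rw [c2_nrm, mem_image] at he' hf'
  obtain ⟨e, he, rfl⟩ := he'
  obtain ⟨f, hf, rfl⟩ := hf'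
  rw [c2_pat_image _ e f (c2_sub_sup K he) (c2_sub_sup K hf)]
  apply hc e he f hf
  apply c2_min_image _ e f (c2_sub_sup K he) (c2_sub_sup K hf) _ _ hlt
  · rw [← card_pos, hK.1 e he]; omega
  · rw [← card_pos, hK.1 f hf]; omega

theorem c2_nrm_inj (K K' : Finset (Finset ℕ)) (h1 : K.sup id = K'.sup id) (h2 : c2_nrm K = c2_nrm K') :
    K = K' := by
  have key : ∀ K : Finset (Finset ℕ),
      K = (c2_nrm K).image (fun e' => (K.sup id).filter (fun x => c2_rk (K.sup id) x ∈ e')) := by
    intro K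
    rw [c2_nrm, image_image]
    have : ∀ e ∈ K, ((fun e' => (K.sup id).filter (fun x => c2_rk (K.sup id) x ∈ e')) ∘
        (fun e => e.image (c2_rk (K.sup id)))) e = e := by
      intro e he
      ext x
      simp only [Function.comp_apply, mem_filter, mem_image]
      constructor
      · rintro ⟨hx, y, hy, hyx⟩
        rwa [← c2_rk_injOn _ (c2_sub_sup K he hy) hx hyx]
      · intro hx
        exact ⟨c2_sub_sup K he hx, x, hx, rfl⟩
    conv_lhs => rw [← Finset.image_id (s := K)]
    apply Finset.image_congr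
    intro e he
    exact (this e he).symm
  rw [key K, key K', h1, h2]

theorem count_cliques (r : ℕ) (hr : 1 ≤ r) (P : Set (List Bool)) (n k a L B : ℕ) (ha : a ≤ r)
    (hB : ∀ T : Finset (Finset (Finset ℕ)),
      (∀ K ∈ T, K ∈ PMs r (range (r * k)) ∧ IsClique P K) → T.card ≤ B)
    (T : Finset (Finset (Finset ℕ)))
    (hT : ∀ K ∈ T, Fam r K ∧ K.card = k ∧ IsClique P K ∧
      (∀ e ∈ K, e ⊆ range (r * n) ∧ a ≤ (e.filter (fun x => x < L)).card)) :
    T.card ≤ B * (L.choose (a * k) * (r * n).choose ((r - a) * k)) := by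
  classical
  have hT' : (T.image c2_nrm).card ≤ B := by
    apply hB
    intro K' hK'
    rw [mem_image] at hK'
    obtain ⟨K, hK, rfl⟩ := hK'
    obtain ⟨h1, h2, h3, _⟩ := hT K hK
    exact ⟨c2_nrm_mem r k K h1 h2, c2_nrm_clique r hr P K h1 h3⟩
  set X : Finset (Finset ℕ) → Finset ℕ := fun K =>
    (K.sup id).filter (fun x => c2_rk (K.sup id) x < a * k) with hX
  set Y : Finset (Finset ℕ) → Finset ℕ := fun K =>
    (K.sup id).filter (fun x => ¬ c2_rk (K.sup id) x < a * k) with hY
  have hXc : ∀ K ∈ T, (X K).card = a * k := by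
    intro K hK
    obtain ⟨h1, h2, _, _⟩ := hT K hK
    have hU : (K.sup id).card = r * k := by rw [c2_card_sup r K h1, h2]
    rw [← card_image_of_injOn (f := c2_rk (K.sup id)) (s := X K) ((c2_rk_injOn _).mono (by
      rw [coe_subset]; exact filter_subset _ _))]
    have : (X K).image (c2_rk (K.sup id)) = range (a * k) := by
      have him := c2_rk_image (K.sup id)
      rw [hU] at him
      ext j
      rw [mem_image, mem_range]
      constructor
      · rintro ⟨x, hx, rfl⟩
        rw [hX, mem_filter] at hx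
        exact hx.2
      · intro hj
        have : j ∈ range (r * k) := mem_range.2 (lt_of_lt_of_le hj (Nat.mul_le_mul_right _ ha))
        rw [← him, mem_image] at this
        obtain ⟨x, hx, rfl⟩ := this
        exact ⟨x, by rw [hX, mem_filter]; exact ⟨hx, hj⟩, rfl⟩
    rw [this, card_range]
  have hYc : ∀ K ∈ T, (Y K).card = (r - a) * k := by
    intro K hK
    obtain ⟨h1, h2, _, _⟩ := hT K hK
    have hU : (K.sup id).card = r * k := by rw [c2_card_sup r K h1, h2]
    have := Finset.card_filter_add_card_filter_not (s := K.sup id)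
      (fun x => c2_rk (K.sup id) x < a * k)
    have h3 := hXc K hK
    rw [hX] at h3
    rw [hY]
    simp only at h3 ⊢
    rw [h3, hU] at this
    rw [Nat.sub_mul]
    omega
  have hXL : ∀ K ∈ T, X K ⊆ range L := by
    intro K hK x hx
    obtain ⟨h1, h2, _, h4⟩ := hT K hK
    rw [hX, mem_filter] at hx
    rw [mem_range]
    by_contra hxL
    push Not at hxL
    have h5 : a * k ≤ c2_rk (K.sup id) x := by
      have h6 : (K.biUnion (fun e => e.filter (fun x => x < L))) ⊆
          (K.sup id).filter (fun y => y < x) := by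
        intro y hy
        rw [mem_biUnion] at hy
        obtain ⟨e, he, hy⟩ := hy
        rw [mem_filter] at hy ⊢
        exact ⟨c2_sub_sup K he hy.1, by omega⟩
      have h7 : (K.biUnion (fun e => e.filter (fun x => x < L))).card =
          ∑ e ∈ K, (e.filter (fun x => x < L)).card := by
        apply Finset.card_biUnion
        intro e he f hf hef
        exact Finset.disjoint_filter_filter (h1.2 e he f hf hef)
      have h8 : K.card * a ≤ ∑ e ∈ K, (e.filter (fun x => x < L)).card := by
        rw [← smul_eq_mul]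
        exact Finset.card_nsmul_le_sum K _ a (fun e he => (h4 e he).2)
      have h9 := card_le_card h6
      rw [h7] at h9
      rw [h2, mul_comm] at h8
      exact h8.trans h9
    omega
  have hYn : ∀ K ∈ T, Y K ⊆ range (r * n) := by
    intro K hK x hx
    obtain ⟨_, _, _, h4⟩ := hT K hK
    rw [hY, mem_filter, Finset.mem_sup] at hx
    obtain ⟨⟨e, he, hx⟩, _⟩ := hx
    exact (h4 e he).1 hx
  have hinj := Finset.card_le_card_of_injOn (s := T)
    (t := (T.image c2_nrm) ×ˢ ((range L).powersetCard (a * k) ×ˢ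
      (range (r * n)).powersetCard ((r - a) * k)))
    (fun K => (c2_nrm K, X K, Y K)) ?_ ?_
  · rw [card_product, card_product, card_powersetCard, card_powersetCard, card_range,
      card_range] at hinj
    exact hinj.trans (Nat.mul_le_mul_right _ hT')
  · intro K hK
    rw [mem_coe] at hK
    rw [mem_coe, mem_product, mem_product, mem_powersetCard, mem_powersetCard]
    exact ⟨mem_image_of_mem _ hK, ⟨hXL K hK, hXc K hK⟩, ⟨hYn K hK, hYc K hK⟩⟩
  · intro K hK K' hK' h
    simp only [Prod.mk.injEq] at h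
    obtain ⟨h1, h2, h3⟩ := h
    apply c2_nrm_inj K K' _ h1
    have e1 : ∀ K : Finset (Finset ℕ), K.sup id = X K ∪ Y K := by
      intro K
      rw [hX, hY]
      exact (Finset.filter_union_filter_not_eq _ _).symm
    rw [e1 K, e1 K', h2, h3]

end Pool.Agent.Work.MP_7d1693_pr
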