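import Pool.Agent.Work.MP_7d1693_pr.MT1

/-!
Module MT2: from the matrix theorem to the exponential bound for the number of
permutations avoiding a fixed one (Klazar's argument).
-/

namespace Pool.Agent.Work.MP_7d1693_pr

open Finset

open Classical in
/-- number of `τ`-avoiding subsets of the `k × k` grid -/
noncomputable def tav {l : ℕ} (τ : Equiv.Perm (Fin l)) (k : ℕ) : ℕ :=
  ((range k ×ˢ range k).powerset.filter (fun A => ¬ MCon τ A)).card

theorem avc_le_tav {l : ℕ} (τ : Equiv.Perm (Fin l)) (k : ℕ) : avc τ k ≤ tav τ k := by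
  classical
  have key : ∀ σ : Equiv.Perm (Fin k), ¬ Contains τ σ →
      (Finset.univ.image (fun i : Fin k => ((i : ℕ), ((σ i : Fin k) : ℕ)))) ∈
        (range k ×ˢ range k).powerset.filter (fun A => ¬ MCon τ A) := by
    intro σ hσ
    rw [Finset.mem_filter, Finset.mem_powerset]
    constructor
    · intro p hp
      obtain ⟨i, -, rfl⟩ := Finset.mem_image.1 hp
      simp
    · rintro ⟨f, g, hf, hg, hfg⟩
      apply hσ
      have h1 : ∀ i, ∃ a : Fin k, (a : ℕ) = f i ∧ ((σ a : Fin k) : ℕ) = g (τ i) := by
        intro i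
        obtain ⟨a, -, ha⟩ := Finset.mem_image.1 (hfg i)
        rw [Prod.mk.injEq] at ha
        exact ⟨a, ha.1, ha.2⟩
      choose a ha1 ha2 using h1
      refine ⟨OrderEmbedding.ofStrictMono a ?_,
        OrderEmbedding.ofStrictMono (fun j => σ (a (τ.symm j))) ?_, ?_⟩
      · intro i j hij
        have := hf hij
        rw [← ha1, ← ha1] at this
        exact this
      · intro i j hij
        have := hg hij
        have e1 := ha2 (τ.symm i)
        have e2 := ha2 (τ.symm j)
        rw [Equiv.apply_symm_apply] at e1 e2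
        rw [← e1, ← e2] at this
        exact this
      · intro i
        simp
  have hinj : Function.Injective (fun σ : {σ : Equiv.Perm (Fin k) // ¬ Contains τ σ} =>
      (⟨_, key σ.1 σ.2⟩ : {A // A ∈ (range k ×ˢ range k).powerset.filter
        (fun A => ¬ MCon τ A)})) := by
    intro σ ρ h
    rw [Subtype.mk.injEq] at h
    apply Subtype.ext
    apply Equiv.ext
    intro i
    have h2 : ((i : ℕ), ((σ.1 i : Fin k) : ℕ)) ∈
        (Finset.univ.image (fun i : Fin k => ((i : ℕ), ((ρ.1 i : Fin k) : ℕ)))) := by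
      rw [← h]
      exact Finset.mem_image_of_mem _ (Finset.mem_univ i)
    obtain ⟨j, -, hj⟩ := Finset.mem_image.1 h2
    rw [Prod.mk.injEq] at hj
    have hji : j = i := Fin.ext hj.1
    rw [hji] at hj
    exact (Fin.ext hj.2).symm
  have h3 := Nat.card_le_card_of_injective _ hinj
  rw [Nat.card_eq_fintype_card (α := {A // A ∈ _}), Fintype.card_coe] at h3
  exact h3

theorem tav_step {l : ℕ} (τ : Equiv.Perm (Fin l)) (c : ℕ)
    (hc : ∀ n, ∀ A ⊆ range n ×ˢ range n, ¬ MCon τ A → A.card ≤ c * n) (k : ℕ) :
    tav τ k ≤ 2 ^ (4 * (c * ((k + 1) / 2))) * tav τ ((k + 1) / 2) := by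
  classical
  unfold tav
  apply Finset.card_le_mul_card_image_of_maps_to
    (f := fun A : Finset (ℕ × ℕ) => A.image (fun p => (p.1 / 2, p.2 / 2)))
  · intro A hA
    rw [Finset.mem_filter, Finset.mem_powerset] at hA ⊢
    obtain ⟨hA1, hA2⟩ := hA
    constructor
    · intro q hq
      obtain ⟨p, hp, rfl⟩ := Finset.mem_image.1 hq
      have := hA1 hp
      rw [Finset.mem_product, Finset.mem_range, Finset.mem_range] at this ⊢
      simp only
      omega
    · rintro ⟨f, g, hf, hg, hfg⟩
      apply hA2
      have h1 : ∀ i, ∃ p ∈ A, p.1 / 2 = f i ∧ p.2 / 2 = g (τ i) := by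
        intro i
        obtain ⟨p, hp, hpe⟩ := Finset.mem_image.1 (hfg i)
        rw [Prod.mk.injEq] at hpe
        exact ⟨p, hp, hpe.1, hpe.2⟩
      choose p hp hp1 hp2 using h1
      refine ⟨fun i => (p i).1, fun j => (p (τ.symm j)).2, ?_, ?_, ?_⟩
      · intro i j hij
        have := hf hij
        have e1 := hp1 i
        have e2 := hp1 j
        simp only
        omega
      · intro i j hij
        have := hg hij
        have e1 := hp2 (τ.symm i)
        have e2 := hp2 (τ.symm j)
        rw [Equiv.apply_symm_apply] at e1 e2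
        simp only
        omega
      · intro i
        simp only [Equiv.symm_apply_apply]
        exact hp i
  · intro B hB
    rw [Finset.mem_filter, Finset.mem_powerset] at hB
    have hBc := hc _ B hB.1 hB.2
    have hsub : {A ∈ (range k ×ˢ range k).powerset.filter (fun A => ¬ MCon τ A) |
        A.image (fun p => (p.1 / 2, p.2 / 2)) = B} ⊆
        (B.biUnion (fun q => ({2 * q.1, 2 * q.1 + 1} : Finset ℕ) ×ˢ
          ({2 * q.2, 2 * q.2 + 1} : Finset ℕ))).powerset := by
      intro A hA
      rw [Finset.mem_filter] at hA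
      rw [Finset.mem_powerset]
      intro p hp
      rw [Finset.mem_biUnion]
      refine ⟨(p.1 / 2, p.2 / 2), ?_, ?_⟩
      · rw [← hA.2]
        exact Finset.mem_image_of_mem _ hp
      · simp only [Finset.mem_product, Finset.mem_insert, Finset.mem_singleton]
        omega
    refine (Finset.card_le_card hsub).trans ?_
    rw [Finset.card_powerset]
    apply Nat.pow_le_pow_right (by norm_num)
    refine (Finset.card_biUnion_le_card_mul _ _ 4 ?_).trans ?_
    · intro q _
      rw [Finset.card_product]
      calc _ ≤ 2 * 2 := Nat.mul_le_mul Finset.card_le_two Finset.card_le_two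
        _ = 4 := rfl
    · rw [mul_comm]
      exact Nat.mul_le_mul_left _ hBc

theorem tav_le {l : ℕ} (τ : Equiv.Perm (Fin l)) (c : ℕ)
    (hc : ∀ n, ∀ A ⊆ range n ×ˢ range n, ¬ MCon τ A → A.card ≤ c * n) (k : ℕ) :
    tav τ k ≤ 2 ^ (8 * (c * k) + 4) := by
  classical
  induction k using Nat.strong_induction_on with
  | _ k ih =>
    by_cases hk : k ≤ 2
    · calc tav τ k ≤ (range k ×ˢ range k).powerset.card := Finset.card_filter_le _ _
        _ = 2 ^ (k * k) := by rw [Finset.card_powerset, Finset.card_product, Finset.card_range]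
        _ ≤ 2 ^ (8 * (c * k) + 4) := by
          apply Nat.pow_le_pow_right (by norm_num)
          have : k * k ≤ 2 * 2 := Nat.mul_le_mul hk hk
          omega
    · have hh : (k + 1) / 2 < k := by omega
      refine (tav_step τ c hc k).trans ?_
      refine (Nat.mul_le_mul_left _ (ih _ hh)).trans ?_
      rw [← pow_add]
      apply Nat.pow_le_pow_right (by norm_num)
      have h3 : 3 * ((k + 1) / 2) ≤ 2 * k := by omega
      have h4 : c * (3 * ((k + 1) / 2)) ≤ c * (2 * k) := Nat.mul_le_mul_left _ h3
      nlinarith [h4]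

theorem marcus_tardos (l : ℕ) (τ : Equiv.Perm (Fin l)) : ∃ C : ℕ, ∀ k, avc τ k ≤ C ^ k := by
  classical
  obtain ⟨c, hc⟩ := mt_matrix l τ
  refine ⟨2 ^ (8 * c + 4), fun k => ?_⟩
  rcases Nat.eq_zero_or_pos k with rfl | hk
  · rw [pow_zero]
    unfold avc
    rw [Finite.card_le_one_iff_subsingleton]
    infer_instance
  · refine ((avc_le_tav τ k).trans (tav_le τ c hc k)).trans ?_
    rw [← pow_mul]
    apply Nat.pow_le_pow_right (by norm_num)
    nlinarith [hk]

end Pool.Agent.Work.MP_7d1693_pr
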