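import Pool.Agent.Work.MP_7d1693_pr.PROC

namespace Pool.Agent.Work.MP_7d1693_pr

open Finset

theorem out_struct (r t : ℕ) (hr : 0 < r) (V : Finset ℕ) (h : r * t ≤ V.card)
    (M : Finset (Finset ℕ)) (hM : Out r t V M) :
    M.card = t ∧ Fam r M ∧
      ∀ e ∈ M, e ⊆ V ∧ (V.filter (fun x => x < mn e)).card + r ≤ r * t := by
  classical
  induction t generalizing V M with
  | zero =>
    have hM' : M = ∅ := hM
    subst hM'
    refine ⟨rfl, ⟨by simp, by simp⟩, by simp⟩
  | succ t ih =>
    obtain ⟨S, hS, M', hM', rfl⟩ := hM
    have hrV : r ≤ V.card := le_trans (by nlinarith) h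
    have hVne : V.Nonempty := Finset.card_pos.1 (by omega)
    obtain ⟨hsub, hcr, hcard⟩ := card_sdiff_insert r hr V hVne S hS
    obtain ⟨h1, ⟨h2, h3⟩, h4⟩ := ih (V \ insert (mn V) S) (by nlinarith) M' hM'
    set e0 := insert (mn V) S with he0
    have hdis : ∀ f ∈ M', Disjoint e0 f := by
      intro f hf
      have := (h4 f hf).1
      exact (Finset.disjoint_of_subset_right this Finset.disjoint_sdiff)
    have hnot : e0 ∉ M' := by
      intro hmem
      have := hdis e0 hmem
      rw [disjoint_self, Finset.bot_eq_empty] at this
      rw [this, Finset.card_empty] at hcr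
      omega
    refine ⟨by rw [Finset.card_insert_of_notMem hnot, h1], ⟨?_, ?_⟩, ?_⟩
    · intro e he
      rcases Finset.mem_insert.1 he with rfl | he
      · exact hcr
      · exact h2 e he
    · intro e he f hf hef
      rcases Finset.mem_insert.1 he with rfl | he
      · rcases Finset.mem_insert.1 hf with rfl | hf
        · exact absurd rfl hef
        · exact hdis f hf
      · rcases Finset.mem_insert.1 hf with rfl | hf
        · exact (hdis e he).symm
        · exact h3 e he f hf hef
    · intro e he
      rcases Finset.mem_insert.1 he with rfl | he
      · refine ⟨hsub, ?_⟩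
        have hmn : mn e0 = mn V := by
          apply le_antisymm
          · exact proc_mn_le _ _ (Finset.mem_insert_self _ _)
          · apply proc_mn_le
            exact hsub (proc_mn_mem _ ⟨_, Finset.mem_insert_self _ _⟩)
        have : V.filter (fun x => x < mn e0) = ∅ := by
          apply Finset.filter_eq_empty_iff.2
          intro x hx
          rw [hmn]
          exact not_lt.2 (proc_mn_le V x hx)
        rw [this, Finset.card_empty]
        nlinarith
      · obtain ⟨h5, h6⟩ := h4 e he
        refine ⟨h5.trans Finset.sdiff_subset, ?_⟩
        have hle : (V.filter (fun x => x < mn e)).card ≤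
            ((V \ e0).filter (fun x => x < mn e)).card + e0.card := by
          calc (V.filter (fun x => x < mn e)).card
              ≤ (((V \ e0).filter (fun x => x < mn e)) ∪ e0).card := by
                apply Finset.card_le_card
                intro x hx
                rw [Finset.mem_filter] at hx
                by_cases hxe : x ∈ e0
                · exact Finset.mem_union_right _ hxe
                · exact Finset.mem_union_left _ (Finset.mem_filter.2
                    ⟨Finset.mem_sdiff.2 ⟨hx.1, hxe⟩, hx.2⟩)
            _ ≤ _ := Finset.card_union_le _ _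
        rw [hcr] at hle
        nlinarith

end Pool.Agent.Work.MP_7d1693_pr
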