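import Pool.Agent.Work.MP_7d1693_pr.Base

namespace Pool.Agent.Work.MP_7d1693_pr

open Finset

theorem pr_zero (r : ℕ) (V : Finset ℕ) (E : Finset (Finset ℕ) → Prop) [Decidable (E ∅)] :
    pr r 0 V E = if E ∅ then 1 else 0 := by
  unfold pr
  congr

theorem pr_succ (r t : ℕ) (V : Finset ℕ) (E : Finset (Finset ℕ) → Prop) :
    pr r (t + 1) V E = (∑ S ∈ (V.erase (mn V)).powersetCard (r - 1),
      pr r t (V \ insert (mn V) S) (fun M => E (insert (insert (mn V) S) M))) /
      (((V.erase (mn V)).powersetCard (r - 1)).card : ℝ) := by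
  rw [pr]

theorem pr_nonneg (r t : ℕ) (V : Finset ℕ) (E : Finset (Finset ℕ) → Prop) : 0 ≤ pr r t V E := by
  classical
  induction t generalizing V E with
  | zero => rw [pr_zero]; split_ifs <;> norm_num
  | succ t ih =>
    rw [pr_succ]
    exact div_nonneg (Finset.sum_nonneg fun S _ => ih _ _) (Nat.cast_nonneg _)

theorem pr_le_one (r t : ℕ) (V : Finset ℕ) (E : Finset (Finset ℕ) → Prop) : pr r t V E ≤ 1 := by
  classical
  induction t generalizing V E with
  | zero => rw [pr_zero]; split_ifs <;> norm_num
  | succ t ih =>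
    rw [pr_succ]
    apply div_le_one_of_le₀ _ (Nat.cast_nonneg _)
    calc _ ≤ ∑ S ∈ (V.erase (mn V)).powersetCard (r - 1), (1 : ℝ) :=
          Finset.sum_le_sum fun S _ => ih _ _
      _ = _ := by simp

theorem pr_mono (r t : ℕ) (V : Finset ℕ) (E E' : Finset (Finset ℕ) → Prop)
    (h : ∀ M, Out r t V M → E M → E' M) : pr r t V E ≤ pr r t V E' := by
  classical
  induction t generalizing V E E' with
  | zero =>
    rw [pr_zero, pr_zero]
    have h0 := h ∅ rfl
    by_cases hE : E ∅
    · rw [if_pos hE, if_pos (h0 hE)]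
    · rw [if_neg hE]; split_ifs <;> norm_num
  | succ t ih =>
    rw [pr_succ, pr_succ]
    apply div_le_div_of_nonneg_right _ (Nat.cast_nonneg _)
    apply Finset.sum_le_sum
    intro S hS
    apply ih
    intro M hM hEM
    exact h _ ⟨S, hS, M, hM, rfl⟩ hEM

theorem pr_union {ι : Type*} (r t : ℕ) (V : Finset ℕ) (I : Finset ι)
    (E : ι → Finset (Finset ℕ) → Prop) :
    pr r t V (fun M => ∃ i ∈ I, E i M) ≤ ∑ i ∈ I, pr r t V (E i) := by
  classical
  induction t generalizing V E with
  | zero =>
    rw [pr_zero]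
    by_cases h : ∃ i ∈ I, E i ∅
    · rw [if_pos h]
      obtain ⟨i, hi, hEi⟩ := h
      calc (1 : ℝ) = pr r 0 V (E i) := by rw [pr_zero, if_pos hEi]
        _ ≤ _ := Finset.single_le_sum (f := fun i => pr r 0 V (E i))
            (fun j _ => pr_nonneg r 0 V (E j)) hi
    · rw [if_neg h]
      exact Finset.sum_nonneg fun j _ => pr_nonneg r 0 V (E j)
  | succ t ih =>
    rw [pr_succ]
    simp_rw [pr_succ]
    rw [← Finset.sum_div, Finset.sum_comm]
    apply div_le_div_of_nonneg_right _ (Nat.cast_nonneg _)
    apply Finset.sum_le_sum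
    intro S hS
    exact ih _ _

theorem pr_anti_one (r t : ℕ) (V : Finset ℕ) (E : Finset (Finset ℕ) → Prop)
    (hE : ∀ M M', M ⊆ M' → E M' → E M) : pr r (t + 1) V E ≤ pr r t V E := by
  classical
  induction t generalizing V E with
  | zero =>
    by_cases h : E ∅
    · rw [pr_zero, if_pos h]; exact pr_le_one _ _ _ _
    · rw [pr_succ, pr_zero, if_neg h]
      have : ∀ S ∈ (V.erase (mn V)).powersetCard (r - 1),
          pr r 0 (V \ insert (mn V) S) (fun M => E (insert (insert (mn V) S) M)) = 0 := by
        intro S _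
        rw [pr_zero, if_neg]
        intro h'
        exact h (hE _ _ (Finset.empty_subset _) h')
      rw [Finset.sum_eq_zero this, zero_div]
  | succ t ih =>
    rw [pr_succ, pr_succ r t]
    apply div_le_div_of_nonneg_right _ (Nat.cast_nonneg _)
    apply Finset.sum_le_sum
    intro S hS
    apply ih
    intro M M' hMM' h'
    exact hE _ _ (Finset.insert_subset_insert _ hMM') h'

theorem pr_anti_steps (r s t : ℕ) (hst : s ≤ t) (V : Finset ℕ) (E : Finset (Finset ℕ) → Prop)
    (hE : ∀ M M', M ⊆ M' → E M' → E M) : pr r t V E ≤ pr r s V E := by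
  induction t, hst using Nat.le_induction with
  | base => exact le_refl _
  | succ t _ ih => exact (pr_anti_one r t V E hE).trans ih

theorem proc_mn_mem (V : Finset ℕ) (h : V.Nonempty) : mn V ∈ V := by
  have := Nat.sInf_mem (s := (V : Set ℕ)) (by simpa using h)
  simpa using this

theorem proc_mn_le (V : Finset ℕ) (x : ℕ) (h : x ∈ V) : mn V ≤ x :=
  Nat.sInf_le (by simpa using h)

theorem card_sdiff_insert (r : ℕ) (hr : 0 < r) (V : Finset ℕ) (hV : V.Nonempty) (S : Finset ℕ)
    (hS : S ∈ (V.erase (mn V)).powersetCard (r - 1)) :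
    insert (mn V) S ⊆ V ∧ (insert (mn V) S).card = r ∧ (V \ insert (mn V) S).card + r = V.card := by
  rw [Finset.mem_powersetCard] at hS
  obtain ⟨hS1, hS2⟩ := hS
  have hm := proc_mn_mem V hV
  have hn : mn V ∉ S := fun h => by
    have := hS1 h
    simp at this
  have hsub : insert (mn V) S ⊆ V := by
    intro x hx
    rcases Finset.mem_insert.1 hx with rfl | hx
    · exact hm
    · exact Finset.mem_of_mem_erase (hS1 hx)
  have hc : (insert (mn V) S).card = r := by
    rw [Finset.card_insert_of_notMem hn, hS2]; omega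
  refine ⟨hsub, hc, ?_⟩
  have := Finset.card_sdiff_add_card_eq_card hsub
  omega

theorem powersetCard_nonempty' (r : ℕ) (hr : 0 < r) (V : Finset ℕ) (hV : r ≤ V.card) :
    ((V.erase (mn V)).powersetCard (r - 1)).Nonempty := by
  rw [Finset.powersetCard_nonempty]
  have hne : V.Nonempty := Finset.card_pos.1 (by omega)
  rw [Finset.card_erase_of_mem (proc_mn_mem V hne)]
  omega

theorem process_eq (r t : ℕ) (hr : 0 < r) (V : Finset ℕ) (h : r * t ≤ V.card)
    (E : Finset (Finset ℕ) → Prop) :
    (process r t V).toOuterMeasure {M | E M} = ENNReal.ofReal (pr r t V E) := by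
  classical
  induction t generalizing V E with
  | zero =>
    rw [pr_zero, process]
    rw [PMF.toOuterMeasure_pure_apply]
    simp only [Set.mem_ofPred_eq]
    by_cases hE : E ∅ <;> simp [hE]
  | succ t ih =>
    have hrV : r ≤ V.card := le_trans (by nlinarith) h
    have hne := powersetCard_nonempty' r hr V hrV
    have hVne : V.Nonempty := Finset.card_pos.1 (by omega)
    rw [pr_succ, process, dif_pos hne, PMF.toOuterMeasure_bind_apply]
    have key : ∀ S ∈ (V.erase (mn V)).powersetCard (r - 1),
        (((process r t (V \ insert (sInf (V : Set ℕ)) S)).map fun M =>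
          insert (insert (sInf (V : Set ℕ)) S) M)).toOuterMeasure {M | E M} =
        ENNReal.ofReal (pr r t (V \ insert (mn V) S)
          (fun M => E (insert (insert (mn V) S) M))) := by
      intro S hS
      rw [PMF.toOuterMeasure_map_apply]
      have hc := (card_sdiff_insert r hr V hVne S hS).2.2
      exact ih (V \ insert (mn V) S) (by nlinarith) _
    rw [tsum_eq_sum (s := (V.erase (mn V)).powersetCard (r - 1))]
    · have hcard : ((((V.erase (mn V)).powersetCard (r - 1)).card : ℕ) : ℝ) > 0 := by
        exact_mod_cast hne.card_pos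
      rw [div_eq_inv_mul, ENNReal.ofReal_mul (by positivity), ENNReal.ofReal_sum_of_nonneg
        (fun S _ => pr_nonneg _ _ _ _), Finset.mul_sum]
      apply Finset.sum_congr rfl
      intro S hS
      rw [key S hS, PMF.uniformOfFinset_apply_of_mem _ hS, ENNReal.ofReal_inv_of_pos hcard,
        ENNReal.ofReal_natCast]
    · intro S hS
      rw [PMF.uniformOfFinset_apply_of_notMem _ hS, zero_mul]

end Pool.Agent.Work.MP_7d1693_pr
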