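import Pool.Agent.Work.MP_7d1693_pr.INCL
import Pool.Agent.Work.MP_7d1693_pr.PROC
import Pool.Agent.Work.MP_7d1693_pr.OUT
import Pool.Agent.Work.MP_7d1693_pr.CNT2
import Pool.Agent.Work.MP_7d1693_pr.BAD
import Pool.Agent.Work.MP_7d1693_pr.MT2
import Pool.Agent.Work.MP_7d1693_pr.AVOID
import Pool.Agent.Work.MP_7d1693_pr.CNT1

namespace Pool.Agent.Work.MP_7d1693_pr

open Finset

namespace UPPERaux

/-- product of two binomials times k^(rk) -/
theorem binom_bound (r a k x y : ℕ) (ha : a ≤ r) :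
    ((x.choose (a * k) * y.choose ((r - a) * k) : ℕ) : ℝ) * (k : ℝ) ^ (r * k) ≤
      (2 * Real.exp 1) ^ (r * k) * ((x : ℝ) ^ (a * k) * (y : ℝ) ^ ((r - a) * k)) := by
  rcases Nat.eq_zero_or_pos k with rfl | hk
  · simp
  have hk0 : (0 : ℝ) < k := by exact_mod_cast hk
  have h1 : ((x.choose (a * k) : ℕ) : ℝ) * ((a * k).factorial : ℝ) ≤ (x : ℝ) ^ (a * k) := by
    have := Nat.choose_le_pow_div (α := ℝ) (a * k) x
    rwa [le_div_iff₀ (by exact_mod_cast Nat.factorial_pos _)] at this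
  have h2 : ((y.choose ((r - a) * k) : ℕ) : ℝ) * (((r - a) * k).factorial : ℝ) ≤
      (y : ℝ) ^ ((r - a) * k) := by
    have := Nat.choose_le_pow_div (α := ℝ) ((r - a) * k) y
    rwa [le_div_iff₀ (by exact_mod_cast Nat.factorial_pos _)] at this
  have hsum : a * k + (r - a) * k = r * k := by
    rw [← Nat.add_mul]; congr 1; omega
  have h3 : ((r * k).factorial : ℝ) ≤ 2 ^ (r * k) * (((a * k).factorial : ℝ) *
      (((r - a) * k).factorial : ℝ)) := by
    have hle : a * k ≤ r * k := Nat.mul_le_mul_right k ha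
    have e1 := Nat.choose_mul_factorial_mul_factorial hle
    have e2 : r * k - a * k = (r - a) * k := by omega
    rw [e2] at e1
    have e3 : (r * k).choose (a * k) ≤ 2 ^ (r * k) := Nat.choose_le_two_pow _ _
    have e4 : (r * k).factorial ≤ 2 ^ (r * k) * ((a * k).factorial * ((r - a) * k).factorial) := by
      rw [← e1, mul_assoc]
      exact Nat.mul_le_mul_right _ e3
    exact_mod_cast e4
  have h4 : (k : ℝ) ^ (r * k) ≤ Real.exp 1 ^ (r * k) * ((r * k).factorial : ℝ) := by
    rcases Nat.eq_zero_or_pos r with rfl | hr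
    · simp
    have h := Real.pow_div_factorial_le_exp (((r * k : ℕ) : ℝ)) (by positivity) (r * k)
    have hf : (0 : ℝ) < ((r * k).factorial : ℝ) := by exact_mod_cast Nat.factorial_pos _
    rw [div_le_iff₀ hf] at h
    have hexp : Real.exp 1 ^ (r * k) = Real.exp ((r * k : ℕ) : ℝ) := by
      rw [← Real.exp_nat_mul]; simp
    rw [hexp]
    refine le_trans ?_ h
    apply pow_le_pow_left₀ hk0.le
    have : k ≤ r * k := Nat.le_mul_of_pos_left k hr
    exact_mod_cast this
  have hfa : (0 : ℝ) < ((a * k).factorial : ℝ) := by exact_mod_cast Nat.factorial_pos _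
  have hfb : (0 : ℝ) < (((r - a) * k).factorial : ℝ) := by exact_mod_cast Nat.factorial_pos _
  have hc1 : (0 : ℝ) ≤ ((x.choose (a * k) : ℕ) : ℝ) := by positivity
  have hc2 : (0 : ℝ) ≤ ((y.choose ((r - a) * k) : ℕ) : ℝ) := by positivity
  push_cast
  calc (((x.choose (a * k) : ℕ) : ℝ) * ((y.choose ((r - a) * k) : ℕ) : ℝ)) * (k : ℝ) ^ (r * k)
      ≤ (((x.choose (a * k) : ℕ) : ℝ) * ((y.choose ((r - a) * k) : ℕ) : ℝ)) *
        (Real.exp 1 ^ (r * k) * (2 ^ (r * k) * (((a * k).factorial : ℝ) *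
      (((r - a) * k).factorial : ℝ)))) := by
        apply mul_le_mul_of_nonneg_left _ (by positivity)
        exact h4.trans (mul_le_mul_of_nonneg_left h3 (by positivity))
    _ = (2 * Real.exp 1) ^ (r * k) * ((((x.choose (a * k) : ℕ) : ℝ) * ((a * k).factorial : ℝ)) *
        (((y.choose ((r - a) * k) : ℕ) : ℝ) * (((r - a) * k).factorial : ℝ))) := by
        rw [mul_pow]; ring
    _ ≤ (2 * Real.exp 1) ^ (r * k) * ((x : ℝ) ^ (a * k) * (y : ℝ) ^ ((r - a) * k)) := by
        apply mul_le_mul_of_nonneg_left _ (by positivity)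
        exact mul_le_mul h1 h2 (by positivity) (by positivity)

end UPPERaux

open UPPERaux in
theorem upper (r : ℕ) (hr : 2 ≤ r) (P : Set (List Bool)) (hP : Thin r P) (a : ℕ) (ha : a ≤ r)
    (ham : ∀ w ∈ P, ∀ lam : List ℕ, ∀ a' : ℕ, (a' :: lam).sum = r →
      HasType w (a' :: lam) → a ≤ a') :
    ∃ C : ℝ, 0 < C ∧ ∀ n t k : ℕ, 1 ≤ t → t ≤ n → 1 ≤ k →
      pr r t (range (r * n)) (fun M => C + k ≤ (z P M : ℝ)) ≤
        (C * ((n : ℝ) * ((t : ℝ) / n) ^ a) / (k : ℝ) ^ r) ^ k := by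
  classical
  obtain ⟨l, τ, hτ⟩ := avoid r hr P hP
  obtain ⟨C0, hC0⟩ := marcus_tardos l τ
  obtain ⟨R, hR⟩ := few_bad r hr P a ham
  set B1 : ℝ := ((r ^ r * C0 ^ (r - 1) : ℕ) : ℝ) with hB1
  set D1 : ℝ := B1 * ((2 * Real.exp 1) ^ r * (r : ℝ) ^ r) * (((r - 1).factorial : ℝ) * Real.exp (r - 1)) with hD1
  have hB10 : 0 ≤ B1 := by positivity
  have hD10 : 0 ≤ D1 := by positivity
  refine ⟨D1 + R + 1, by positivity, ?_⟩
  intro n t k ht htn hk
  have hn : 1 ≤ n := ht.trans htn
  have hn0 : (0 : ℝ) < n := by exact_mod_cast hn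
  have ht0 : (0 : ℝ) < t := by exact_mod_cast ht
  have hk0 : (0 : ℝ) < k := by exact_mod_cast hk
  -- the family of good cliques
  set T : Finset (Finset (Finset ℕ)) := ((range (r * n)).powerset.powerset).filter
    (fun K => Fam r K ∧ K.card = k ∧ IsClique P K ∧
      ∀ e ∈ K, a ≤ (e.filter (fun x => x < r * t)).card) with hTdef
  have hT : ∀ K ∈ T, Fam r K ∧ K.card = k ∧ IsClique P K ∧
      (∀ e ∈ K, e ⊆ range (r * n) ∧ a ≤ (e.filter (fun x => x < r * t)).card) := by
    intro K hK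
    rw [hTdef, Finset.mem_filter, Finset.mem_powerset] at hK
    refine ⟨hK.2.1, hK.2.2.1, hK.2.2.2.1, fun e he => ⟨?_, hK.2.2.2.2 e he⟩⟩
    exact Finset.mem_powerset.1 (hK.1 he)
  have hcount := count_cliques r (by omega) P n k a (r * t) (r ^ (r * k) * (avc τ k) ^ (r - 1)) ha
    (fun T' hT' => count_le r k (by omega) l τ T' (fun K hK => ⟨(hT' K hK).1, ?_⟩)) T hT
  swap
  · have h1 := hT' K hK
    have hF : Fam r K := by
      have h2 := h1.1
      unfold PMs at h2
      rw [Finset.mem_filter] at h2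
      exact h2.2.1
    exact hτ K hF h1.2
  -- the event
  have hcardV : (range (r * n)).card = r * n := Finset.card_range _
  have hrt : r * t ≤ (range (r * n)).card := by rw [hcardV]; exact Nat.mul_le_mul_left r htn
  have hev : pr r t (range (r * n)) (fun M => (D1 + R + 1) + k ≤ (z P M : ℝ)) ≤
      pr r t (range (r * n)) (fun M => ∃ K ∈ T, K ⊆ M) := by
    apply pr_mono
    intro M hM hz
    obtain ⟨hMc, hMF, hMe⟩ := out_struct r t (by omega) _ hrt M hM
    have hzR : R + k ≤ z P M := by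
      have h1 : (R : ℝ) + k ≤ (z P M : ℝ) := by linarith
      exact_mod_cast h1
    -- a clique of maximal size
    obtain ⟨K', hK'M, hK'⟩ : ∃ K' ∈ (M.powerset.filter fun K => IsClique P K), K'.card = z P M := by
      have hne : (M.powerset.filter fun K => IsClique P K).Nonempty :=
        ⟨∅, by simp [IsClique]⟩
      obtain ⟨K', hK', h⟩ := Finset.exists_mem_eq_sup _ hne Finset.card
      refine ⟨K', hK', ?_⟩
      rw [← h]
      rfl
    rw [Finset.mem_filter, Finset.mem_powerset] at hK'M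
    have hFK' : Fam r K' := ⟨fun e he => hMF.1 e (hK'M.1 he),
      fun e he f hf => hMF.2 e (hK'M.1 he) f (hK'M.1 hf)⟩
    have hmn : ∀ e ∈ K', mn e < r * t := by
      intro e he
      have h1 := (hMe e (hK'M.1 he))
      have hne : e.Nonempty := by
        rw [← Finset.card_pos, hMF.1 e (hK'M.1 he)]; omega
      have hmem : mn e ∈ e := INCLaux.incl_mn_mem e hne
      have h2 := Finset.mem_range.1 (h1.1 hmem)
      have h3 : (range (r * n)).filter (fun x => x < mn e) = range (mn e) := by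
        ext x
        simp only [Finset.mem_filter, Finset.mem_range]
        constructor
        · exact fun h => h.2
        · exact fun h => ⟨by omega, h⟩
      have h4 := h1.2
      rw [h3, Finset.card_range] at h4
      omega
    have hbad := hR K' (r * t) hFK' hK'M.2 hmn
    have hgood : k ≤ (K'.filter (fun e => ¬ (e.filter (fun x => x < r * t)).card < a)).card := by
      have := Finset.card_filter_add_card_filter_not (s := K')
        (fun e => (e.filter (fun x => x < r * t)).card < a)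
      omega
    obtain ⟨K, hKsub, hKc⟩ := Finset.exists_subset_card_eq hgood
    have hKK' : K ⊆ K' := hKsub.trans (Finset.filter_subset _ _)
    refine ⟨K, ?_, hKK'.trans hK'M.1⟩
    rw [hTdef, Finset.mem_filter, Finset.mem_powerset]
    refine ⟨?_, ?_, hKc, ?_, ?_⟩
    · intro e he
      rw [Finset.mem_powerset]
      exact (hMe e (hK'M.1 (hKK' he))).1
    · exact ⟨fun e he => hFK'.1 e (hKK' he), fun e he f hf => hFK'.2 e (hKK' he) f (hKK' hf)⟩
    · intro e he f hf
      exact hK'M.2 e (hKK' he) f (hKK' hf)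
    · intro e he
      have := (Finset.mem_filter.1 (hKsub he)).2
      omega
  refine hev.trans ?_
  have hrhs0 : (0 : ℝ) ≤ ((D1 + R + 1) * ((n : ℝ) * ((t : ℝ) / n) ^ a) / (k : ℝ) ^ r) ^ k := by
    positivity
  refine (pr_union r t (range (r * n)) T (fun K M => K ⊆ M)).trans ?_
  by_cases hkn : k ≤ n
  swap
  · -- no such family
    have hTe : T = ∅ := by
      rw [Finset.eq_empty_iff_forall_notMem]
      intro K hK
      have h1 := hT K hK
      have h2 : (K.biUnion id).card = r * K.card := INCLaux.incl_card_sup r K h1.1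
      have h3 : K.biUnion id ⊆ range (r * n) := by
        intro x hx
        rw [Finset.mem_biUnion] at hx
        obtain ⟨e, he, hxe⟩ := hx
        exact (h1.2.2.2 e he).1 hxe
      have h4 := Finset.card_le_card h3
      rw [h2, h1.2.1, Finset.card_range] at h4
      have : k ≤ n := Nat.le_of_mul_le_mul_left h4 (by omega)
      exact hkn this
    rw [hTe]
    simpa using hrhs0
  have hq : ∀ K ∈ T, pr r t (range (r * n)) (fun M => K ⊆ M) ≤
      (((r - 1).factorial : ℝ) * Real.exp (r - 1) / (n : ℝ) ^ (r - 1)) ^ k := by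
    intro K hK
    have h1 := hT K hK
    have h2 := pr_incl r hr n t htn (range (r * n)) hcardV K h1.1 (fun e he => (h1.2.2.2 e he).1)
    rw [h1.2.1] at h2
    exact h2.trans (incl_num r hr n k hkn)
  refine (Finset.sum_le_sum hq).trans ?_
  rw [Finset.sum_const, nsmul_eq_mul]
  -- the count
  have hTcard : (T.card : ℝ) * (k : ℝ) ^ (r * k) ≤
      B1 ^ k * ((2 * Real.exp 1) ^ (r * k) * (((r * t : ℕ) : ℝ) ^ (a * k) *
        ((r * n : ℕ) : ℝ) ^ ((r - a) * k))) := by
    have h1 : (T.card : ℝ) ≤ (((r ^ (r * k) * (avc τ k) ^ (r - 1)) *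
        ((r * t).choose (a * k) * (r * n).choose ((r - a) * k)) : ℕ) : ℝ) := by
      exact_mod_cast hcount
    have h2 : ((r ^ (r * k) * (avc τ k) ^ (r - 1) : ℕ) : ℝ) ≤ B1 ^ k := by
      have h3 : r ^ (r * k) * (avc τ k) ^ (r - 1) ≤ (r ^ r * C0 ^ (r - 1)) ^ k := by
        rw [mul_pow, ← pow_mul, ← pow_mul, mul_comm (r - 1) k, pow_mul C0]
        exact Nat.mul_le_mul_left _ (Nat.pow_le_pow_left (hC0 k) _)
      rw [hB1]
      exact_mod_cast h3
    have h3 := binom_bound r a k (r * t) (r * n) ha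
    calc (T.card : ℝ) * (k : ℝ) ^ (r * k)
        ≤ (((r ^ (r * k) * (avc τ k) ^ (r - 1)) *
        ((r * t).choose (a * k) * (r * n).choose ((r - a) * k)) : ℕ) : ℝ) * (k : ℝ) ^ (r * k) :=
          mul_le_mul_of_nonneg_right h1 (by positivity)
      _ = ((r ^ (r * k) * (avc τ k) ^ (r - 1) : ℕ) : ℝ) *
          ((((r * t).choose (a * k) * (r * n).choose ((r - a) * k) : ℕ) : ℝ) * (k : ℝ) ^ (r * k)) := by
          rw [Nat.cast_mul]; ring
      _ ≤ B1 ^ k * ((2 * Real.exp 1) ^ (r * k) * (((r * t : ℕ) : ℝ) ^ (a * k) *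
        ((r * n : ℕ) : ℝ) ^ ((r - a) * k))) :=
          mul_le_mul h2 h3 (by positivity) (by positivity)
  -- final computation
  have hkr : (0 : ℝ) < (k : ℝ) ^ (r * k) := by positivity
  have hT2 : (T.card : ℝ) ≤ B1 ^ k * ((2 * Real.exp 1) ^ (r * k) * (((r * t : ℕ) : ℝ) ^ (a * k) *
        ((r * n : ℕ) : ℝ) ^ ((r - a) * k))) / (k : ℝ) ^ (r * k) := by
    rw [le_div_iff₀ hkr]; exact hTcard
  refine (mul_le_mul_of_nonneg_right hT2 (by positivity)).trans ?_
  have hmain : B1 ^ k * ((2 * Real.exp 1) ^ (r * k) * (((r * t : ℕ) : ℝ) ^ (a * k) *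
        ((r * n : ℕ) : ℝ) ^ ((r - a) * k))) / (k : ℝ) ^ (r * k) *
        (((r - 1).factorial : ℝ) * Real.exp (r - 1) / (n : ℝ) ^ (r - 1)) ^ k =
      (D1 * ((n : ℝ) * ((t : ℝ) / n) ^ a) / (k : ℝ) ^ r) ^ k := by
    rw [pow_mul _ r k, pow_mul _ a k, pow_mul _ (r - a) k, pow_mul _ r k, ← mul_pow, ← mul_pow,
      ← mul_pow, ← div_pow, ← mul_pow]
    congr 1
    rw [hD1]
    push_cast
    have e1 : (n : ℝ) ^ (r - a) * (n : ℝ) ^ a = n * (n : ℝ) ^ (r - 1) := by
      rw [← pow_add, ← pow_succ']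
      congr 1
      omega
    have e2 : (r : ℝ) ^ r = (r : ℝ) ^ a * (r : ℝ) ^ (r - a) := by
      rw [← pow_add]; congr 1; omega
    rw [e2, mul_pow, mul_pow, div_pow]
    have hna : (0 : ℝ) < (n : ℝ) ^ a := by positivity
    have hn1 : (0 : ℝ) < (n : ℝ) ^ (r - 1) := by positivity
    have hkk : (0 : ℝ) < (k : ℝ) ^ r := by positivity
    field_simp
    linear_combination (B1 * (r : ℝ) ^ (r - a)) * e1
  rw [hmain]
  apply pow_le_pow_left₀ (by positivity)
  apply div_le_div_of_nonneg_right _ (by positivity)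
  apply mul_le_mul_of_nonneg_right _ (by positivity)
  have : (0 : ℝ) ≤ R := by positivity
  linarith

end Pool.Agent.Work.MP_7d1693_pr
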