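import Pool.Agent.Work.MP_7d1693_pr.Defs

namespace Pool.Agent.Work.MP_7d1693_pr

open Finset

/-- least element of a finite set of naturals (0 for the empty set) -/
noncomputable abbrev mn (V : Finset ℕ) : ℕ := sInf (V : Set ℕ)

open Classical in
/-- probability of the event `E` for the process, by recursion on the steps -/
noncomputable def pr (r : ℕ) : ℕ → Finset ℕ → (Finset (Finset ℕ) → Prop) → ℝ
  | 0, _, E => if E ∅ then 1 else 0
  | t + 1, V, E =>
    (∑ S ∈ (V.erase (mn V)).powersetCard (r - 1),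
      pr r t (V \ insert (mn V) S) (fun M => E (insert (insert (mn V) S) M))) /
      (((V.erase (mn V)).powersetCard (r - 1)).card : ℝ)

/-- `M` is a possible outcome of the process -/
def Out (r : ℕ) : ℕ → Finset ℕ → Finset (Finset ℕ) → Prop
  | 0, _, M => M = ∅
  | t + 1, V, M => ∃ S ∈ (V.erase (mn V)).powersetCard (r - 1),
      ∃ M', Out r t (V \ insert (mn V) S) M' ∧ M = insert (insert (mn V) S) M'

/-- pairwise disjoint family of `r`-sets -/
def Fam (r : ℕ) (K : Finset (Finset ℕ)) : Prop :=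
  (∀ e ∈ K, e.card = r) ∧ ∀ e ∈ K, ∀ f ∈ K, e ≠ f → Disjoint e f

/-- the `i`-th smallest element of `e` (counted from 0) -/
def el (e : Finset ℕ) (i : ℕ) : ℕ := (e.sort (· ≤ ·)).getD i 0

/-- index of the block containing position `i` for the block lengths `lam` -/
def bi : List ℕ → ℕ → ℕ
  | [], _ => 0
  | a :: l, i => if i < a then 0 else bi l (i - a) + 1

/-- perfect `r`-matchings of `U` -/
noncomputable def PMs (r : ℕ) (U : Finset ℕ) : Finset (Finset (Finset ℕ)) := by
  classical exact U.powerset.powerset.filter (fun K => Fam r K ∧ K.sup id = U)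

/-- the order of the `j`-th elements contains the permutation `τ` -/
def Occ (j : ℕ) {l : ℕ} (τ : Equiv.Perm (Fin l)) (K : Finset (Finset ℕ)) : Prop :=
  ∃ φ : Fin l → Finset ℕ, (∀ i, φ i ∈ K) ∧ (∀ i i', i < i' → mn (φ i) < mn (φ i')) ∧
    (∀ i i', τ i < τ i' → el (φ i) j < el (φ i') j)

/-- the permutation `σ` contains the permutation `τ` -/
def Contains {l k : ℕ} (τ : Equiv.Perm (Fin l)) (σ : Equiv.Perm (Fin k)) : Prop :=
  ∃ φ ψ : Fin l ↪o Fin k, ∀ i, σ (φ i) = ψ (τ i)

/-- number of permutations of `k` letters avoiding `τ` -/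
noncomputable def avc {l : ℕ} (τ : Equiv.Perm (Fin l)) (k : ℕ) : ℕ :=
  Nat.card {σ : Equiv.Perm (Fin k) // ¬ Contains τ σ}

/-- the 0-1 matrix `A` contains the permutation matrix of `τ` -/
def MCon {l : ℕ} (τ : Equiv.Perm (Fin l)) (A : Finset (ℕ × ℕ)) : Prop :=
  ∃ f g : Fin l → ℕ, StrictMono f ∧ StrictMono g ∧ ∀ i, (f i, g (τ i)) ∈ A

/-- no two patterns of `P` of the same block type -/
def Thin (r : ℕ) (P : Set (List Bool)) : Prop :=
  ∀ lam : List ℕ, lam.sum = r → ∀ w ∈ P, ∀ w' ∈ P, HasType w lam → HasType w' lam → w = w'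

end Pool.Agent.Work.MP_7d1693_pr
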