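import Mathlib

namespace Pool.Agent.Work.MP_7d1693_pr

/-- The word of an ordered pair of disjoint finite sets of vertices: list the vertices of
`e ∪ f` in increasing order, writing `true` (letter A) for a vertex of `e` and `false`
(letter B) for a vertex of `f`. -/
def pat (e f : Finset ℕ) : List Bool :=
  ((e ∪ f).sort (· ≤ ·)).map fun v => decide (v ∈ e)

/-- `K` is a `P`-clique: every pair of edges, the one with the smaller least vertex
written first, forms a pattern in `P`. -/
def IsClique (P : Set (List Bool)) (K : Finset (Finset ℕ)) : Prop :=
  ∀ e ∈ K, ∀ f ∈ K, e.min < f.min → pat e f ∈ P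

open Classical in
/-- The largest number of edges of `M` that form a `P`-clique. -/
noncomputable def z (P : Set (List Bool)) (M : Finset (Finset ℕ)) : ℕ :=
  (M.powerset.filter fun K => IsClique P K).sup Finset.card

/-- The random ordered matching process after `t` steps, on the set `V` of available
vertices: the least available vertex `v` is matched with a uniformly random `(r-1)`-subset
of the other available vertices. -/
noncomputable def process (r : ℕ) : ℕ → Finset ℕ → PMF (Finset (Finset ℕ))
  | 0, _ => PMF.pure ∅
  | t + 1, V =>
    if h : ((V.erase (sInf (V : Set ℕ))).powersetCard (r - 1)).Nonempty then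
      (PMF.uniformOfFinset ((V.erase (sInf (V : Set ℕ))).powersetCard (r - 1)) h).bind fun S =>
        (process r t (V \ insert (sInf (V : Set ℕ)) S)).map fun M =>
          insert (insert (sInf (V : Set ℕ)) S) M
    else PMF.pure ∅

/-- A block word: for `b = [(a₁,s₁),...,(aₖ,sₖ)]` the concatenation of the blocks
`A^{aᵢ}B^{aᵢ}` (if `sᵢ = true`) or `B^{aᵢ}A^{aᵢ}` (if `sᵢ = false`). -/
def word : List (ℕ × Bool) → List Bool
  | [] => []
  | (a, s) :: l => (List.replicate a s ++ List.replicate a (!s)) ++ word l

/-- `w` has block type `lam`: it is a concatenation of blocks `A^aB^a` or `B^aA^a` whose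
lengths are listed in `lam`, the first block being `A^aB^a`. -/
def HasType (w : List Bool) (lam : List ℕ) : Prop :=
  ∃ b : List (ℕ × Bool), b.map Prod.fst = lam ∧ (∀ x ∈ b, 0 < x.1) ∧
    b.head?.map Prod.snd = some true ∧ w = word b

end Pool.Agent.Work.MP_7d1693_pr
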