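import Pool.Agent.Work.MP_7d1693_pr.Base

namespace Pool.Agent.Work.MP_7d1693_pr

open Finset

namespace INCLaux

theorem incl_mn_mem (W : Finset ℕ) (h : W.Nonempty) : mn W ∈ W := by
  have := Nat.sInf_mem (s := (W : Set ℕ)) (by simpa using h)
  simpa [mn] using this

theorem pr_nonneg' (r t : ℕ) (V : Finset ℕ) (E : Finset (Finset ℕ) → Prop) : 0 ≤ pr r t V E := by
  induction t generalizing V E with
  | zero => unfold pr; split_ifs <;> norm_num
  | succ t ih =>
    unfold pr
    apply div_nonneg
    · exact Finset.sum_nonneg fun S _ => ih _ _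
    · positivity

theorem incl_mono' (r : ℕ) (hr : 2 ≤ r) (t : ℕ) (W : Finset ℕ) (E E' : Finset (Finset ℕ) → Prop)
    (h : ∀ M : Finset (Finset ℕ), (∀ e ∈ M, e ⊆ W) → E M → E' M) :
    pr r t W E ≤ pr r t W E' := by
  induction t generalizing W E E' with
  | zero =>
    unfold pr
    have := h ∅ (by simp)
    by_cases h1 : E ∅
    · simp [h1, this h1]
    · simp only [h1, if_false]; split_ifs <;> norm_num
  | succ t ih =>
    unfold pr
    apply div_le_div_of_nonneg_right _ (by positivity)
    apply Finset.sum_le_sum
    intro S hS
    apply ih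
    intro M hM
    have hS' := Finset.mem_powersetCard.1 hS
    have hWne : W.Nonempty := by
      rw [Finset.nonempty_iff_ne_empty]
      rintro rfl
      have : S = ∅ := by
        have := hS'.1
        simpa using this
      rw [this] at hS'
      simp at hS'
      omega
    apply h
    intro e he
    rw [Finset.mem_insert] at he
    rcases he with rfl | he
    · intro x hx
      rw [Finset.mem_insert] at hx
      rcases hx with rfl | hx
      · exact incl_mn_mem W hWne
      · exact Finset.mem_of_mem_erase (hS'.1 hx)
    · exact (hM e he).trans Finset.sdiff_subset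

theorem incl_zero' (r : ℕ) (hr : 2 ≤ r) (t : ℕ) (W : Finset ℕ) (E : Finset (Finset ℕ) → Prop)
    (h : ∀ M : Finset (Finset ℕ), (∀ e ∈ M, e ⊆ W) → ¬ E M) :
    pr r t W E = 0 := by
  have h0 : ∀ (t : ℕ) (W : Finset ℕ), pr r t W (fun _ => False) = 0 := by
    intro t
    induction t with
    | zero => intro W; unfold pr; simp
    | succ t ih => intro W; unfold pr; simp [ih]
  apply le_antisymm _ (pr_nonneg' _ _ _ _)
  rw [← h0 t W]
  exact incl_mono' r hr t W _ _ (fun M hM hE => h M hM hE)

/-- the product bound -/
noncomputable def PP (r N k : ℕ) : ℝ :=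
  ∏ i ∈ range k, (1 / (((r * (N - i) - 1).choose (r - 1) : ℕ) : ℝ))

theorem PP_nonneg (r N k : ℕ) : 0 ≤ PP r N k := by
  unfold PP
  exact Finset.prod_nonneg fun i _ => by positivity

theorem PP_succ' (r N k : ℕ) :
    PP r N (k + 1) = PP r (N - 1) k * (1 / (((r * N - 1).choose (r - 1) : ℕ) : ℝ)) := by
  unfold PP
  rw [Finset.prod_range_succ']
  simp only [Nat.sub_zero]
  congr 1
  apply Finset.prod_congr rfl
  intro i _
  rw [show N - (i + 1) = N - 1 - i by omega]

theorem PP_succ (r N k : ℕ) :
    PP r N (k + 1) = PP r N k * (1 / (((r * (N - k) - 1).choose (r - 1) : ℕ) : ℝ)) := by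
  unfold PP
  rw [Finset.prod_range_succ]

theorem incl_card_sup (r : ℕ) (K : Finset (Finset ℕ)) (hK : Fam r K) :
    (K.biUnion id).card = r * K.card := by
  rw [Finset.card_biUnion]
  · rw [Finset.sum_congr rfl (fun e he => by simpa using hK.1 e he)]
    simp [mul_comm]
  · intro x hx y hy hxy
    exact hK.2 x hx y hy hxy

end INCLaux

open INCLaux

theorem pr_incl (r : ℕ) (hr : 2 ≤ r) (N t : ℕ) (ht : t ≤ N) (V : Finset ℕ)
    (hV : V.card = r * N) (K : Finset (Finset ℕ)) (hK : Fam r K) (hKV : ∀ e ∈ K, e ⊆ V) :
    pr r t V (fun M => K ⊆ M) ≤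
      ∏ i ∈ range K.card, (1 / (((r * (N - i) - 1).choose (r - 1) : ℕ) : ℝ)) := by
  change pr r t V (fun M => K ⊆ M) ≤ PP r N K.card
  induction t generalizing N V K with
  | zero =>
    unfold pr
    by_cases hK0 : K ⊆ ∅
    · have : K = ∅ := by simpa using hK0
      subst this
      simp [PP]
    · simp only [hK0, if_false]
      exact PP_nonneg _ _ _
  | succ t ih =>
    have hNpos : 1 ≤ N := by omega
    have hVcard : r ≤ V.card := by rw [hV]; nlinarith
    have hVne : V.Nonempty := by
      rw [← Finset.card_pos]; omega
    have hvV : mn V ∈ V := incl_mn_mem V hVne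
    set v := mn V with hv
    have hcardE : (V.erase v).card = r * N - 1 := by
      rw [Finset.card_erase_of_mem hvV, hV]
    have hcard : ((V.erase v).powersetCard (r - 1)).card = (r * N - 1).choose (r - 1) := by
      rw [Finset.card_powersetCard, hcardE]
    have hsub : ∀ S ∈ (V.erase v).powersetCard (r - 1), insert v S ⊆ V := by
      intro S hS x hx
      have hS' := Finset.mem_powersetCard.1 hS
      rw [Finset.mem_insert] at hx
      rcases hx with rfl | hx
      · exact hvV
      · exact Finset.mem_of_mem_erase (hS'.1 hx)
    have hcardS : ∀ S ∈ (V.erase v).powersetCard (r - 1), (V \ insert v S).card = r * (N - 1) := by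
      intro S hS
      have hS' := Finset.mem_powersetCard.1 hS
      have hvS : v ∉ S := fun h => by
        have := hS'.1 h
        simp at this
      rw [Finset.card_sdiff_of_subset (hsub S hS), Finset.card_insert_of_notMem hvS, hS'.2, hV]
      have : r - 1 + 1 = r := by omega
      rw [this, Nat.mul_sub]
      simp
    unfold pr
    rw [← hv, hcard]
    by_cases hcase : ∃ e ∈ K, v ∈ e
    · obtain ⟨e, heK, hve⟩ := hcase
      have hecard : e.card = r := hK.1 e heK
      have hSe : e.erase v ∈ (V.erase v).powersetCard (r - 1) := by
        rw [Finset.mem_powersetCard]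
        refine ⟨Finset.erase_subset_erase v (hKV e heK), ?_⟩
        rw [Finset.card_erase_of_mem hve, hecard]
      have hine : insert v (e.erase v) = e := Finset.insert_erase hve
      have hsum : ∑ S ∈ (V.erase v).powersetCard (r - 1),
          pr r t (V \ insert v S) (fun M => K ⊆ insert (insert v S) M) =
          pr r t (V \ insert v (e.erase v)) (fun M => K ⊆ insert (insert v (e.erase v)) M) := by
        apply Finset.sum_eq_single_of_mem _ hSe
        intro S hS hne
        apply incl_zero' r hr
        intro M hM hKM
        have h1 := hKM heK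
        rw [Finset.mem_insert] at h1
        rcases h1 with h1 | h1
        · apply hne
          rw [h1]
          have hS' := Finset.mem_powersetCard.1 hS
          have hvS : v ∉ S := fun h => by
            have := hS'.1 h
            simp at this
          rw [Finset.erase_insert hvS]
        · have := hM e h1 hve
          simp at this
      rw [hsum, hine]
      have hkpos : 0 < K.card := Finset.card_pos.2 ⟨e, heK⟩
      have hcardEe : (V \ e).card = r * (N - 1) := by
        have := hcardS _ hSe
        rwa [hine] at this
      have hle : pr r t (V \ e) (fun M => K ⊆ insert e M) ≤ PP r (N - 1) (K.erase e).card := by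
        refine le_trans (incl_mono' r hr t _ _ (fun M => K.erase e ⊆ M) ?_) (ih (N - 1) (by omega) _ hcardEe
          (K.erase e) ?_ ?_)
        · intro M _ hKM x hx
          have hx' := Finset.mem_erase.1 hx
          have := hKM hx'.2
          rw [Finset.mem_insert] at this
          rcases this with h | h
          · exact absurd h hx'.1
          · exact h
        · exact ⟨fun x hx => hK.1 x (Finset.mem_of_mem_erase hx),
            fun x hx y hy => hK.2 x (Finset.mem_of_mem_erase hx) y (Finset.mem_of_mem_erase hy)⟩
        · intro x hx y hy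
          have hx' := Finset.mem_erase.1 hx
          rw [Finset.mem_sdiff]
          refine ⟨hKV x hx'.2 hy, fun hye => ?_⟩
          exact (Finset.disjoint_left.1 (hK.2 x hx'.2 e heK hx'.1)) hy hye
      rw [Finset.card_erase_of_mem heK] at hle
      obtain ⟨k, hk⟩ : ∃ k, K.card = k + 1 := ⟨K.card - 1, by omega⟩
      rw [hk] at hle ⊢
      rw [PP_succ', div_eq_mul_one_div]
      simp only [Nat.add_sub_cancel] at hle
      exact mul_le_mul_of_nonneg_right hle (by positivity)
    · push Not at hcase
      set U := K.biUnion id with hU
      have hUcard : U.card = r * K.card := incl_card_sup r K hK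
      have hUV : U ⊆ V.erase v := by
        intro x hx
        rw [hU, Finset.mem_biUnion] at hx
        obtain ⟨e, he, hxe⟩ := hx
        rw [Finset.mem_erase]
        exact ⟨fun h => hcase e he (h ▸ hxe), hKV e he hxe⟩
      have hk1 : r * K.card ≤ r * N - 1 := by
        rw [← hUcard, ← hcardE]; exact Finset.card_le_card hUV
      have hk : K.card < N := by
        by_contra hcon
        push Not at hcon
        have : r * N ≤ r * K.card := Nat.mul_le_mul_left r hcon
        have : 0 < r * N := by positivity
        omega
      have hterm : ∀ S ∈ (V.erase v).powersetCard (r - 1),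
          pr r t (V \ insert v S) (fun M => K ⊆ insert (insert v S) M) ≤
            if Disjoint S U then PP r (N - 1) K.card else 0 := by
        intro S hS
        split_ifs with hd
        · refine le_trans (incl_mono' r hr t _ _ (fun M => K ⊆ M) ?_) (ih (N - 1) (by omega) _ (hcardS S hS)
            K hK ?_)
          · intro M _ hKM x hx
            have := hKM hx
            rw [Finset.mem_insert] at this
            rcases this with h | h
            · exfalso
              apply hcase x hx
              rw [h]; exact Finset.mem_insert_self _ _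
            · exact h
          · intro x hx y hy
            rw [Finset.mem_sdiff]
            refine ⟨hKV x hx hy, fun hyS => ?_⟩
            rw [Finset.mem_insert] at hyS
            rcases hyS with h | h
            · exact hcase x hx (h ▸ hy)
            · apply Finset.disjoint_left.1 hd h
              rw [hU, Finset.mem_biUnion]
              exact ⟨x, hx, hy⟩
        · apply le_of_eq
          apply incl_zero' r hr
          intro M hM hKM
          apply hd
          rw [Finset.disjoint_left]
          intro y hyS hyU
          rw [hU, Finset.mem_biUnion] at hyU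
          obtain ⟨e, he, hye⟩ := hyU
          have := hKM he
          rw [Finset.mem_insert] at this
          rcases this with h | h
          · apply hcase e he
            rw [h]; exact Finset.mem_insert_self _ _
          · have := hM e h hye
            rw [Finset.mem_sdiff] at this
            exact this.2 (Finset.mem_insert_of_mem hyS)
      have hsum := Finset.sum_le_sum hterm
      have hcnt : ∑ S ∈ (V.erase v).powersetCard (r - 1),
          (if Disjoint S U then PP r (N - 1) K.card else 0) =
          (((r * (N - K.card) - 1).choose (r - 1) : ℕ) : ℝ) * PP r (N - 1) K.card := by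
        rw [← Finset.sum_filter, Finset.sum_const, nsmul_eq_mul]
        congr 2
        have : ((V.erase v).powersetCard (r - 1)).filter (fun S => Disjoint S U) =
            ((V.erase v) \ U).powersetCard (r - 1) := by
          ext S
          simp only [Finset.mem_filter, Finset.mem_powersetCard, Finset.subset_sdiff]
          tauto
        rw [this, Finset.card_powersetCard, Finset.card_sdiff_of_subset hUV, hUcard, hcardE]
        congr 1
        rw [Nat.mul_sub]
        omega
      rw [hcnt] at hsum
      have hpos : (0 : ℝ) < (((r * (N - K.card) - 1).choose (r - 1) : ℕ) : ℝ) := by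
        have : 0 < (r * (N - K.card) - 1).choose (r - 1) := by
          apply Nat.choose_pos
          have : 1 ≤ N - K.card := by omega
          have : r * 1 ≤ r * (N - K.card) := Nat.mul_le_mul_left r this
          omega
        exact_mod_cast this
      have key : PP r N K.card = (((r * (N - K.card) - 1).choose (r - 1) : ℕ) : ℝ) *
          PP r (N - 1) K.card / (((r * N - 1).choose (r - 1) : ℕ) : ℝ) := by
        have h1 := PP_succ r N K.card
        have h2 := PP_succ' r N K.card
        rw [h1] at h2
        have : PP r N K.card = PP r N K.card *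
            (1 / (((r * (N - K.card) - 1).choose (r - 1) : ℕ) : ℝ)) *
            (((r * (N - K.card) - 1).choose (r - 1) : ℕ) : ℝ) := by
          field_simp
        rw [this, h2]
        ring
      rw [key]
      exact div_le_div_of_nonneg_right hsum (by positivity)

theorem incl_num (r : ℕ) (hr : 2 ≤ r) (N k : ℕ) (hk : k ≤ N) :
    ∏ i ∈ range k, (1 / (((r * (N - i) - 1).choose (r - 1) : ℕ) : ℝ)) ≤
      (((r - 1).factorial : ℝ) * Real.exp (r - 1) / (N : ℝ) ^ (r - 1)) ^ k := by
  rcases Nat.eq_zero_or_pos k with rfl | hkpos
  · simp
  have hNpos : 0 < N := by omega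
  have hN0 : (0 : ℝ) < N := by exact_mod_cast hNpos
  have hk0 : (0 : ℝ) < k := by exact_mod_cast hkpos
  -- each factor
  have h1 : ∀ i ∈ range k, (1 / (((r * (N - i) - 1).choose (r - 1) : ℕ) : ℝ)) ≤
      ((r - 1).factorial : ℝ) / ((N : ℝ) - i) ^ (r - 1) := by
    intro i hi
    have hik := Finset.mem_range.1 hi
    have hM : 1 ≤ N - i := by omega
    have hcast : ((N - i : ℕ) : ℝ) = (N : ℝ) - i := by
      rw [Nat.cast_sub (by omega)]
    have hMpos : (0 : ℝ) < (N : ℝ) - i := by rw [← hcast]; exact_mod_cast hM
    have hnat : (N - i) ^ (r - 1) ≤ (r - 1).factorial * (r * (N - i) - 1).choose (r - 1) := by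
      rw [← Nat.descFactorial_eq_factorial_mul_choose]
      refine le_trans ?_ (Nat.pow_sub_le_descFactorial _ _)
      apply Nat.pow_le_pow_left
      have : r - 1 ≤ (r - 1) * (N - i) := Nat.le_mul_of_pos_right _ hM
      have h2 : r * (N - i) = (r - 1) * (N - i) + (N - i) := by
        conv_lhs => rw [show r = (r - 1) + 1 by omega]
        ring
      omega
    have hreal : ((N : ℝ) - i) ^ (r - 1) ≤ ((r - 1).factorial : ℝ) *
        (((r * (N - i) - 1).choose (r - 1) : ℕ) : ℝ) := by
      rw [← hcast]; exact_mod_cast hnat
    have hCpos : (0 : ℝ) < (((r * (N - i) - 1).choose (r - 1) : ℕ) : ℝ) := by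
      have hf : (0 : ℝ) < ((r - 1).factorial : ℝ) := by exact_mod_cast Nat.factorial_pos _
      by_contra hcon
      push Not at hcon
      have h3 : ((r - 1).factorial : ℝ) * (((r * (N - i) - 1).choose (r - 1) : ℕ) : ℝ) ≤ 0 :=
        mul_nonpos_of_nonneg_of_nonpos hf.le hcon
      have h4 : (0 : ℝ) < ((N : ℝ) - i) ^ (r - 1) := by positivity
      linarith
    rw [div_le_div_iff₀ hCpos (by positivity)]
    linarith
  refine le_trans (Finset.prod_le_prod (fun i _ => by positivity) h1) ?_
  rw [Finset.prod_div_distrib, Finset.prod_const, Finset.card_range, Finset.prod_pow]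
  have hprod : ((N : ℝ) / Real.exp 1) ^ k ≤ ∏ i ∈ range k, ((N : ℝ) - i) := by
    have hA : (N : ℝ) ^ k * (k.factorial : ℝ) ≤ (∏ i ∈ range k, ((N : ℝ) - i)) * (k : ℝ) ^ k := by
      have e1 : (k.factorial : ℝ) = ∏ i ∈ range k, ((k : ℝ) - i) := by
        have := Nat.descFactorial_self k
        rw [← this, Nat.descFactorial_eq_prod_range]
        push_cast
        apply Finset.prod_congr rfl
        intro i hi
        have := Finset.mem_range.1 hi
        rw [Nat.cast_sub (by omega)]
      have e2 : (N : ℝ) ^ k = ∏ i ∈ range k, (N : ℝ) := by simp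
      have e3 : (k : ℝ) ^ k = ∏ i ∈ range k, (k : ℝ) := by simp
      rw [e1, e2, e3, ← Finset.prod_mul_distrib, ← Finset.prod_mul_distrib]
      apply Finset.prod_le_prod
      · intro i hi
        have := Finset.mem_range.1 hi
        have : (i : ℝ) ≤ k := by exact_mod_cast this.le
        apply mul_nonneg hN0.le (by linarith)
      · intro i hi
        have hkN : (k : ℝ) ≤ N := by exact_mod_cast hk
        have hi0 : (0 : ℝ) ≤ i := by positivity
        nlinarith
    have hB : (k : ℝ) ^ k ≤ Real.exp k * (k.factorial : ℝ) := by
      have h := Real.pow_div_factorial_le_exp (k : ℝ) hk0.le k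
      have hf : (0 : ℝ) < (k.factorial : ℝ) := by exact_mod_cast Nat.factorial_pos _
      rwa [div_le_iff₀ hf] at h
    have hexp : Real.exp 1 ^ k = Real.exp k := by
      rw [← Real.exp_nat_mul]; simp
    rw [div_pow, hexp, div_le_iff₀ (Real.exp_pos _)]
    have hf : (0 : ℝ) < (k.factorial : ℝ) := by exact_mod_cast Nat.factorial_pos _
    have hprod0 : 0 ≤ ∏ i ∈ range k, ((N : ℝ) - i) := by
      apply Finset.prod_nonneg
      intro i hi
      have := Finset.mem_range.1 hi
      have h5 : (i : ℝ) ≤ N := by exact_mod_cast (by omega : i ≤ N)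
      linarith
    have hC : (N : ℝ) ^ k * (k.factorial : ℝ) ≤
        ((∏ i ∈ range k, ((N : ℝ) - i)) * Real.exp k) * (k.factorial : ℝ) := by
      refine hA.trans ?_
      rw [mul_assoc]
      exact mul_le_mul_of_nonneg_left hB hprod0
    exact le_of_mul_le_mul_right hC hf
  have hpos : (0 : ℝ) < ((N : ℝ) / Real.exp 1) ^ k := by positivity
  have hstep : (((r - 1).factorial : ℝ) ^ k) / (∏ i ∈ range k, ((N : ℝ) - i)) ^ (r - 1) ≤
      (((r - 1).factorial : ℝ) ^ k) / (((N : ℝ) / Real.exp 1) ^ k) ^ (r - 1) := by
    apply div_le_div_of_nonneg_left (by positivity) (by positivity)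
    exact pow_le_pow_left₀ hpos.le hprod _
  refine hstep.trans (le_of_eq ?_)
  have hexp2 : Real.exp ((r : ℝ) - 1) = Real.exp 1 ^ (r - 1) := by
    rw [← Real.exp_nat_mul]
    congr 1
    rw [Nat.cast_sub (by omega)]; simp
  rw [hexp2, ← pow_mul, mul_comm k (r - 1), pow_mul, ← div_pow]
  congr 1
  rw [div_pow]
  have he : (0 : ℝ) < Real.exp 1 ^ (r - 1) := by positivity
  have hNp : (0 : ℝ) < (N : ℝ) ^ (r - 1) := by positivity
  field_simp

end Pool.Agent.Work.MP_7d1693_pr
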