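import Pool.Agent.Work.MP_7d1693_pr.PAT
import Pool.Agent.Work.MP_7d1693_pr.PROC

namespace Pool.Agent.Work.MP_7d1693_pr

open Finset

/-- an edge with exactly one vertex in every window `[jn, (j+1)n)` -/
def FullGood (n r : ℕ) (e : Finset ℕ) : Prop :=
  e.card = r ∧ e.image (fun x => x / n) = range r

theorem full_el_range (r j : ℕ) (hj : j < r) : el (range r) j = j := by
  unfold el
  rw [Finset.sort_range, List.getD_eq_getElem _ _ (by simpa using hj)]
  simp

theorem full_good_el (n r : ℕ) (e : Finset ℕ) (he : FullGood n r e) (j : ℕ) (hj : j < r) :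
    el e j / n = j := by
  obtain ⟨h1, h2⟩ := he
  have hinj : Set.InjOn (fun x => x / n) (e : Set ℕ) := by
    rw [← Finset.card_image_iff, h2, card_range, h1]
  have hsm : StrictMonoOn (fun x => x / n) (e : Set ℕ) := by
    intro x hx y hy hxy
    exact lt_of_le_of_ne (Nat.div_le_div_right hxy.le) (fun h => hxy.ne (hinj hx hy h))
  have := el_image (fun x => x / n) e hsm j (by omega)
  rw [h2, full_el_range r j hj] at this
  exact this.symm

theorem full_bi (r : ℕ) : ∀ i, i < r → bi (List.replicate r 1) i = i := by
  induction r with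
  | zero => intro i hi; omega
  | succ r ih =>
    intro i hi
    rw [List.replicate_succ, bi]
    by_cases h : i < 1
    · rw [if_pos h]; omega
    · rw [if_neg h, ih (i - 1) (by omega)]; omega

theorem full_pat (n r : ℕ) (hr : 1 ≤ r) (e f : Finset ℕ) (he : FullGood n r e)
    (hf : FullGood n r f) (hd : Disjoint e f) (hlt : mn e < mn f) :
    HasType (pat e f) (List.replicate r 1) := by
  classical
  set b : List (ℕ × Bool) := (List.range r).map (fun j => (1, decide (el e j < el f j))) with hb
  have hfst : b.map Prod.fst = List.replicate r 1 := by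
    rw [hb, List.map_map]
    apply List.ext_getElem
    · simp
    · intro i h1 h2
      simp
  have hsnd : ∀ i < r, (b.map Prod.snd).getD i false = decide (el e i < el f i) := by
    intro i hi
    rw [hb, List.map_map, List.getD_eq_getElem _ _ (by simpa using hi)]
    simp
  have hne : ∀ g : Finset ℕ, g.card = r → g.Nonempty := fun g hg => by
    rw [← card_pos, hg]; omega
  have h0 : el e 0 < el f 0 := by
    rw [← (mn_eq e (hne e he.1)).1, ← (mn_eq f (hne f hf.1)).1]
    exact hlt
  refine ⟨b, hfst, ?_, ?_, ?_⟩
  · intro x hx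
    rw [hb, List.mem_map] at hx
    obtain ⟨j, _, rfl⟩ := hx
    simp
  · obtain ⟨k, rfl⟩ : ∃ k, r = k + 1 := ⟨r - 1, by omega⟩
    rw [hb, List.range_succ_eq_map]
    simp [h0]
  · rw [pat_word_iff r b (by rw [hfst]; simp) e f he.1 hf.1 hd]
    intro i hi j hj
    rw [hfst, full_bi r i hi, full_bi r j hj, hsnd i hi, decide_eq_true_iff]
    have ei := full_good_el n r e he i hi
    have fj := full_good_el n r f hf j hj
    constructor
    · intro h
      rcases Nat.lt_trichotomy i j with h1 | h1 | h1
      · exact Or.inl h1
      · subst h1; exact Or.inr ⟨rfl, h⟩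
      · exfalso
        have := Nat.div_le_div_right (c := n) h.le
        omega
    · rintro (h | ⟨h, h'⟩)
      · by_contra hc
        push Not at hc
        have := Nat.div_le_div_right (c := n) hc
        omega
      · subst h; exact h'

theorem full_out (r t : ℕ) (hr : 2 ≤ r) (V : Finset ℕ) (M : Finset (Finset ℕ))
    (hM : Out r t V M) : Fam r M ∧ ∀ e ∈ M, e ⊆ V := by
  induction t generalizing V M with
  | zero =>
    rw [Out] at hM
    subst hM
    exact ⟨⟨by simp, by simp⟩, by simp⟩
  | succ t ih =>
    rw [Out] at hM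
    obtain ⟨S, hS, M', hM', rfl⟩ := hM
    have hV : V.Nonempty := by
      rw [mem_powersetCard] at hS
      have : S.Nonempty := by rw [← card_pos]; omega
      exact (this.mono hS.1).mono (erase_subset _ _)
    obtain ⟨h1, h2, _⟩ := card_sdiff_insert r (by omega) V hV S hS
    obtain ⟨h3, h4⟩ := ih _ _ hM'
    refine ⟨⟨?_, ?_⟩, ?_⟩
    · intro e he
      rcases mem_insert.1 he with rfl | he
      · exact h2
      · exact h3.1 e he
    · intro e he f hf hef
      rcases mem_insert.1 he with rfl | he
      · rcases mem_insert.1 hf with rfl | hf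
        · exact absurd rfl hef
        · exact (Finset.disjoint_of_subset_left (h4 f hf) Finset.sdiff_disjoint).symm
      · rcases mem_insert.1 hf with rfl | hf
        · exact Finset.disjoint_of_subset_left (h4 e he) Finset.sdiff_disjoint
        · exact h3.2 e he f hf hef
    · intro e he
      rcases mem_insert.1 he with rfl | he
      · exact h1
      · exact (h4 e he).trans sdiff_subset

theorem full_z_mono (P : Set (List Bool)) (M M' : Finset (Finset ℕ)) (h : M ⊆ M') :
    z P M ≤ z P M' := by
  classical
  unfold z
  apply Finset.sup_mono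
  intro K hK
  rw [mem_filter, mem_powerset] at hK ⊢
  exact ⟨hK.1.trans h, hK.2⟩

theorem full_le_z (P : Set (List Bool)) (M K : Finset (Finset ℕ)) (h : K ⊆ M)
    (hK : IsClique P K) : K.card ≤ z P M := by
  classical
  unfold z
  exact Finset.le_sup (f := Finset.card) (mem_filter.2 ⟨mem_powerset.2 h, hK⟩)

open Classical in
theorem full_good_le_z (n r : ℕ) (hr : 1 ≤ r) (P : Set (List Bool))
    (hP : ∀ w, HasType w (List.replicate r 1) → w ∈ P) (M : Finset (Finset ℕ)) (hM : Fam r M) :
    (M.filter (FullGood n r)).card ≤ z P M := by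
  apply full_le_z P M _ (filter_subset _ _)
  intro e he f hf hlt
  rw [mem_filter] at he hf
  apply hP
  have hne : ∀ g ∈ M, g.Nonempty := fun g hg => by
    rw [← card_pos, hM.1 g hg]; omega
  apply full_pat n r hr e f he.2 hf.2
  · apply hM.2 e he.1 f hf.1
    rintro rfl
    exact lt_irrefl _ hlt
  · rw [(mn_eq e (hne e he.1)).2, (mn_eq f (hne f hf.1)).2] at hlt
    exact_mod_cast hlt

/-- number of good choices of `S` -/
theorem full_count (n r : ℕ) (hn : 1 ≤ n) (hr : 2 ≤ r) (V : Finset ℕ) (hV : V ⊆ range (r * n))
    (hU : 2 * (range (r * n) \ V).card ≤ n) (hv : mn V ∈ V) (hv0 : mn V / n = 0)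
    (G : Finset (Finset ℕ))
    (hG : ∀ S ∈ (V.erase (mn V)).powersetCard (r - 1), FullGood n r (insert (mn V) S) → S ∈ G) :
    ((n : ℝ) / 2) ^ (r - 1) ≤ (G.card : ℝ) := by
  classical
  set W : Fin (r - 1) → Finset ℕ := fun j => V.filter (fun x => x / n = j + 1) with hW
  have hWc : ∀ j, (n : ℝ) / 2 ≤ ((W j).card : ℝ) := by
    intro j
    have h1 : Ico ((j + 1) * n) ((j + 1) * n + n) ⊆ W j ∪ (range (r * n) \ V) := by
      intro x hx
      rw [mem_Ico] at hx
      rw [mem_union, hW, mem_filter, mem_sdiff, mem_range]
      have hxj : x / n = j + 1 := by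
        rw [Nat.div_eq_iff (by omega)]
        constructor
        · exact hx.1
        · have := hx.2
          rw [Nat.add_mul] at *
          omega
      by_cases hxV : x ∈ V
      · exact Or.inl ⟨hxV, hxj⟩
      · right
        refine ⟨?_, hxV⟩
        have hj := j.2
        calc x < (j + 1) * n + n := hx.2
          _ = (j + 2) * n := by ring
          _ ≤ r * n := Nat.mul_le_mul_right _ (by omega)
    have h2 := (card_le_card h1).trans (card_union_le _ _)
    rw [Nat.card_Ico] at h2
    have h3 : n ≤ (W j).card + (range (r * n) \ V).card := by omega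
    have h3' : (n : ℝ) ≤ ((W j).card : ℝ) + ((range (r * n) \ V).card : ℝ) := by exact_mod_cast h3
    have h4' : (2 : ℝ) * ((range (r * n) \ V).card : ℝ) ≤ n := by exact_mod_cast hU
    linarith
  have hinj : (Fintype.piFinset W).card ≤ G.card := by
    apply Finset.card_le_card_of_injOn (fun c => univ.image c)
    · intro c hc
      rw [mem_coe, Fintype.mem_piFinset] at hc
      have hc1 : ∀ j, c j ∈ V := fun j => (mem_filter.1 (hc j)).1
      have hc2 : ∀ j, c j / n = j + 1 := fun j => (mem_filter.1 (hc j)).2
      have hci : Function.Injective c := by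
        intro i j hij
        have := hc2 i
        rw [hij, hc2 j] at this
        exact Fin.ext (by omega)
      have hcc : (univ.image c).card = r - 1 := by
        rw [card_image_of_injective _ hci, card_univ, Fintype.card_fin]
      have hnv : mn V ∉ univ.image c := by
        intro h
        rw [mem_image] at h
        obtain ⟨j, _, hj⟩ := h
        have := hc2 j
        rw [hj, hv0] at this
        omega
      rw [mem_coe]
      apply hG
      · rw [mem_powersetCard]
        refine ⟨?_, hcc⟩
        intro x hx
        rw [mem_erase]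
        refine ⟨fun h => hnv (h ▸ hx), ?_⟩
        rw [mem_image] at hx
        obtain ⟨j, _, rfl⟩ := hx
        exact hc1 j
      · constructor
        · rw [card_insert_of_notMem hnv, hcc]; omega
        · ext x
          rw [mem_image, mem_range]
          constructor
          · rintro ⟨y, hy, rfl⟩
            rcases mem_insert.1 hy with rfl | hy
            · simp only [hv0]; omega
            · rw [mem_image] at hy
              obtain ⟨j, _, rfl⟩ := hy
              have := j.2
              simp only [hc2 j]
              omega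
          · intro hx
            rcases Nat.eq_zero_or_pos x with rfl | hx0
            · exact ⟨mn V, mem_insert_self _ _, hv0⟩
            · refine ⟨c ⟨x - 1, by omega⟩, mem_insert_of_mem (mem_image_of_mem _ (mem_univ _)), ?_⟩
              have := hc2 ⟨x - 1, by omega⟩
              simp only at this ⊢
              omega
    · intro c hc c' hc' h
      rw [mem_coe, Fintype.mem_piFinset] at hc hc'
      have hc2 : ∀ j, c j / n = j + 1 := fun j => (mem_filter.1 (hc j)).2
      have hc2' : ∀ j, c' j / n = j + 1 := fun j => (mem_filter.1 (hc' j)).2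
      funext j
      have : c j ∈ univ.image c' := by
        have h' : univ.image c = univ.image c' := h
        rw [← h']
        exact mem_image_of_mem _ (mem_univ _)
      rw [mem_image] at this
      obtain ⟨j', _, hj'⟩ := this
      have h1 := hc2 j
      have h2 := hc2' j'
      rw [hj', h1] at h2
      have : j' = j := Fin.ext (by omega)
      rw [← hj', this]
  have h5 : ((n : ℝ) / 2) ^ (r - 1) ≤ ((Fintype.piFinset W).card : ℝ) := by
    rw [Fintype.card_piFinset]
    push_cast
    calc ((n : ℝ) / 2) ^ (r - 1) = ∏ _j : Fin (r - 1), ((n : ℝ) / 2) := by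
          rw [Finset.prod_const, card_univ, Fintype.card_fin]
      _ ≤ ∏ j, ((W j).card : ℝ) := Finset.prod_le_prod (fun _ _ => by positivity) (fun j _ => hWc j)
  exact h5.trans (by exact_mod_cast hinj)

open Classical in
theorem full_rec (n r : ℕ) (hn : 1 ≤ n) (hr : 2 ≤ r) (s : ℕ) :
    ∀ (m : ℕ) (V : Finset ℕ), V ⊆ range (r * n) →
      2 * ((range (r * n) \ V).card + r * s) ≤ n →
      pr r s V (fun M => (M.filter (FullGood n r)).card < m) ≤
        2 ^ m * (1 - (1 / (2 * (r : ℝ))) ^ (r - 1) / 2) ^ s := by
  set q : ℝ := (1 / (2 * (r : ℝ))) ^ (r - 1) with hq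
  have hr0 : (0 : ℝ) < r := by exact_mod_cast (by omega : 0 < r)
  have hq0 : 0 < q := by rw [hq]; positivity
  have hq1 : q ≤ 1 := by
    rw [hq]
    apply pow_le_one₀ (by positivity)
    rw [div_le_one (by positivity)]
    have : (2 : ℝ) ≤ r := by exact_mod_cast hr
    linarith
  induction s with
  | zero =>
    intro m V _ _
    rw [pow_zero, mul_one]
    exact (pr_le_one _ _ _ _).trans (one_le_pow₀ (by norm_num))
  | succ s ih =>
    intro m V hV hU
    rcases Nat.eq_zero_or_pos m with hm | hm
    · subst hm
      have : pr r (s + 1) V (fun M => (M.filter (FullGood n r)).card < 0) ≤ 0 := by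
        have h1 : (fun M : Finset (Finset ℕ) => (M.filter (FullGood n r)).card < 0) =
          fun M => ∃ i ∈ (∅ : Finset ℕ), (fun (_ : ℕ) (_ : Finset (Finset ℕ)) => True) i M := by
          funext M; simp
        rw [h1]
        refine (pr_union r (s + 1) V ∅ (fun (_ : ℕ) (_ : Finset (Finset ℕ)) => True)).trans ?_
        simp
      refine this.trans ?_
      have : (0 : ℝ) ≤ 1 - q / 2 := by linarith
      positivity
    obtain ⟨m, rfl⟩ : ∃ m', m = m' + 1 := ⟨m - 1, by omega⟩
    have hUV : 2 * (range (r * n) \ V).card ≤ n := by omega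
    -- V is nonempty and its minimum lies in the first window
    have hx0 : ∃ x ∈ V, x < n := by
      by_contra hc
      push Not at hc
      have h1 : range n ⊆ range (r * n) \ V := by
        intro x hx
        rw [mem_range] at hx
        rw [mem_sdiff, mem_range]
        refine ⟨lt_of_lt_of_le hx (Nat.le_mul_of_pos_left _ (by omega)), fun hxV => ?_⟩
        have := hc x hxV
        omega
      have h2 := card_le_card h1
      rw [card_range] at h2
      omega
    obtain ⟨x0, hx0V, hx0n⟩ := hx0
    have hVne : V.Nonempty := ⟨x0, hx0V⟩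
    have hv := mn_mem V hVne
    have hv0 : mn V / n = 0 := by
      rw [Nat.div_eq_zero_iff]
      right
      exact lt_of_le_of_lt (mn_le V x0 hx0V) hx0n
    set T := (V.erase (mn V)).powersetCard (r - 1) with hT
    set G := T.filter (fun S => FullGood n r (insert (mn V) S)) with hG
    have hGc := full_count n r hn hr V hV hUV hv hv0 G (fun S hS hgood => by
      rw [hG, mem_filter]; exact ⟨hS, hgood⟩)
    have hTc : (T.card : ℝ) ≤ ((r : ℝ) * n) ^ (r - 1) := by
      rw [hT, card_powersetCard]
      have h1 : (V.erase (mn V)).card ≤ r * n := by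
        have := card_le_card ((erase_subset (mn V) V).trans hV)
        rwa [card_range] at this
      have h2 : (V.erase (mn V)).card.choose (r - 1) ≤ (r * n) ^ (r - 1) :=
        (Nat.choose_le_pow _ _).trans (Nat.pow_le_pow_left h1 _)
      exact_mod_cast h2
    have hGT : q * (T.card : ℝ) ≤ (G.card : ℝ) := by
      refine le_trans ?_ hGc
      refine (mul_le_mul_of_nonneg_left hTc hq0.le).trans (le_of_eq ?_)
      rw [hq, ← mul_pow]
      congr 1
      field_simp
    have hβ : (0 : ℝ) ≤ 1 - q / 2 := by linarith
    set β : ℝ := 1 - q / 2 with hβd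
    rw [pr_succ]
    apply div_le_of_le_mul₀ (Nat.cast_nonneg _) (by positivity)
    have hterm : ∀ S ∈ T, pr r s (V \ insert (mn V) S) (fun M =>
        ((insert (insert (mn V) S) M).filter (FullGood n r)).card < m + 1) ≤
        2 ^ (m + 1) * β ^ s - (if S ∈ G then 2 ^ m * β ^ s else 0) := by
      intro S hS
      obtain ⟨h1, h2, h3⟩ := card_sdiff_insert r (by omega) V hVne S hS
      have hsub : V \ insert (mn V) S ⊆ range (r * n) := sdiff_subset.trans hV
      have hUn : 2 * ((range (r * n) \ (V \ insert (mn V) S)).card + r * s) ≤ n := by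
        have e1 : (range (r * n) \ (V \ insert (mn V) S)).card + (V \ insert (mn V) S).card =
            (range (r * n)).card := Finset.card_sdiff_add_card_eq_card hsub
        have e2 : (range (r * n) \ V).card + V.card = (range (r * n)).card :=
          Finset.card_sdiff_add_card_eq_card hV
        have e3 : r * (s + 1) = r * s + r := by ring
        rw [e3] at hU
        omega
      by_cases hSG : S ∈ G
      · rw [if_pos hSG]
        have hgood := (mem_filter.1 hSG).2
        refine (pr_mono r s _ _ (fun M => (M.filter (FullGood n r)).card < m) ?_).trans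
          ((ih m _ hsub hUn).trans (le_of_eq (by ring)))
        intro M hM hcard
        have hnot : insert (mn V) S ∉ M := by
          intro hmem
          have := (full_out r s hr _ M hM).2 _ hmem (mem_insert_self _ _)
          rw [mem_sdiff] at this
          exact this.2 (mem_insert_self _ _)
        rw [filter_insert, if_pos hgood, card_insert_of_notMem (fun h => hnot
          (mem_of_mem_filter _ h))] at hcard
        omega
      · rw [if_neg hSG, sub_zero]
        refine (pr_mono r s _ _ (fun M => (M.filter (FullGood n r)).card < m + 1) ?_).trans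
          (ih (m + 1) _ hsub hUn)
        intro M hM hcard
        refine lt_of_le_of_lt (card_le_card ?_) hcard
        exact filter_subset_filter _ (subset_insert _ _)
    refine (Finset.sum_le_sum hterm).trans ?_
    rw [Finset.sum_sub_distrib, Finset.sum_const, nsmul_eq_mul]
    have e1 : (∑ S ∈ T, if S ∈ G then (2 : ℝ) ^ m * β ^ s else 0) = (G.card : ℝ) * (2 ^ m * β ^ s) := by
      rw [← Finset.sum_filter, Finset.sum_const, nsmul_eq_mul]
      congr 3
      ext S
      rw [mem_filter, hG, mem_filter]
      tauto
    rw [e1]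
    have hpos : (0 : ℝ) ≤ 2 ^ m * β ^ s := by positivity
    have h6 : q * (T.card : ℝ) * (2 ^ m * β ^ s) ≤ (G.card : ℝ) * (2 ^ m * β ^ s) :=
      mul_le_mul_of_nonneg_right hGT hpos
    have h7 : (2 : ℝ) ^ (m + 1) * β ^ (s + 1) * (T.card : ℝ) =
        (T.card : ℝ) * (2 ^ (m + 1) * β ^ s) - q * (T.card : ℝ) * (2 ^ m * β ^ s) := by
      rw [hβd]; ring
    rw [h7]
    linarith

theorem full_pr_false (r t : ℕ) (V : Finset ℕ) : pr r t V (fun _ => False) ≤ 0 := by
  have h1 : (fun _ : Finset (Finset ℕ) => False) =
      fun M => ∃ i ∈ (∅ : Finset ℕ), (fun (_ : ℕ) (_ : Finset (Finset ℕ)) => True) i M := by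
    funext M; simp
  rw [h1]
  refine (pr_union r t V ∅ (fun (_ : ℕ) (_ : Finset (Finset ℕ)) => True)).trans ?_
  simp

theorem full (r : ℕ) (hr : 2 ≤ r) (P : Set (List Bool))
    (hP : ∀ w, HasType w (List.replicate r 1) → w ∈ P) :
    ∃ c : ℝ, 0 < c ∧ ∀ n t : ℕ, 1 ≤ t → t ≤ n →
      pr r t (range (r * n)) (fun M => (z P M : ℝ) < c * t) ≤ Real.exp (-(c * t)) := by
  classical
  set q : ℝ := (1 / (2 * (r : ℝ))) ^ (r - 1) with hq
  have hr0 : (0 : ℝ) < r := by exact_mod_cast (by omega : 0 < r)
  have hr2 : (2 : ℝ) ≤ r := by exact_mod_cast hr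
  have hq0 : 0 < q := by rw [hq]; positivity
  have hq1 : q ≤ 1 := by
    rw [hq]
    apply pow_le_one₀ (by positivity)
    rw [div_le_one (by positivity)]
    linarith
  refine ⟨q / (16 * r), by positivity, ?_⟩
  intro n t ht htn
  set c : ℝ := q / (16 * r) with hc
  have hc0 : 0 < c := by rw [hc]; positivity
  by_cases hsmall : c * t ≤ 1
  · refine le_trans ?_ (Real.exp_pos _).le
    refine le_trans (pr_mono r t _ _ (fun _ => False) ?_) (full_pr_false r t _)
    intro M hM hz
    have hne : M.Nonempty := by
      obtain ⟨t, rfl⟩ : ∃ t', t = t' + 1 := ⟨t - 1, by omega⟩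
      rw [Out] at hM
      obtain ⟨S, _, M', _, rfl⟩ := hM
      exact insert_nonempty _ _
    obtain ⟨e, he⟩ := hne
    have h1 : ({e} : Finset (Finset ℕ)).card ≤ z P M := by
      apply full_le_z P M _ (singleton_subset_iff.2 he)
      intro a ha b hb hab
      rw [mem_singleton] at ha hb
      subst ha; subst hb
      exact absurd hab (lt_irrefl _)
    rw [card_singleton] at h1
    have h2 : (1 : ℝ) ≤ (z P M : ℝ) := by exact_mod_cast h1
    linarith
  · push Not at hsmall
    set s := t / (2 * r) with hs
    have hst : s ≤ t := Nat.div_le_self _ _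
    have h1 : pr r t (range (r * n)) (fun M => (z P M : ℝ) < c * t) ≤
        pr r s (range (r * n)) (fun M => (z P M : ℝ) < c * t) := by
      apply pr_anti_steps r s t hst
      intro M M' hMM' h
      refine lt_of_le_of_lt ?_ h
      exact_mod_cast full_z_mono P M M' hMM'
    refine h1.trans ?_
    set m := ⌈c * t⌉₊ with hm
    have h2 : pr r s (range (r * n)) (fun M => (z P M : ℝ) < c * t) ≤
        pr r s (range (r * n)) (fun M => (M.filter (FullGood n r)).card < m) := by
      apply pr_mono
      intro M hM hz
      have hfam := (full_out r s hr _ M hM).1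
      have h3 := full_good_le_z n r (by omega) P hP M hfam
      have h4 : (((M.filter (FullGood n r)).card : ℕ) : ℝ) < (m : ℝ) :=
        lt_of_le_of_lt (by exact_mod_cast h3) (lt_of_lt_of_le hz (Nat.le_ceil _))
      exact_mod_cast h4
    refine h2.trans ?_
    have h5 : 2 * ((range (r * n) \ range (r * n)).card + r * s) ≤ n := by
      rw [Finset.sdiff_self, card_empty, zero_add]
      have : t / (2 * r) * (2 * r) ≤ t := Nat.div_mul_le_self _ _
      calc 2 * (r * s) = t / (2 * r) * (2 * r) := by rw [hs]; ring
        _ ≤ t := this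
        _ ≤ n := htn
    refine (full_rec n r (by omega) hr s m _ (Finset.Subset.refl _) h5).trans ?_
    rw [← hq]
    have h6 : (1 - q / 2) ^ s ≤ Real.exp (-(q / 2) * s) := by
      have : 1 - q / 2 ≤ Real.exp (-(q / 2)) := by
        have := Real.add_one_le_exp (-(q / 2))
        linarith
      calc (1 - q / 2) ^ s ≤ (Real.exp (-(q / 2))) ^ s :=
            pow_le_pow_left₀ (by linarith) this s
        _ = Real.exp (-(q / 2) * s) := by rw [← Real.exp_nat_mul]; ring_nf
    have h7 : (2 : ℝ) ^ m ≤ Real.exp (m : ℝ) := by
      have : (2 : ℝ) ≤ Real.exp 1 := by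
        have := Real.add_one_le_exp (1 : ℝ)
        linarith
      calc (2 : ℝ) ^ m ≤ (Real.exp 1) ^ m := pow_le_pow_left₀ (by norm_num) this m
        _ = Real.exp (m : ℝ) := by rw [← Real.exp_nat_mul]; ring_nf
    have h8 : (2 : ℝ) ^ m * (1 - q / 2) ^ s ≤ Real.exp (m : ℝ) * Real.exp (-(q / 2) * s) :=
      mul_le_mul h7 h6 (pow_nonneg (by linarith) _) (Real.exp_pos _).le
    refine h8.trans ?_
    rw [← Real.exp_add]
    apply Real.exp_le_exp.2
    have h9 : (m : ℝ) < c * t + 1 := Nat.ceil_lt_add_one (by positivity)
    have h10 : (t : ℝ) / (2 * r) - 1 ≤ (s : ℝ) := by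
      have h11 : t < (s + 1) * (2 * r) := by
        rw [hs]
        have := Nat.lt_div_mul_add (a := t) (b := 2 * r) (by omega)
        calc t < t / (2 * r) * (2 * r) + 2 * r := this
          _ = (t / (2 * r) + 1) * (2 * r) := by ring
      have h12 : (t : ℝ) ≤ ((s : ℝ) + 1) * (2 * r) := by exact_mod_cast h11.le
      have h13 : (t : ℝ) / (2 * r) ≤ (s : ℝ) + 1 := by
        rw [div_le_iff₀ (by positivity)]; exact h12
      linarith
    -- the constants
    have h14 : q * t / (16 * r) = c * t := by rw [hc]; ring
    have h15 : (q / 2) * ((t : ℝ) / (2 * r)) = 4 * (c * t) := by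
      rw [hc]; field_simp; ring
    have h16 : (q / 2) * ((t : ℝ) / (2 * r) - 1) ≤ (q / 2) * s :=
      mul_le_mul_of_nonneg_left h10 (by positivity)
    have h17 : (q / 2) * ((t : ℝ) / (2 * r) - 1) = 4 * (c * t) - q / 2 := by
      rw [mul_sub, h15]; ring
    nlinarith

end Pool.Agent.Work.MP_7d1693_pr
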