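import Pool.Agent.Work.MP_7d1693_pr.Base

namespace Pool.Agent.Work.MP_7d1693_pr

open Finset

/-- few wide blocks in a block column -/
theorem mt_wide {l : ℕ} (τ : Equiv.Perm (Fin l)) (A : Finset (ℕ × ℕ)) (h : ¬ MCon τ A)
    (q : ℕ) (hq : 0 < q) (J : ℕ) (S : Finset ℕ)
    (hS : ∀ I ∈ S, l ≤ ((A.filter (fun p => p.1 / q = I ∧ p.2 / q = J)).image Prod.snd).card) :
    S.card ≤ q.choose l * l := by
  classical
  by_contra hcon
  push Not at hcon
  have hch : ∀ I ∈ S, ∃ s ⊆ ((A.filter (fun p => p.1 / q = I ∧ p.2 / q = J)).image Prod.snd),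
      s.card = l := fun I hI => Finset.exists_subset_card_eq (hS I hI)
  choose! s hs hc using hch
  have hmap : ∀ I ∈ S, s I ∈ (Ico (J * q) (J * q + q)).powersetCard l := by
    intro I hI
    rw [mem_powersetCard]
    refine ⟨fun x hx => ?_, hc I hI⟩
    have := hs I hI hx
    rw [mem_image] at this
    obtain ⟨p, hp, rfl⟩ := this
    rw [mem_filter] at hp
    rw [mem_Ico]
    obtain ⟨_, _, h2⟩ := hp
    constructor
    · rw [← h2]; exact Nat.div_mul_le_self _ _
    · rw [← h2]; exact Nat.lt_div_mul_add hq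
  obtain ⟨y, hy, hfib⟩ := Finset.exists_lt_card_fiber_of_mul_lt_card_of_maps_to hmap
    (n := l) (by rw [card_powersetCard, Nat.card_Ico]; simpa using hcon)
  obtain ⟨F, hF, hFc⟩ := Finset.exists_subset_card_eq (le_of_lt hfib)
  rw [mem_powersetCard] at hy
  have hyc := hy.2
  apply h
  have key : ∀ i : Fin l, ∃ x, (x, y.orderEmbOfFin hyc (τ i)) ∈ A ∧
      x / q = F.orderEmbOfFin hFc i := by
    intro i
    have h1 : F.orderEmbOfFin hFc i ∈ F := Finset.orderEmbOfFin_mem F hFc i
    have h2 := hF h1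
    rw [mem_filter] at h2
    have h3 : y.orderEmbOfFin hyc (τ i) ∈ y := Finset.orderEmbOfFin_mem y hyc (τ i)
    have h4 := hs _ h2.1
    rw [h2.2] at h4
    have h5 := h4 h3
    rw [mem_image] at h5
    obtain ⟨p, hp, hp2⟩ := h5
    rw [mem_filter] at hp
    exact ⟨p.1, by rw [← hp2]; exact hp.1, hp.2.1⟩
  choose f hf hf2 using key
  refine ⟨f, fun i => y.orderEmbOfFin hyc i, ?_, ?_, hf⟩
  · intro i j hij
    have h6 : F.orderEmbOfFin hFc i < F.orderEmbOfFin hFc j :=
      (F.orderEmbOfFin hFc).strictMono hij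
    rw [← hf2, ← hf2] at h6
    by_contra hcc
    push Not at hcc
    exact absurd (Nat.div_le_div_right (c := q) hcc) (by omega)
  · intro i j hij
    exact (y.orderEmbOfFin hyc).strictMono hij

theorem mcon_swap {l : ℕ} (τ : Equiv.Perm (Fin l)) (A : Finset (ℕ × ℕ))
    (h : MCon τ.symm (A.image Prod.swap)) : MCon τ A := by
  obtain ⟨f, g, hf, hg, hA⟩ := h
  refine ⟨g, f, hg, hf, fun i => ?_⟩
  have := hA (τ i)
  rw [mem_image] at this
  obtain ⟨p, hp, hp2⟩ := this
  rw [Equiv.symm_apply_apply] at hp2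
  have : p = (g i, f (τ i)) := by
    rw [← Prod.swap_swap p, hp2]; rfl
  rw [← this]; exact hp

/-- few tall blocks in a block row -/
theorem mt_tall {l : ℕ} (τ : Equiv.Perm (Fin l)) (A : Finset (ℕ × ℕ)) (h : ¬ MCon τ A)
    (q : ℕ) (hq : 0 < q) (I : ℕ) (S : Finset ℕ)
    (hS : ∀ J ∈ S, l ≤ ((A.filter (fun p => p.1 / q = I ∧ p.2 / q = J)).image Prod.fst).card) :
    S.card ≤ q.choose l * l := by
  classical
  refine mt_wide τ.symm (A.image Prod.swap) (fun hc => h (mcon_swap τ A hc)) q hq I S ?_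
  intro J hJ
  refine (hS J hJ).trans (le_of_eq ?_)
  congr 1
  ext x
  simp only [mem_image, mem_filter]
  constructor
  · rintro ⟨p, ⟨hp, h1, h2⟩, rfl⟩
    exact ⟨p.swap, ⟨⟨p, hp, rfl⟩, h2, h1⟩, rfl⟩
  · rintro ⟨p, ⟨⟨p', hp', rfl⟩, h1, h2⟩, rfl⟩
    exact ⟨p', ⟨hp', h2, h1⟩, rfl⟩

/-- the block matrix avoids the pattern -/
theorem mt_block {l : ℕ} (τ : Equiv.Perm (Fin l)) (A : Finset (ℕ × ℕ)) (h : ¬ MCon τ A)
    (q : ℕ) : ¬ MCon τ (A.image (fun p => (p.1 / q, p.2 / q))) := by
  classical
  rintro ⟨f, g, hf, hg, hA⟩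
  apply h
  have key : ∀ i, ∃ p ∈ A, p.1 / q = f i ∧ p.2 / q = g (τ i) := by
    intro i
    have := hA i
    rw [mem_image] at this
    obtain ⟨p, hp, hp2⟩ := this
    rw [Prod.mk.injEq] at hp2
    exact ⟨p, hp, hp2⟩
  choose p hp hp1 hp2 using key
  refine ⟨fun i => (p i).1, fun j => (p (τ.symm j)).2, ?_, ?_, ?_⟩
  · intro i j hij
    have h6 := hf hij
    rw [← hp1, ← hp1] at h6
    by_contra hcc
    push Not at hcc
    exact absurd (Nat.div_le_div_right (c := q) hcc) (by omega)
  · intro i j hij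
    have h6 := hg hij
    have e1 := hp2 (τ.symm i)
    have e2 := hp2 (τ.symm j)
    rw [Equiv.apply_symm_apply] at e1 e2
    rw [← e1, ← e2] at h6
    by_contra hcc
    push Not at hcc
    exact absurd (Nat.div_le_div_right (c := q) hcc) (by omega)
  · intro i
    simp only [Equiv.symm_apply_apply]
    exact hp i

/-- one step of the Marcus-Tardos recursion -/
theorem mt_step {l : ℕ} (τ : Equiv.Perm (Fin l)) (A : Finset (ℕ × ℕ)) (h : ¬ MCon τ A)
    (q : ℕ) (hq : 0 < q) (N : ℕ)
    (hN : A.image (fun p => (p.1 / q, p.2 / q)) ⊆ range N ×ˢ range N) :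
    A.card ≤ (l - 1) ^ 2 * (A.image (fun p => (p.1 / q, p.2 / q))).card +
      2 * (q ^ 2 * (q.choose l * l * N)) := by
  classical
  set B := A.image (fun p => (p.1 / q, p.2 / q)) with hB
  set E : ℕ × ℕ → Finset (ℕ × ℕ) := fun b => A.filter (fun p => p.1 / q = b.1 ∧ p.2 / q = b.2)
    with hE
  set W := B.filter (fun b => l ≤ ((E b).image Prod.snd).card) with hW
  set T := B.filter (fun b => l ≤ ((E b).image Prod.fst).card) with hT
  have hsum : A.card = ∑ b ∈ B, (E b).card := by
    rw [hB, Finset.card_eq_sum_card_image (fun p : ℕ × ℕ => (p.1 / q, p.2 / q)) A]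
    refine Finset.sum_congr rfl fun b _ => ?_
    congr 1
    ext p
    simp only [hE, mem_filter, Prod.ext_iff]
  have hEq : ∀ b, (E b).card ≤ q ^ 2 := by
    intro b
    have : E b ⊆ Ico (b.1 * q) (b.1 * q + q) ×ˢ Ico (b.2 * q) (b.2 * q + q) := by
      intro p hp
      rw [hE, mem_filter] at hp
      obtain ⟨_, h1, h2⟩ := hp
      rw [mem_product, mem_Ico, mem_Ico, ← h1, ← h2]
      exact ⟨⟨Nat.div_mul_le_self _ _, Nat.lt_div_mul_add hq⟩,
        ⟨Nat.div_mul_le_self _ _, Nat.lt_div_mul_add hq⟩⟩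
    refine (card_le_card this).trans (le_of_eq ?_)
    rw [card_product, Nat.card_Ico, Nat.card_Ico]
    simp [sq]
  have hb : ∀ b ∈ B, (E b).card ≤ (l - 1) ^ 2 + (if b ∈ W then q ^ 2 else 0) +
      (if b ∈ T then q ^ 2 else 0) := by
    intro b hbB
    by_cases hw : b ∈ W
    · rw [if_pos hw]
      have := hEq b
      omega
    by_cases ht : b ∈ T
    · rw [if_pos ht]
      have := hEq b
      omega
    rw [if_neg hw, if_neg ht, add_zero, add_zero]
    rw [hW, mem_filter, not_and] at hw
    rw [hT, mem_filter, not_and] at ht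
    have h1 := hw hbB
    have h2 := ht hbB
    have h3 : E b ⊆ (E b).image Prod.fst ×ˢ (E b).image Prod.snd := by
      intro p hp
      rw [mem_product]
      exact ⟨mem_image_of_mem _ hp, mem_image_of_mem _ hp⟩
    refine (card_le_card h3).trans ?_
    rw [card_product, sq]
    exact Nat.mul_le_mul (by omega) (by omega)
  have hWc : W.card ≤ q.choose l * l * N := by
    have := Finset.card_le_mul_card_image_of_maps_to (s := W) (t := range N) (f := Prod.snd)
      (fun b hb => by
        rw [hW, mem_filter] at hb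
        exact (mem_product.1 (hN hb.1)).2) (q.choose l * l) ?_
    · simpa using this
    intro J hJ
    have hinj : (W.filter (fun b => b.2 = J)).card =
        ((W.filter (fun b => b.2 = J)).image Prod.fst).card := by
      rw [card_image_of_injOn]
      intro b hb b' hb' hbb
      rw [mem_coe, mem_filter] at hb hb'
      exact Prod.ext hbb (hb.2.trans hb'.2.symm)
    rw [hinj]
    refine mt_wide τ A h q hq J _ ?_
    intro I hI
    rw [mem_image] at hI
    obtain ⟨b, hb, rfl⟩ := hI
    rw [mem_filter, hW, mem_filter] at hb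
    obtain ⟨⟨_, h1⟩, h2⟩ := hb
    subst h2
    exact h1
  have hTc : T.card ≤ q.choose l * l * N := by
    have := Finset.card_le_mul_card_image_of_maps_to (s := T) (t := range N) (f := Prod.fst)
      (fun b hb => by
        rw [hT, mem_filter] at hb
        exact (mem_product.1 (hN hb.1)).1) (q.choose l * l) ?_
    · simpa using this
    intro I hI
    have hinj : (T.filter (fun b => b.1 = I)).card =
        ((T.filter (fun b => b.1 = I)).image Prod.snd).card := by
      rw [card_image_of_injOn]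
      intro b hb b' hb' hbb
      rw [mem_coe, mem_filter] at hb hb'
      exact Prod.ext (hb.2.trans hb'.2.symm) hbb
    rw [hinj]
    refine mt_tall τ A h q hq I _ ?_
    intro J hJ
    rw [mem_image] at hJ
    obtain ⟨b, hb, rfl⟩ := hJ
    rw [mem_filter, hT, mem_filter] at hb
    obtain ⟨⟨_, h1⟩, h2⟩ := hb
    subst h2
    exact h1
  rw [hsum]
  refine (Finset.sum_le_sum hb).trans ?_
  rw [Finset.sum_add_distrib, Finset.sum_add_distrib, Finset.sum_const, smul_eq_mul]
  have e1 : (∑ b ∈ B, if b ∈ W then q ^ 2 else 0) = W.card * q ^ 2 := by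
    rw [← Finset.sum_filter, Finset.sum_const, smul_eq_mul]
    congr 2
    ext b
    rw [mem_filter, hW, mem_filter]
    tauto
  have e2 : (∑ b ∈ B, if b ∈ T then q ^ 2 else 0) = T.card * q ^ 2 := by
    rw [← Finset.sum_filter, Finset.sum_const, smul_eq_mul]
    congr 2
    ext b
    rw [mem_filter, hT, mem_filter]
    tauto
  rw [e1, e2]
  have f1 : W.card * q ^ 2 ≤ q ^ 2 * (q.choose l * l * N) := by
    rw [mul_comm]; exact Nat.mul_le_mul_left _ hWc
  have f2 : T.card * q ^ 2 ≤ q ^ 2 * (q.choose l * l * N) := by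
    rw [mul_comm]; exact Nat.mul_le_mul_left _ hTc
  rw [mul_comm B.card]
  omega

/-- **Marcus-Tardos**: a 0-1 matrix avoiding a permutation matrix has linearly many ones -/
theorem mt_matrix (l : ℕ) (τ : Equiv.Perm (Fin l)) :
    ∃ c : ℕ, ∀ n, ∀ A ⊆ range n ×ˢ range n, ¬ MCon τ A → A.card ≤ c * n := by
  classical
  rcases Nat.lt_or_ge l 2 with hl | hl
  · refine ⟨0, fun n A hA h => ?_⟩
    rw [zero_mul, Nat.le_zero, card_eq_zero]
    by_contra hne
    obtain ⟨p, hp⟩ := Finset.nonempty_iff_ne_empty.2 hne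
    apply h
    refine ⟨fun _ => p.1, fun _ => p.2, ?_, ?_, fun i => hp⟩
    · intro i j hij
      exfalso
      have := i.2
      have := j.2
      have := Fin.lt_def.1 hij
      omega
    · intro i j hij
      exfalso
      have := i.2
      have := j.2
      have := Fin.lt_def.1 hij
      omega
  · set D := 2 * ((l ^ 2) ^ 2 * ((l ^ 2).choose l * l)) with hD
    refine ⟨D + l ^ 4, fun n => ?_⟩
    induction n using Nat.strong_induction_on with
    | _ n ih =>
    intro A hA h
    rcases Nat.lt_or_ge n (l ^ 4) with hn | hn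
    · have h1 := card_le_card hA
      rw [card_product, card_range] at h1
      refine h1.trans (Nat.mul_le_mul_right _ ?_)
      omega
    · have hq : 0 < l ^ 2 := by positivity
      set q := l ^ 2 with hqd
      set N := (n - 1) / q + 1 with hN
      have hl4 : l ^ 4 = q ^ 2 := by rw [hqd]; ring
      have hq4 : 4 ≤ q := by rw [hqd]; nlinarith
      have hn16 : 16 ≤ n := by
        have : 16 ≤ q ^ 2 := by nlinarith
        omega
      have hsub : A.image (fun p => (p.1 / q, p.2 / q)) ⊆ range N ×ˢ range N := by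
        intro b hb
        rw [mem_image] at hb
        obtain ⟨p, hp, rfl⟩ := hb
        have := mem_product.1 (hA hp)
        rw [mem_range, mem_range] at this
        rw [mem_product, mem_range, mem_range, hN]
        exact ⟨Nat.lt_succ_of_le (Nat.div_le_div_right (by omega)),
          Nat.lt_succ_of_le (Nat.div_le_div_right (by omega))⟩
      have hNq : N * q ≤ n - 1 + q := by
        rw [hN, add_mul, one_mul]
        have := Nat.div_mul_le_self (n - 1) q
        omega
      have hNn : N < n := by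
        have h1 : N * 4 ≤ N * q := Nat.mul_le_mul_left _ hq4
        have h2 : q ≤ n := by nlinarith
        omega
      have h1 := mt_step τ A h q hq N hsub
      have h2 := ih N hNn _ hsub (mt_block τ A h q)
      have h3 : A.card ≤ (l - 1) ^ 2 * ((D + l ^ 4) * N) + D * N := by
        refine h1.trans (Nat.add_le_add (Nat.mul_le_mul_left _ h2) (le_of_eq ?_))
        rw [hD]; ring
      refine h3.trans ?_
      -- arithmetic
      obtain ⟨k, rfl⟩ : ∃ k, l = k + 2 := ⟨l - 2, by omega⟩
      have hk1 : k + 2 - 1 = k + 1 := by omega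
      rw [hk1]
      set c := D + (k + 2) ^ 4 with hc
      have hDc : D ≤ c := by omega
      have hqk : q = (k + 1) ^ 2 + (2 * k + 3) := by rw [hqd]; ring
      have hgoal : ((k + 1) ^ 2 * (c * N) + D * N) * q ≤ c * n * q := by
        have e1 : ((k + 1) ^ 2 * (c * N) + D * N) * q = ((k + 1) ^ 2 * c + D) * (N * q) := by ring
        rw [e1]
        have e2 : ((k + 1) ^ 2 * c + D) * (N * q) ≤ ((k + 1) ^ 2 * c + c) * (n - 1 + q) :=
          Nat.mul_le_mul (by omega) hNq
        refine e2.trans ?_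
        have e3 : ((k + 1) ^ 2 * c + c) * (n - 1 + q) = c * (((k + 1) ^ 2 + 1) * (n - 1 + q)) := by
          ring
        rw [e3, mul_assoc]
        refine Nat.mul_le_mul_left _ ?_
        -- ((k+1)^2+1)(n-1+q) <= n q
        have e4 : ((k + 1) ^ 2 + 1) * (n - 1 + q) ≤ ((k + 1) ^ 2 + 1) * (n + q) :=
          Nat.mul_le_mul_left _ (by omega)
        refine e4.trans ?_
        rw [hl4] at hn
        have e5 : ((k + 1) ^ 2 + 1) * q ≤ q ^ 2 := by
          rw [sq q]
          exact Nat.mul_le_mul_right _ (by omega)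
        have e6 : n * q = ((k + 1) ^ 2 + 1) * n + (2 * k + 2) * n := by
          rw [hqk]; ring
        rw [e6, mul_add]
        have e7 : n ≤ (2 * k + 2) * n := Nat.le_mul_of_pos_left _ (by omega)
        omega
      exact Nat.le_of_mul_le_mul_right hgoal hq

end Pool.Agent.Work.MP_7d1693_pr
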